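import Mathlib

open Complex Filter Topology Set MeasureTheory HurwitzZeta

namespace Pool.Agent.H5

/-- the strongly decaying kernel whose Mellin transform is `2 * completedRiemannZeta₀ (2 s)` -/
noncomputable def fm : ℝ → ℂ := (hurwitzEvenFEPair 0).f_modif

lemma fm_convergent (s : ℂ) : MellinConvergent fm s :=
  ((hurwitzEvenFEPair 0).isStrongFEPair_toStrongFEPair.hasMellin s).1

lemma completed_eq (s : ℂ) : completedRiemannZeta₀ s = mellin fm (s / 2) / 2 := rfl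

lemma evenKernel_sub_one_nonneg {t : ℝ} (ht : 0 < t) : 0 ≤ evenKernel 0 t - 1 := by
  have h := hasSum_int_evenKernel₀ 0 ht
  simp only [QuotientAddGroup.mk_zero, if_true] at h
  refine h.nonneg fun n => ?_
  split_ifs
  · exact le_rfl
  · positivity

lemma fm_of_one_lt {t : ℝ} (ht : 1 < t) : fm t = ((evenKernel 0 t - 1 : ℝ) : ℂ) := by
  have h1 : t ∈ Ioi (1:ℝ) := ht
  have h2 : t ∉ Ioo (0:ℝ) 1 := fun h => absurd h.2 (not_lt.2 ht.le)
  simp only [fm, WeakFEPair.f_modif, Pi.add_apply, indicator_of_mem h1, indicator_of_notMem h2,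
    add_zero]
  simp [hurwitzEvenFEPair]

lemma fm_one : fm 1 = 0 := by
  simp [fm, WeakFEPair.f_modif]

lemma fm_of_lt_one {t : ℝ} (h0 : 0 < t) (ht : t < 1) :
    fm t = ((t ^ (-(1 / 2) : ℝ) * (evenKernel 0 (1 / t) - 1) : ℝ) : ℂ) := by
  have hx : 1 < 1 / t := by rw [lt_div_iff₀ h0]; simpa using ht
  have h := (hurwitzEvenFEPair 0).hf_modif_FE (1 / t) (by positivity)
  rw [one_div_one_div] at h
  have h1 : (1 / t) ∈ Ioi (1:ℝ) := hx
  have h2 : (1 / t) ∉ Ioo (0:ℝ) 1 := fun h => absurd h.2 (not_lt.2 hx.le)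
  have h3 : fm t = (hurwitzEvenFEPair 0).f_modif t := rfl
  rw [h3, h]
  simp only [WeakFEPair.g_modif, Pi.add_apply, indicator_of_mem h1, indicator_of_notMem h2,
    add_zero]
  simp only [hurwitzEvenFEPair, ← evenKernel_eq_cosKernel_of_zero]
  have h4 : (1 / t : ℝ) ^ (1 / 2 : ℝ) = t ^ (-(1 / 2) : ℝ) := by
    rw [one_div, Real.inv_rpow h0.le, Real.rpow_neg h0.le]
  rw [h4]
  simp

lemma fm_nonneg {t : ℝ} (ht : 0 < t) : ∃ r : ℝ, 0 ≤ r ∧ fm t = (r : ℂ) := by
  rcases lt_trichotomy t 1 with h | h | h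
  · refine ⟨_, ?_, fm_of_lt_one ht h⟩
    have := evenKernel_sub_one_nonneg (t := 1 / t) (by positivity)
    positivity
  · exact ⟨0, le_rfl, by rw [h, fm_one]; simp⟩
  · exact ⟨_, evenKernel_sub_one_nonneg ht, fm_of_one_lt h⟩

/-- the real Mellin transform of the norm. -/
noncomputable def Phi (x : ℝ) : ℝ := ∫ t in Ioi (0:ℝ), t ^ (x - 1) * ‖fm t‖

lemma Phi_integrable (x : ℝ) : IntegrableOn (fun t : ℝ => t ^ (x - 1) * ‖fm t‖) (Ioi 0) := by
  have h := (fm_convergent (x : ℂ)).norm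
  refine (integrableOn_congr_fun ?_ measurableSet_Ioi).1 h
  intro t ht
  have ht' : (0:ℝ) < t := ht
  simp only [norm_smul]
  rw [Complex.norm_cpow_eq_rpow_re_of_pos ht']
  simp

lemma norm_mellin_le (s : ℂ) : ‖mellin fm s‖ ≤ Phi s.re := by
  rw [mellin, Phi]
  refine (norm_integral_le_integral_norm _).trans (le_of_eq ?_)
  refine setIntegral_congr_fun measurableSet_Ioi fun t ht => ?_
  have ht' : (0:ℝ) < t := ht
  simp only [norm_smul]
  rw [Complex.norm_cpow_eq_rpow_re_of_pos ht']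
  simp

lemma mellin_eq_Phi (x : ℝ) : mellin fm x = (Phi x : ℂ) := by
  rw [mellin, Phi, ← integral_complex_ofReal]
  refine setIntegral_congr_fun measurableSet_Ioi fun t ht => ?_
  have ht' : (0:ℝ) < t := ht
  obtain ⟨r, hr, hrt⟩ := fm_nonneg ht'
  simp only [smul_eq_mul]
  rw [hrt, Complex.norm_real, Real.norm_of_nonneg hr, ofReal_mul, Complex.ofReal_cpow ht'.le]
  simp

lemma Phi_half_bound : Phi (1 / 4) ≤ (Phi (1 / 2) + Phi 0) / 2 := by
  have h1 := Phi_integrable (1 / 2)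
  have h2 := Phi_integrable 0
  have h3 : (Phi (1 / 2) + Phi 0) / 2 = ∫ t in Ioi (0:ℝ),
      (t ^ ((1 / 2 : ℝ) - 1) * ‖fm t‖ + t ^ ((0:ℝ) - 1) * ‖fm t‖) / 2 := by
    rw [integral_div, integral_add h1 h2]
    rfl
  rw [h3, Phi]
  refine setIntegral_mono_on (Phi_integrable _) ((h1.add h2).div_const 2) measurableSet_Ioi ?_
  intro t ht
  have ht' : (0:ℝ) < t := ht
  have e1 : t ^ ((1 / 4 : ℝ) - 1) = t ^ (1 / 4 : ℝ) * t⁻¹ := by
    rw [Real.rpow_sub ht', Real.rpow_one]; rfl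
  have e2 : t ^ ((1 / 2 : ℝ) - 1) = t ^ (1 / 2 : ℝ) * t⁻¹ := by
    rw [Real.rpow_sub ht', Real.rpow_one]; rfl
  have e3 : t ^ ((0 : ℝ) - 1) = t⁻¹ := by
    rw [zero_sub, Real.rpow_neg_one]
  have e4 : t ^ (1 / 2 : ℝ) = (t ^ (1 / 4 : ℝ)) ^ 2 := by
    rw [← Real.rpow_natCast, ← Real.rpow_mul ht'.le]; norm_num
  rw [e1, e2, e3, e4]
  have h5 : 0 ≤ t⁻¹ * ‖fm t‖ := by positivity
  nlinarith [sq_nonneg (t ^ (1 / 4 : ℝ) - 1), mul_nonneg (sq_nonneg (t ^ (1 / 4 : ℝ) - 1)) h5]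

lemma norm_completed_half : ‖completedRiemannZeta₀ (1 / 2)‖ < 4 := by
  have h0 : completedRiemannZeta₀ (1 / 2) = mellin fm ((1 / 4 : ℝ) : ℂ) / 2 := by
    rw [completed_eq]; congr 2; push_cast; norm_num
  have h1 : completedRiemannZeta₀ 1 = (Phi (1 / 2) : ℂ) / 2 := by
    rw [completed_eq, ← mellin_eq_Phi]; congr 2; push_cast; norm_num
  have h2 : completedRiemannZeta₀ 0 = (Phi 0 : ℂ) / 2 := by
    rw [completed_eq, ← mellin_eq_Phi]; congr 2; simp
  have h3 : completedRiemannZeta₀ 0 = completedRiemannZeta₀ 1 := by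
    have := completedRiemannZeta₀_one_sub 0
    rw [← this]; simp
  have h4 : (Phi (1 / 2)) = Phi 0 := by
    rw [h1, h2] at h3
    have : (Phi 0 : ℂ) = (Phi (1 / 2) : ℂ) := by
      have h := congrArg (fun z : ℂ => z * 2) h3
      simpa using h
    exact_mod_cast this.symm
  have h5 := Phi_half_bound
  rw [h4] at h5
  have h6 : Phi (1 / 4) ≤ Phi 0 := by linarith
  have h7 : Phi 0 / 2 < 4 := by
    have e : (((Phi 0 / 2 : ℝ)) : ℂ) = ((((Real.eulerMascheroniConstant - Real.log (4 * Real.pi)) / 2 + 1 : ℝ)) : ℂ) := by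
      have h8 := completedRiemannZeta₀_zero
      rw [h2] at h8
      rw [Complex.ofReal_div, Complex.ofReal_ofNat, h8]
      push_cast
      rw [Complex.ofReal_log (by positivity)]
      push_cast
      ring
    have e' : Phi 0 / 2 = (Real.eulerMascheroniConstant - Real.log (4 * Real.pi)) / 2 + 1 := by
      exact_mod_cast e
    rw [e']
    have h9 : Real.eulerMascheroniConstant < 2 / 3 := Real.eulerMascheroniConstant_lt_two_thirds
    have h10 : 0 ≤ Real.log (4 * Real.pi) := Real.log_nonneg (by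
      have := Real.pi_gt_three
      linarith)
    linarith
  rw [h0, norm_div]
  have h11 := norm_mellin_le (((1 / 4 : ℝ)) : ℂ)
  rw [Complex.ofReal_re] at h11
  have : ‖(2:ℂ)‖ = 2 := by simp
  rw [this]
  linarith

end Pool.Agent.H5
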