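import Mathlib
import Pool.Agent.H5.Theta

open Complex Filter Topology Set MeasureTheory HurwitzZeta

namespace Pool.Agent.H5

lemma rpow_le_exp {x q t : ℝ} (hx : 0 < x) (hq : 0 < q) (ht : 0 < t) :
    t ^ x ≤ Real.exp (2 / Real.sqrt q * x ^ (3 / 2 : ℝ)) * Real.exp (q * t) := by
  rw [← Real.exp_add, Real.rpow_def_of_pos ht]
  refine Real.exp_le_exp.2 ?_
  -- x log t ≤ x log (x/q) + q t - x
  have h1 : Real.log t = Real.log (x / q) + Real.log (q * t / x) := by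
    rw [← Real.log_mul (by positivity) (by positivity)]
    congr 1
    field_simp
  have h2 : Real.log (q * t / x) ≤ q * t / x - 1 := Real.log_le_sub_one_of_pos (by positivity)
  have h3 : Real.log (x / q) ≤ 2 * Real.sqrt (x / q) := by
    have h4 : 0 < Real.sqrt (x / q) := Real.sqrt_pos.2 (by positivity)
    have h5 : Real.log (x / q) = 2 * Real.log (Real.sqrt (x / q)) := by
      rw [Real.log_sqrt (by positivity)]; ring
    rw [h5]
    have := Real.log_le_sub_one_of_pos h4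
    linarith
  have h6 : x ^ (3 / 2 : ℝ) = x * Real.sqrt x := by
    rw [show (3 / 2 : ℝ) = 1 + 1 / 2 by norm_num, Real.rpow_add hx, Real.rpow_one, Real.sqrt_eq_rpow]
  have h7 : Real.sqrt (x / q) = Real.sqrt x / Real.sqrt q := Real.sqrt_div' x hq.le
  calc Real.log t * x = x * Real.log (x / q) + x * Real.log (q * t / x) := by rw [h1]; ring
    _ ≤ x * (2 * Real.sqrt (x / q)) + x * (q * t / x - 1) := by gcongr
    _ = 2 / Real.sqrt q * (x * Real.sqrt x) + q * t - x := by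
        rw [h7]; field_simp
        ring
    _ ≤ 2 / Real.sqrt q * x ^ (3 / 2 : ℝ) + q * t := by rw [h6]; linarith

lemma integrable_exp_mul_fm : ∃ q : ℝ, 0 < q ∧
    IntegrableOn (fun t : ℝ => Real.exp (q * t) * ‖fm t‖) (Ioi 1) := by
  obtain ⟨p, hp, hO⟩ := isBigO_atTop_evenKernel_sub 0
  refine ⟨p / 2, by positivity, ?_⟩
  have hc : ContinuousOn (fun t : ℝ => Real.exp (p / 2 * t) * (evenKernel 0 t - 1)) (Ici 1) := by
    refine ContinuousOn.mul (by fun_prop) (ContinuousOn.sub ?_ continuousOn_const)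
    exact (continuousOn_evenKernel 0).mono fun t ht => mem_Ioi.2 (lt_of_lt_of_le one_pos (mem_Ici.1 ht))
  have hO' : (fun t : ℝ => Real.exp (p / 2 * t) * (evenKernel 0 t - 1))
      =O[atTop] fun t => Real.exp (-(p / 2) * t) := by
    have h1 : (fun t : ℝ => Real.exp (p / 2 * t)) =O[atTop] fun t => Real.exp (p / 2 * t) :=
      Asymptotics.isBigO_refl _ _
    have h2 := h1.mul hO
    simp only [if_true] at h2
    refine h2.congr_right fun t => ?_
    rw [← Real.exp_add]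
    congr 1
    ring
  have hint := integrable_of_isBigO_exp_neg (half_pos hp) hc hO'
  refine hint.congr_fun (fun t ht => ?_) measurableSet_Ioi
  have ht' : (1:ℝ) < t := ht
  simp only
  rw [fm_of_one_lt ht', Complex.norm_real,
    Real.norm_of_nonneg (evenKernel_sub_one_nonneg (by linarith))]

lemma Phi_bound : ∃ K c : ℝ, 0 ≤ K ∧ 0 ≤ c ∧ ∀ x : ℝ, 1 / 4 ≤ x →
    Phi x ≤ K * Real.exp (c * x ^ (3 / 2 : ℝ)) := by
  obtain ⟨q, hq, hint⟩ := integrable_exp_mul_fm
  set K1 := ∫ t in Ioi (1:ℝ), Real.exp (q * t) * ‖fm t‖ with hK1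
  have hK1nn : 0 ≤ K1 := setIntegral_nonneg measurableSet_Ioi fun t _ => by positivity
  have hPhinn : 0 ≤ Phi (1 / 4) := setIntegral_nonneg measurableSet_Ioi fun t ht => by
    have : (0:ℝ) < t := ht
    positivity
  refine ⟨Phi (1 / 4) + K1, 2 / Real.sqrt q, by positivity, by positivity, fun x hx => ?_⟩
  have hxpos : 0 < x := by linarith
  have hsplit : Ioi (0:ℝ) = Ioc 0 1 ∪ Ioi 1 := (Ioc_union_Ioi_eq_Ioi zero_le_one).symm
  have hdisj : Disjoint (Ioc (0:ℝ) 1) (Ioi 1) := by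
    rw [Set.disjoint_left]
    intro t ht ht'
    exact absurd ht.2 (not_le.2 ht')
  have hI1 : IntegrableOn (fun t : ℝ => t ^ (x - 1) * ‖fm t‖) (Ioc 0 1) :=
    (Phi_integrable x).mono_set (fun t ht => ht.1)
  have hI2 : IntegrableOn (fun t : ℝ => t ^ (x - 1) * ‖fm t‖) (Ioi 1) :=
    (Phi_integrable x).mono_set (fun t ht => mem_Ioi.2 (lt_trans one_pos (mem_Ioi.1 ht)))
  have e1 : Phi x = (∫ t in Ioc (0:ℝ) 1, t ^ (x - 1) * ‖fm t‖)
      + ∫ t in Ioi (1:ℝ), t ^ (x - 1) * ‖fm t‖ := by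
    rw [Phi, hsplit, setIntegral_union hdisj measurableSet_Ioi hI1 hI2]
  have e2 : (∫ t in Ioc (0:ℝ) 1, t ^ (x - 1) * ‖fm t‖) ≤ Phi (1 / 4) := by
    have hI3 : IntegrableOn (fun t : ℝ => t ^ ((1 / 4 : ℝ) - 1) * ‖fm t‖) (Ioc 0 1) :=
      (Phi_integrable (1 / 4)).mono_set (fun t ht => ht.1)
    calc (∫ t in Ioc (0:ℝ) 1, t ^ (x - 1) * ‖fm t‖)
        ≤ ∫ t in Ioc (0:ℝ) 1, t ^ ((1 / 4 : ℝ) - 1) * ‖fm t‖ := by
          refine setIntegral_mono_on hI1 hI3 measurableSet_Ioc fun t ht => ?_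
          have := Real.rpow_le_rpow_of_exponent_ge ht.1 ht.2 (by linarith : (1 / 4 : ℝ) - 1 ≤ x - 1)
          gcongr
      _ ≤ Phi (1 / 4) := by
          rw [Phi]
          refine setIntegral_mono_set (Phi_integrable (1 / 4)) ?_
            (LE.le.eventuallyLE (fun t ht => ht.1))
          filter_upwards [ae_restrict_mem measurableSet_Ioi] with t ht
          have : (0:ℝ) < t := ht
          simp only [Pi.zero_apply]
          positivity
  have e3 : (∫ t in Ioi (1:ℝ), t ^ (x - 1) * ‖fm t‖)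
      ≤ K1 * Real.exp (2 / Real.sqrt q * x ^ (3 / 2 : ℝ)) := by
    rw [hK1, ← integral_mul_const]
    refine setIntegral_mono_on hI2 (hint.mul_const _) measurableSet_Ioi fun t ht => ?_
    have ht1 : (1:ℝ) < t := ht
    have ht0 : (0:ℝ) < t := by linarith
    have h1 : t ^ (x - 1) ≤ t ^ x := Real.rpow_le_rpow_of_exponent_le ht1.le (by linarith)
    have h2 := rpow_le_exp hxpos hq ht0
    calc t ^ (x - 1) * ‖fm t‖
        ≤ (Real.exp (2 / Real.sqrt q * x ^ (3 / 2 : ℝ)) * Real.exp (q * t)) * ‖fm t‖ := by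
          gcongr
          exact h1.trans h2
      _ = _ := by ring
  have e4 : 1 ≤ Real.exp (2 / Real.sqrt q * x ^ (3 / 2 : ℝ)) := Real.one_le_exp (by positivity)
  calc Phi x ≤ Phi (1 / 4) + K1 * Real.exp (2 / Real.sqrt q * x ^ (3 / 2 : ℝ)) := by
        rw [e1]; linarith
    _ ≤ (Phi (1 / 4) + K1) * Real.exp (2 / Real.sqrt q * x ^ (3 / 2 : ℝ)) := by
        nlinarith

/-- The (negative of twice the) Riemann xi function, centred at the critical point. -/
noncomputable def xi0 (w : ℂ) : ℂ :=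
  (1 / 2 + w) * (1 / 2 - w) * completedRiemannZeta₀ (1 / 2 + w) - 1

lemma xi0_differentiable : Differentiable ℂ xi0 := by
  have h := differentiable_completedZeta₀
  unfold xi0
  fun_prop

lemma xi0_even (w : ℂ) : xi0 (-w) = xi0 w := by
  have h := completedRiemannZeta₀_one_sub (1 / 2 + w)
  have e : (1:ℂ) - (1 / 2 + w) = 1 / 2 + -w := by ring
  rw [e] at h
  unfold xi0
  rw [h]
  ring

lemma xi0_zero_ne : xi0 0 ≠ 0 := by
  intro h
  have h1 : completedRiemannZeta₀ (1 / 2) = 4 := by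
    unfold xi0 at h
    simp only [add_zero, sub_zero] at h
    linear_combination 4 * h
  have h2 := norm_completed_half
  rw [h1] at h2
  simp at h2

lemma xi0_growth : ∃ A : ℝ, 0 ≤ A ∧ ∀ w, ‖xi0 w‖ ≤ Real.exp (A * (1 + ‖w‖) ^ (3 / 2 : ℝ)) := by
  obtain ⟨K, c, hK, hc, hb⟩ := Phi_bound
  refine ⟨c + 2 + Real.log (K + 1), by
    have : 0 ≤ Real.log (K + 1) := Real.log_nonneg (by linarith)
    positivity, ?_⟩
  -- reduce to Re w ≥ 0
  have main : ∀ w : ℂ, 0 ≤ w.re →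
      ‖xi0 w‖ ≤ Real.exp ((c + 2 + Real.log (K + 1)) * (1 + ‖w‖) ^ (3 / 2 : ℝ)) := by
    intro w hw
    set y := 1 + ‖w‖ with hy
    have hy1 : 1 ≤ y := by rw [hy]; linarith [norm_nonneg w]
    have hyp : 1 ≤ y ^ (3 / 2 : ℝ) := Real.one_le_rpow hy1 (by norm_num)
    have hyy : y ≤ y ^ (3 / 2 : ℝ) := by
      nth_rw 1 [← Real.rpow_one y]
      exact Real.rpow_le_rpow_of_exponent_le hy1 (by norm_num)
    have hs : ((1 / 2 + w) / 2 : ℂ).re = (1 / 2 + w.re) / 2 := by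
      simp
    have hx : 1 / 4 ≤ ((1 / 2 + w) / 2 : ℂ).re := by rw [hs]; linarith
    have hx2 : ((1 / 2 + w) / 2 : ℂ).re ≤ y := by
      rw [hs]
      have := re_le_norm w
      linarith [norm_nonneg w]
    have h1 : ‖completedRiemannZeta₀ (1 / 2 + w)‖ ≤ K * Real.exp (c * y ^ (3 / 2 : ℝ)) := by
      rw [completed_eq, norm_div]
      have h2 := norm_mellin_le ((1 / 2 + w) / 2)
      have h3 := hb _ hx
      have h4 : Real.exp (c * ((1 / 2 + w) / 2 : ℂ).re ^ (3 / 2 : ℝ)) ≤ Real.exp (c * y ^ (3 / 2 : ℝ)) := by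
        refine Real.exp_le_exp.2 ?_
        have : ((1 / 2 + w) / 2 : ℂ).re ^ (3 / 2 : ℝ) ≤ y ^ (3 / 2 : ℝ) :=
          Real.rpow_le_rpow (by linarith) hx2 (by norm_num)
        gcongr
      have h5 : ‖(2:ℂ)‖ = 2 := by simp
      rw [h5]
      have h6 : ‖mellin fm ((1 / 2 + w) / 2)‖ ≤ K * Real.exp (c * y ^ (3 / 2 : ℝ)) :=
        h2.trans (h3.trans (by gcongr))
      have h7 : 0 ≤ ‖mellin fm ((1 / 2 + w) / 2)‖ := norm_nonneg _
      linarith
    have h2 : ‖(1 / 2 + w) * (1 / 2 - w)‖ ≤ Real.exp (2 * y ^ (3 / 2 : ℝ)) := by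
      rw [norm_mul]
      have e1 : ‖(1 / 2 + w : ℂ)‖ ≤ y := by
        refine (norm_add_le _ _).trans ?_
        have : ‖(1 / 2 : ℂ)‖ = 1 / 2 := by simp
        rw [this]; linarith
      have e2 : ‖(1 / 2 - w : ℂ)‖ ≤ y := by
        refine (norm_sub_le _ _).trans ?_
        have : ‖(1 / 2 : ℂ)‖ = 1 / 2 := by simp
        rw [this]; linarith
      have e3 : y ≤ Real.exp (y ^ (3 / 2 : ℝ)) := by
        have := Real.add_one_le_exp (y ^ (3 / 2 : ℝ))
        linarith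
      calc ‖(1 / 2 + w : ℂ)‖ * ‖(1 / 2 - w : ℂ)‖
          ≤ Real.exp (y ^ (3 / 2 : ℝ)) * Real.exp (y ^ (3 / 2 : ℝ)) :=
            mul_le_mul (e1.trans e3) (e2.trans e3) (norm_nonneg _) (Real.exp_pos _).le
        _ = Real.exp (2 * y ^ (3 / 2 : ℝ)) := by rw [← Real.exp_add]; congr 1; ring
    have h3 : ‖xi0 w‖ ≤ Real.exp (2 * y ^ (3 / 2 : ℝ)) * (K * Real.exp (c * y ^ (3 / 2 : ℝ))) + 1 := by
      unfold xi0
      refine (norm_sub_le _ _).trans ?_
      rw [norm_one, norm_mul]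
      gcongr
    have h4 : 1 ≤ Real.exp ((c + 2) * y ^ (3 / 2 : ℝ)) := Real.one_le_exp (by positivity)
    have h5 : Real.exp (2 * y ^ (3 / 2 : ℝ)) * (K * Real.exp (c * y ^ (3 / 2 : ℝ)))
        = K * Real.exp ((c + 2) * y ^ (3 / 2 : ℝ)) := by
      have : (c + 2) * y ^ (3 / 2 : ℝ) = 2 * y ^ (3 / 2 : ℝ) + c * y ^ (3 / 2 : ℝ) := by ring
      rw [this, Real.exp_add]
      ring
    have h6 : K + 1 ≤ Real.exp (Real.log (K + 1) * y ^ (3 / 2 : ℝ)) := by
      have h7 : Real.exp (Real.log (K + 1)) = K + 1 := Real.exp_log (by linarith)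
      nth_rw 1 [← h7]
      refine Real.exp_le_exp.2 ?_
      have : 0 ≤ Real.log (K + 1) := Real.log_nonneg (by linarith)
      nlinarith
    calc ‖xi0 w‖ ≤ K * Real.exp ((c + 2) * y ^ (3 / 2 : ℝ)) + 1 := by rw [← h5]; exact h3
      _ ≤ (K + 1) * Real.exp ((c + 2) * y ^ (3 / 2 : ℝ)) := by nlinarith
      _ ≤ Real.exp (Real.log (K + 1) * y ^ (3 / 2 : ℝ)) * Real.exp ((c + 2) * y ^ (3 / 2 : ℝ)) := by
          gcongr
      _ = _ := by rw [← Real.exp_add]; congr 1; ring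
  intro w
  rcases le_total 0 w.re with h | h
  · exact main w h
  · have := main (-w) (by simpa using h)
    rwa [xi0_even, norm_neg] at this

end Pool.Agent.H5
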