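import Mathlib

open Complex Filter Topology Metric Set

namespace Pool.Agent.H5

/-- Global division of an entire function by `(z - ρ)^m`, `m` the order at `ρ`. -/
lemma exists_entire_div_pow {f : ℂ → ℂ} (hf : Differentiable ℂ f) (ρ : ℂ)
    (h : analyticOrderAt f ρ ≠ ⊤) :
    ∃ g : ℂ → ℂ, Differentiable ℂ g ∧ g ρ ≠ 0 ∧
      ∀ z, f z = (z - ρ) ^ analyticOrderNatAt f ρ * g z := by
  have hfa : AnalyticAt ℂ f ρ := hf.analyticAt ρ
  obtain ⟨g₀, hg₀, hg₀ne, hfg⟩ := (hfa.analyticOrderAt_ne_top).1 h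
  set n := analyticOrderNatAt f ρ with hn
  let g : ℂ → ℂ := Function.update (fun z => f z / (z - ρ) ^ n) ρ (g₀ ρ)
  have hgne : ∀ z, z ≠ ρ → g z = f z / (z - ρ) ^ n := fun z hz => by
    simp [g, Function.update_of_ne hz]
  have hgρ : g ρ = g₀ ρ := by simp [g]
  have heq : g =ᶠ[𝓝 ρ] g₀ := by
    filter_upwards [hfg] with z hz
    by_cases h1 : z = ρ
    · rw [h1, hgρ]
    · rw [hgne z h1, hz]
      have : (z - ρ) ^ n ≠ 0 := pow_ne_zero _ (sub_ne_zero.2 h1)
      simp only [smul_eq_mul]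
      field_simp
  refine ⟨g, ?_, by rw [hgρ]; exact hg₀ne, ?_⟩
  · intro z
    by_cases h1 : z = ρ
    · rw [h1]
      exact (hg₀.congr heq.symm).differentiableAt
    · have h2 : g =ᶠ[𝓝 z] fun z => f z / (z - ρ) ^ n := by
        filter_upwards [isOpen_ne.mem_nhds h1] with w hw
        exact hgne w hw
      refine DifferentiableAt.congr_of_eventuallyEq ?_ h2
      refine (hf z).div (by fun_prop) (pow_ne_zero _ (sub_ne_zero.2 h1))
  · intro z
    by_cases h1 : z = ρ
    · rw [h1, hgρ]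
      have := hfg.self_of_nhds
      simpa using this
    · rw [hgne z h1]
      have : (z - ρ) ^ n ≠ 0 := pow_ne_zero _ (sub_ne_zero.2 h1)
      field_simp

/-- Normalised version: if `ρ ≠ 0`. -/
lemma exists_entire_div_one_sub_pow {f : ℂ → ℂ} (hf : Differentiable ℂ f) (ρ : ℂ) (hρ : ρ ≠ 0)
    (h : analyticOrderAt f ρ ≠ ⊤) :
    ∃ g : ℂ → ℂ, Differentiable ℂ g ∧ g ρ ≠ 0 ∧
      ∀ z, f z = (1 - z / ρ) ^ analyticOrderNatAt f ρ * g z := by
  obtain ⟨g, hg, hgρ, hfg⟩ := exists_entire_div_pow hf ρ h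
  refine ⟨fun z => (-ρ) ^ analyticOrderNatAt f ρ * g z, by fun_prop,
    mul_ne_zero (pow_ne_zero _ (neg_ne_zero.2 hρ)) hgρ, fun z => ?_⟩
  rw [hfg z, ← mul_assoc, ← mul_pow]
  congr 2
  field_simp
  ring

/-- Factor out finitely many zeros of an entire function. -/
lemma exists_entire_factor {f : ℂ → ℂ} (hf : Differentiable ℂ f) (hf0 : f 0 ≠ 0)
    (S : Finset ℂ) (hS : ∀ ρ ∈ S, ρ ≠ 0) :
    ∃ g : ℂ → ℂ, Differentiable ℂ g ∧ (∀ ρ ∈ S, g ρ ≠ 0) ∧
      ∀ z, f z = (∏ ρ ∈ S, (1 - z / ρ) ^ analyticOrderNatAt f ρ) * g z := by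
  classical
  have hfa : AnalyticOnNhd ℂ f univ := fun z _ => hf.analyticAt z
  have hne : ∀ z, analyticOrderAt f z ≠ ⊤ := by
    intro z hz
    rw [analyticOrderAt_eq_top] at hz
    have := hfa.eq_of_eventuallyEq (g := fun _ => (0:ℂ)) analyticOnNhd_const (z₀ := z) hz
    exact hf0 (by rw [this])
  induction S using Finset.induction_on with
  | empty => exact ⟨f, hf, by simp, by simp⟩
  | insert ρ S hρS ih =>
    obtain ⟨g, hg, hgS, hfg⟩ := ih (fun σ hσ => hS σ (Finset.mem_insert_of_mem hσ))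
    have hρ0 : ρ ≠ 0 := hS ρ (Finset.mem_insert_self _ _)
    let P : ℂ → ℂ := fun z => ∏ ρ ∈ S, (1 - z / ρ) ^ analyticOrderNatAt f ρ
    have hP : Differentiable ℂ P := by
      intro z
      simp only [P]
      fun_prop
    have hPρ : P ρ ≠ 0 := by
      simp only [P]
      refine Finset.prod_ne_zero_iff.2 fun σ hσ => pow_ne_zero _ ?_
      have hσ0 : σ ≠ 0 := hS σ (Finset.mem_insert_of_mem hσ)
      intro h
      have : ρ / σ = 1 := by linear_combination -h
      rw [div_eq_one_iff_eq hσ0] at this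
      exact hρS (this ▸ hσ)
    have hfPg : f = P * g := by
      funext z
      simp only [Pi.mul_apply, P]
      exact hfg z
    have hord : analyticOrderAt f ρ = analyticOrderAt g ρ := by
      rw [hfPg, analyticOrderAt_mul (hP.analyticAt ρ) (hg.analyticAt ρ),
        ((hP.analyticAt ρ).analyticOrderAt_eq_zero).2 hPρ, zero_add]
    have hordN : analyticOrderNatAt f ρ = analyticOrderNatAt g ρ := by
      simp only [analyticOrderNatAt, hord]
    obtain ⟨g', hg', hg'ρ, hgg'⟩ := exists_entire_div_one_sub_pow hg ρ hρ0 (hord ▸ hne ρ)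
    refine ⟨g', hg', ?_, ?_⟩
    · intro σ hσ
      rcases Finset.mem_insert.1 hσ with rfl | hσ
      · exact hg'ρ
      · intro h0
        apply hgS σ hσ
        rw [hgg' σ, h0, mul_zero]
    · intro z
      rw [Finset.prod_insert hρS, hfg z, hgg' z, hordN]
      ring

end Pool.Agent.H5
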