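import Mathlib
import Pool.Agent.H5.Factor

open Complex Filter Topology Metric Set

namespace Pool.Agent.H5

/-- Local factorisation on a disc with a Borel-Caratheodory bound. -/
lemma exists_log_cofactor {f : ℂ → ℂ} (hf : Differentiable ℂ f) (hf0 : f 0 ≠ 0)
    {R B : ℝ} (hR : 0 < R) (hB : 0 ≤ B)
    (hbd : ∀ z, ‖z‖ = 2 * R → ‖f z‖ ≤ Real.exp B)
    (S : Finset ℂ) (hS : ∀ ρ, ρ ∈ S ↔ (‖ρ‖ ≤ R ∧ f ρ = 0)) :
    ∃ h : ℂ → ℂ, DifferentiableOn ℂ h (ball 0 R) ∧ h 0 = 0 ∧
      (∀ z ∈ ball (0:ℂ) R, ‖h z‖ ≤ 2 * (B + |Real.log ‖f 0‖| + 1) * ‖z‖ / (R - ‖z‖)) ∧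
      (∀ z ∈ ball (0:ℂ) R, f z ≠ 0 →
        logDeriv f z = deriv h z + ∑ ρ ∈ S, (analyticOrderNatAt f ρ : ℂ) / (z - ρ)) := by
  have hS0 : ∀ ρ ∈ S, ρ ≠ 0 := by
    intro ρ hρ h0
    rw [h0] at hρ
    exact hf0 ((hS 0).1 hρ).2
  obtain ⟨g, hg, hgS, hfg⟩ := exists_entire_factor hf hf0 S hS0
  set P : ℂ → ℂ := fun z => ∏ ρ ∈ S, (1 - z / ρ) ^ analyticOrderNatAt f ρ with hPdef
  have hPd : Differentiable ℂ P := by
    intro z
    simp only [P]
    fun_prop
  have hP0 : P 0 = 1 := by simp [P]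
  have hg0 : g 0 = f 0 := by
    have := hfg 0
    rw [show (∏ ρ ∈ S, (1 - (0:ℂ) / ρ) ^ analyticOrderNatAt f ρ) = 1 by simp] at this
    rw [this, one_mul]
  -- g has no zeros in the closed ball
  have hgne : ∀ z, ‖z‖ ≤ R → g z ≠ 0 := by
    intro z hz h0
    have hfz : f z = 0 := by rw [hfg z, h0, mul_zero]
    exact hgS z ((hS z).2 ⟨hz, hfz⟩) h0
  -- lower bound of P on the circle of radius 2R
  have hPlow : ∀ z, ‖z‖ = 2 * R → 1 ≤ ‖P z‖ := by
    intro z hz
    simp only [P, norm_prod, norm_pow]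
    have key : ∀ ρ ∈ S, (1:ℝ) ≤ ‖1 - z / ρ‖ ^ analyticOrderNatAt f ρ := by
      intro ρ hρ
      refine one_le_pow₀ ?_
      have hρR : ‖ρ‖ ≤ R := ((hS ρ).1 hρ).1
      have hρ0 : 0 < ‖ρ‖ := norm_pos_iff.2 (hS0 ρ hρ)
      have h1 : 2 ≤ ‖z / ρ‖ := by
        rw [norm_div, le_div_iff₀ hρ0, hz]
        linarith
      calc (1:ℝ) = 2 - 1 := by norm_num
        _ ≤ ‖z / ρ‖ - ‖(1:ℂ)‖ := by rw [norm_one]; linarith
        _ ≤ ‖z / ρ - 1‖ := norm_sub_norm_le _ _
        _ = ‖1 - z / ρ‖ := norm_sub_rev _ _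
    calc (1:ℝ) = ∏ ρ ∈ S, (1:ℝ) := by simp
      _ ≤ _ := Finset.prod_le_prod (fun _ _ => zero_le_one) key
  have hgbd : ∀ z, ‖z‖ = 2 * R → ‖g z‖ ≤ Real.exp B := by
    intro z hz
    have h1 := hbd z hz
    rw [hfg z, norm_mul] at h1
    have h2 := hPlow z hz
    calc ‖g z‖ ≤ ‖P z‖ * ‖g z‖ := by nlinarith [norm_nonneg (g z)]
      _ ≤ _ := h1
  have hgbd' : ∀ z, ‖z‖ ≤ 2 * R → ‖g z‖ ≤ Real.exp B := by
    intro z hz
    have hcl : z ∈ closure (ball (0:ℂ) (2 * R)) := by
      rw [closure_ball _ (by positivity)]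
      simpa using hz
    refine norm_le_of_forall_mem_frontier_norm_le isBounded_ball
      (hg.diffContOnCl) (fun w hw => hgbd w ?_) hcl
    rw [frontier_ball _ (by positivity)] at hw
    simpa using hw
  -- primitive of g'/g
  have hlog : DifferentiableOn ℂ (logDeriv g) (ball 0 R) := by
    intro z hz
    have hz' : ‖z‖ < R := by simpa using hz
    have : DifferentiableAt ℂ (fun z => deriv g z / g z) z :=
      ((hg.analyticAt z).deriv.differentiableAt).div (hg z) (hgne z hz'.le)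
    exact this.differentiableWithinAt
  obtain ⟨h, hh0, hh⟩ := hlog.isExactOn_ball.with_val_at 0 0
  have hhd : DifferentiableOn ℂ h (ball 0 R) := fun z hz => (hh z hz).differentiableAt.differentiableWithinAt
  -- exp h * g 0 = g
  have hexp : ∀ z ∈ ball (0:ℂ) R, g z = g 0 * exp (h z) := by
    have hk : ∀ z ∈ ball (0:ℂ) R, HasDerivAt (fun z => g z * exp (-h z)) 0 z := by
      intro z hz
      have hz' : ‖z‖ < R := by simpa using hz
      have h1 := (hg z).hasDerivAt.mul ((hh z hz).neg.cexp)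
      refine h1.congr_deriv ?_
      have : g z ≠ 0 := hgne z hz'.le
      simp only [logDeriv_apply]
      field_simp
      ring
    have hfd : ∀ z ∈ ball (0:ℂ) R, fderivWithin ℂ (fun z => g z * exp (-h z)) (ball 0 R) z = 0 := by
      intro z hz
      rw [fderivWithin_of_isOpen isOpen_ball hz]
      have := (hk z hz).hasFDerivAt.fderiv
      rw [this]
      ext
      simp
    have hdiff : DifferentiableOn ℂ (fun z => g z * exp (-h z)) (ball 0 R) :=
      fun z hz => (hk z hz).differentiableAt.differentiableWithinAt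
    intro z hz
    have h1 := (convex_ball (0:ℂ) R).is_const_of_fderivWithin_eq_zero hdiff hfd hz (mem_ball_self hR)
    simp only [hh0, neg_zero, exp_zero, mul_one] at h1
    rw [← h1, mul_assoc, ← exp_add]
    simp
  have hMpos : 0 < B + |Real.log ‖f 0‖| + 1 := by positivity
  have hre : MapsTo h (ball 0 R) {z | z.re ≤ B + |Real.log ‖f 0‖| + 1} := by
    intro z hz
    have hz' : ‖z‖ < R := by simpa using hz
    have h1 := hexp z hz
    have h2 : ‖g z‖ = ‖g 0‖ * Real.exp (h z).re := by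
      rw [h1, norm_mul, norm_exp]
    have hgpos : 0 < ‖g 0‖ := norm_pos_iff.2 (by rw [hg0]; exact hf0)
    have h3 : ‖g z‖ ≤ Real.exp B := hgbd' z (by linarith)
    have h4 : Real.exp (h z).re ≤ Real.exp (B - Real.log ‖g 0‖) := by
      rw [Real.exp_sub, Real.exp_log hgpos, le_div_iff₀ hgpos]
      linarith [h2, mul_comm ‖g 0‖ (Real.exp (h z).re)]
    have h5 := Real.exp_le_exp.1 h4
    have h6 : -Real.log ‖g 0‖ ≤ |Real.log ‖f 0‖| := by
      rw [hg0]; exact neg_le_abs _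
    simp only [Set.mem_ofPred_eq]
    linarith
  refine ⟨h, hhd, hh0, ?_, ?_⟩
  · intro z hz
    exact borelCaratheodory_zero hMpos hhd hre hR hz hh0
  · intro z hz hfz
    have hPz : P z ≠ 0 := by
      intro h0
      apply hfz
      rw [hfg z]
      have : (∏ ρ ∈ S, (1 - z / ρ) ^ analyticOrderNatAt f ρ) = 0 := h0
      rw [this, zero_mul]
    have hgz : g z ≠ 0 := by
      intro h0
      apply hfz
      rw [hfg z, h0, mul_zero]
    have hfPg : f = fun z => P z * g z := funext hfg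
    have h1 : logDeriv f z = logDeriv P z + logDeriv g z := by
      conv_lhs => rw [hfPg]
      exact logDeriv_mul z hPz hgz (hPd z) (hg z)
    have h2 : deriv h z = logDeriv g z := (hh z hz).deriv
    rw [h1, h2, add_comm]
    congr 1
    have hfac : ∀ ρ ∈ S, (1 - z / ρ) ^ analyticOrderNatAt f ρ ≠ 0 := by
      intro ρ hρ
      exact Finset.prod_ne_zero_iff.1 hPz ρ hρ
    have h3 : logDeriv P z = ∑ ρ ∈ S, logDeriv (fun z => (1 - z / ρ) ^ analyticOrderNatAt f ρ) z := by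
      have := logDeriv_prod (s := S) (f := fun ρ z => (1 - z / ρ) ^ analyticOrderNatAt f ρ) (x := z)
        (fun i hi => hfac i hi) (fun i hi => by fun_prop)
      rw [← this]
    rw [h3]
    refine Finset.sum_congr rfl fun ρ hρ => ?_
    rw [logDeriv_fun_pow (by fun_prop)]
    have hρ0 : ρ ≠ 0 := hS0 ρ hρ
    have h4 : deriv (fun z : ℂ => 1 - z / ρ) z = -(1 / ρ) := by
      have : HasDerivAt (fun z : ℂ => 1 - z / ρ) (-(1 / ρ)) z :=
        ((hasDerivAt_id z).div_const ρ).const_sub 1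
      exact this.deriv
    rw [logDeriv_apply, h4]
    by_cases hzρ : z = ρ
    · exfalso
      apply hfz
      rw [hzρ]
      exact ((hS ρ).1 hρ).2
    · have hzρ' : z - ρ ≠ 0 := sub_ne_zero.2 hzρ
      have : 1 - z / ρ ≠ 0 := by
        intro h0
        apply hzρ
        field_simp at h0
        linear_combination -h0
      have h7 : 1 - z / ρ = -(z - ρ) / ρ := by field_simp; ring
      rw [h7]
      field_simp

end Pool.Agent.H5
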