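import Mathlib
import Pool.Agent.H5.Core

open Complex Filter Topology Metric Set

namespace Pool.Agent.H5

/-- zeros of an entire function in a closed ball are finite. -/
lemma finite_zeros_ball {f : ℂ → ℂ} (hf : Differentiable ℂ f) (hf0 : f 0 ≠ 0) (R : ℝ) :
    {ρ : ℂ | ‖ρ‖ ≤ R ∧ f ρ = 0}.Finite := by
  have hfa : AnalyticOnNhd ℂ f univ := fun z _ => hf.analyticAt z
  have h1 : (f ⁻¹' {0})ᶜ ∈ codiscrete ℂ := hfa.preimage_zero_mem_codiscrete (x := 0) hf0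
  have h2 := mem_codiscrete'.1 h1
  have h3 : IsClosed (f ⁻¹' {0}) := by simpa using h2.1
  have h4 : IsDiscrete (f ⁻¹' {0}) := by simpa using h2.2
  have h5 : (closedBall (0:ℂ) R ∩ f ⁻¹' {0}).Finite :=
    ((isCompact_closedBall (0:ℂ) R).inter_right h3).finite (h4.mono Set.inter_subset_right)
  refine h5.subset fun z hz => ?_
  simp only [Set.mem_inter_iff, mem_closedBall, dist_zero_right, Set.mem_preimage,
    Set.mem_singleton_iff]
  exact hz

lemma deriv_sub_le_of_bound {h : ℂ → ℂ} {R M : ℝ} (hR : 0 < R) (hM : 0 ≤ M)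
    (hd : DifferentiableOn ℂ h (ball 0 R))
    (hb : ∀ z ∈ ball (0:ℂ) R, ‖h z‖ ≤ 2 * M * ‖z‖ / (R - ‖z‖))
    {w : ℂ} (hw : ‖w‖ ≤ R / 8) :
    ‖deriv h w - deriv h 0‖ ≤ 64 * M / R ^ 2 * ‖w‖ := by
  have hA : ∀ z, ‖z‖ ≤ R / 2 → ‖h z‖ ≤ 2 * M := by
    intro z hz
    have hz' : z ∈ ball (0:ℂ) R := by
      simp only [mem_ball, dist_zero_right]; linarith
    refine (hb z hz').trans ?_
    rw [div_le_iff₀ (by linarith)]
    nlinarith [norm_nonneg z]
  have hB : ∀ z, ‖z‖ ≤ R / 4 → ‖deriv h z‖ ≤ 8 * M / R := by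
    intro z hz
    have hsub : closedBall z (R / 4) ⊆ closedBall (0:ℂ) (R / 2) := by
      intro u hu
      simp only [mem_closedBall, dist_zero_right] at hu ⊢
      rw [dist_eq_norm] at hu
      calc ‖u‖ = ‖(u - z) + z‖ := by ring_nf
        _ ≤ ‖u - z‖ + ‖z‖ := norm_add_le _ _
        _ ≤ R / 2 := by linarith
    have hsub2 : closedBall z (R / 4) ⊆ ball (0:ℂ) R :=
      hsub.trans (closedBall_subset_ball (by linarith))
    have h1 : DiffContOnCl ℂ h (ball z (R / 4)) :=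
      (hd.mono hsub2).diffContOnCl_ball Subset.rfl
    have h2 := norm_deriv_le_of_forall_mem_sphere_norm_le (by positivity) h1
      (C := 2 * M) (fun u hu => hA u (by
        have := hsub (sphere_subset_closedBall hu)
        simpa using this))
    refine h2.trans (le_of_eq ?_)
    field_simp
    ring
  have hd2 : DifferentiableOn ℂ (deriv h) (ball 0 R) := hd.deriv isOpen_ball
  have hC : ∀ z, ‖z‖ ≤ R / 8 → ‖deriv (deriv h) z‖ ≤ 64 * M / R ^ 2 := by
    intro z hz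
    have hsub : closedBall z (R / 8) ⊆ closedBall (0:ℂ) (R / 4) := by
      intro u hu
      simp only [mem_closedBall, dist_zero_right] at hu ⊢
      rw [dist_eq_norm] at hu
      calc ‖u‖ = ‖(u - z) + z‖ := by ring_nf
        _ ≤ ‖u - z‖ + ‖z‖ := norm_add_le _ _
        _ ≤ R / 4 := by linarith
    have hsub2 : closedBall z (R / 8) ⊆ ball (0:ℂ) R :=
      hsub.trans (closedBall_subset_ball (by linarith))
    have h1 : DiffContOnCl ℂ (deriv h) (ball z (R / 8)) :=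
      (hd2.mono hsub2).diffContOnCl_ball Subset.rfl
    have h2 := norm_deriv_le_of_forall_mem_sphere_norm_le (by positivity) h1
      (C := 8 * M / R) (fun u hu => hB u (by
        have := hsub (sphere_subset_closedBall hu)
        simpa using this))
    refine h2.trans (le_of_eq ?_)
    field_simp
    ring
  have hconv : Convex ℝ (closedBall (0:ℂ) (R / 8)) := convex_closedBall _ _
  have := hconv.norm_image_sub_le_of_norm_deriv_le (f := deriv h) (C := 64 * M / R ^ 2)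
    (x := 0) (y := w) (fun z hz => by
      have hz' : z ∈ ball (0:ℂ) R := closedBall_subset_ball (by linarith) hz
      exact (hd2 z hz').differentiableAt (isOpen_ball.mem_nhds hz'))
    (fun z hz => hC z (by simpa using hz)) (by simp; positivity) (by simpa using hw)
  simpa using this

/-- The finite set of zeros of norm at most `R`. -/
noncomputable def zerosFinset (f : ℂ → ℂ) (R : ℝ) : Finset ℂ :=
  haveI := Classical.propDecidable
  if h : {ρ : ℂ | ‖ρ‖ ≤ R ∧ f ρ = 0}.Finite then h.toFinset else ∅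

lemma mem_zerosFinset {f : ℂ → ℂ} (hf : Differentiable ℂ f) (hf0 : f 0 ≠ 0) (R : ℝ) (ρ : ℂ) :
    ρ ∈ zerosFinset f R ↔ ‖ρ‖ ≤ R ∧ f ρ = 0 := by
  have := finite_zeros_ball hf hf0 R
  unfold zerosFinset
  rw [dif_pos this]
  simp

/-- Hadamard-type partial fractions along balls for functions of order less than `2`. -/
theorem tendsto_sum_logDeriv {f : ℂ → ℂ} (hf : Differentiable ℂ f) (hf0 : f 0 ≠ 0)
    {A : ℝ} (hA : 0 ≤ A) (hgr : ∀ z, ‖f z‖ ≤ Real.exp (A * (1 + ‖z‖) ^ (3 / 2 : ℝ)))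
    {w : ℂ} (hw : f w ≠ 0) :
    Tendsto (fun n : ℕ => ∑ ρ ∈ zerosFinset f n,
      (analyticOrderNatAt f ρ : ℂ) * (1 / (w - ρ) + 1 / ρ)) atTop
      (𝓝 (logDeriv f w - logDeriv f 0)) := by
  set K : ℝ := |Real.log ‖f 0‖| + 1 with hK
  -- the error bound
  have hmain : ∀ᶠ n : ℕ in atTop,
      ‖(logDeriv f w - logDeriv f 0) - ∑ ρ ∈ zerosFinset f n,
        (analyticOrderNatAt f ρ : ℂ) * (1 / (w - ρ) + 1 / ρ)‖ ≤
        64 * (A * (1 + 2 * (n:ℝ)) ^ (3 / 2 : ℝ) + K) / (n:ℝ) ^ 2 * ‖w‖ := by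
    have hev : ∀ᶠ n : ℕ in atTop, (8 * ‖w‖ + 1 : ℝ) ≤ n :=
      tendsto_natCast_atTop_atTop.eventually_ge_atTop _
    filter_upwards [hev] with n hn
    have hnpos : (0:ℝ) < n := by
      have := norm_nonneg w
      linarith
    have hwn : ‖w‖ ≤ (n:ℝ) / 8 := by linarith
    have hwball : w ∈ ball (0:ℂ) n := by
      simp only [mem_ball, dist_zero_right]
      linarith [norm_nonneg w]
    have hB : 0 ≤ A * (1 + 2 * (n:ℝ)) ^ (3 / 2 : ℝ) := by positivity
    obtain ⟨h, hd, hh0, hb, hl⟩ := exists_log_cofactor hf hf0 hnpos hB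
      (fun z hz => by
        have := hgr z
        rwa [hz] at this) (zerosFinset f n) (fun ρ => mem_zerosFinset hf hf0 n ρ)
    have e1 := hl w hwball hw
    have e2 := hl 0 (mem_ball_self hnpos) hf0
    have hb' : ∀ z ∈ ball (0:ℂ) n, ‖h z‖ ≤
        2 * (A * (1 + 2 * (n:ℝ)) ^ (3 / 2 : ℝ) + K) * ‖z‖ / (n - ‖z‖) := by
      intro z hz
      have := hb z hz
      rw [hK, ← add_assoc]
      exact this
    have e3 := deriv_sub_le_of_bound hnpos (by positivity) hd hb' hwn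
    refine le_of_eq_of_le ?_ e3
    congr 1
    rw [e1, e2]
    have : ∑ ρ ∈ zerosFinset f n, (analyticOrderNatAt f ρ : ℂ) * (1 / (w - ρ) + 1 / ρ)
        = ∑ ρ ∈ zerosFinset f n, (analyticOrderNatAt f ρ : ℂ) / (w - ρ)
          - ∑ ρ ∈ zerosFinset f n, (analyticOrderNatAt f ρ : ℂ) / (0 - ρ) := by
      rw [← Finset.sum_sub_distrib]
      refine Finset.sum_congr rfl fun ρ _ => ?_
      rw [zero_sub, div_neg]
      ring
    rw [this]
    ring
  have hlim : Tendsto (fun n : ℕ =>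
      64 * (A * (1 + 2 * (n:ℝ)) ^ (3 / 2 : ℝ) + K) / (n:ℝ) ^ 2 * ‖w‖) atTop (𝓝 0) := by
    have h1 : Tendsto (fun n : ℕ => (n:ℝ) ^ (-(1 / 2) : ℝ)) atTop (𝓝 0) :=
      (tendsto_rpow_neg_atTop (by norm_num)).comp tendsto_natCast_atTop_atTop
    have h2 : Tendsto (fun n : ℕ => ((n:ℝ) ^ 2)⁻¹) atTop (𝓝 0) := by
      have : Tendsto (fun x : ℝ => (x ^ 2)⁻¹) atTop (𝓝 0) :=
        (tendsto_pow_atTop (by norm_num)).inv_tendsto_atTop
      exact this.comp tendsto_natCast_atTop_atTop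
    have h3 : Tendsto (fun n : ℕ =>
        64 * ‖w‖ * A * 3 ^ (3 / 2 : ℝ) * (n:ℝ) ^ (-(1 / 2) : ℝ) + 64 * ‖w‖ * K * ((n:ℝ) ^ 2)⁻¹)
        atTop (𝓝 0) := by
      have := (h1.const_mul (64 * ‖w‖ * A * 3 ^ (3 / 2 : ℝ))).add (h2.const_mul (64 * ‖w‖ * K))
      simpa using this
    refine squeeze_zero' (Eventually.of_forall fun n => by positivity) ?_ h3
    filter_upwards [eventually_ge_atTop 1] with n hn
    have hn1 : (1:ℝ) ≤ n := by exact_mod_cast hn
    have hnpos : (0:ℝ) < n := by linarith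
    have h4 : (1 + 2 * (n:ℝ)) ^ (3 / 2 : ℝ) ≤ 3 ^ (3 / 2 : ℝ) * (n:ℝ) ^ (3 / 2 : ℝ) := by
      rw [← Real.mul_rpow (by norm_num) hnpos.le]
      exact Real.rpow_le_rpow (by positivity) (by linarith) (by norm_num)
    have h5 : (n:ℝ) ^ (3 / 2 : ℝ) * ((n:ℝ) ^ 2)⁻¹ = (n:ℝ) ^ (-(1 / 2) : ℝ) := by
      rw [← Real.rpow_natCast, ← Real.rpow_neg hnpos.le, ← Real.rpow_add hnpos]
      norm_num
    calc 64 * (A * (1 + 2 * (n:ℝ)) ^ (3 / 2 : ℝ) + K) / (n:ℝ) ^ 2 * ‖w‖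
        = 64 * ‖w‖ * A * (1 + 2 * (n:ℝ)) ^ (3 / 2 : ℝ) * ((n:ℝ) ^ 2)⁻¹
          + 64 * ‖w‖ * K * ((n:ℝ) ^ 2)⁻¹ := by
          field_simp
      _ ≤ 64 * ‖w‖ * A * (3 ^ (3 / 2 : ℝ) * (n:ℝ) ^ (3 / 2 : ℝ)) * ((n:ℝ) ^ 2)⁻¹
          + 64 * ‖w‖ * K * ((n:ℝ) ^ 2)⁻¹ := by
          gcongr
      _ = _ := by
          rw [← h5]
          ring
  rw [← tendsto_sub_nhds_zero_iff]
  refine squeeze_zero_norm' ?_ hlim
  filter_upwards [hmain] with n hn
  rw [norm_sub_rev]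
  exact hn

end Pool.Agent.H5
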