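import Mathlib
import Pool.Agent.H5.Hadamard

open Complex Filter Topology Metric Set

namespace Pool.Agent.H5

/-- the ordinates of the zeros of `f` on the imaginary axis -/
def zerosIm (f : ℂ → ℂ) : Set ℝ := {γ : ℝ | f (γ * I) = 0}

lemma order_neg {f : ℂ → ℂ} (heven : ∀ z, f (-z) = f z) (ρ : ℂ) :
    analyticOrderNatAt f (-ρ) = analyticOrderNatAt f ρ := by
  have h1 : analyticOrderAt (f ∘ (fun z => -z)) ρ = analyticOrderAt f (-ρ) := by
    refine analyticOrderAt_comp_of_deriv_ne_zero (g := fun z : ℂ => -z) (by fun_prop) ?_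
    simp
  have h2 : f ∘ (fun z => -z) = f := funext fun z => heven z
  rw [h2] at h1
  simp only [analyticOrderNatAt, h1]

lemma sum_zeros_symm {f : ℂ → ℂ} (hf : Differentiable ℂ f) (hf0 : f 0 ≠ 0)
    (heven : ∀ z, f (-z) = f z) (R : ℝ) {w : ℂ} (hw : f w ≠ 0) :
    ∑ ρ ∈ zerosFinset f R, (analyticOrderNatAt f ρ : ℂ) * (1 / (w - ρ) + 1 / ρ)
      = ∑ ρ ∈ zerosFinset f R, (analyticOrderNatAt f ρ : ℂ) * (w / (w ^ 2 - ρ ^ 2)) := by
  set S := zerosFinset f R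
  have hS : ∀ ρ, ρ ∈ S ↔ ‖ρ‖ ≤ R ∧ f ρ = 0 := fun ρ => mem_zerosFinset hf hf0 R ρ
  have h1 : ∑ ρ ∈ S, (analyticOrderNatAt f ρ : ℂ) * (1 / (w - ρ) + 1 / ρ)
      = ∑ ρ ∈ S, (analyticOrderNatAt f ρ : ℂ) * (1 / (w + ρ) - 1 / ρ) := by
    refine Finset.sum_bij' (fun ρ _ => -ρ) (fun ρ _ => -ρ) ?_ ?_ ?_ ?_ ?_
    · intro ρ hρ
      rw [hS] at hρ ⊢
      rw [norm_neg, heven]; exact hρ
    · intro ρ hρ
      rw [hS] at hρ ⊢
      rw [norm_neg, heven]; exact hρ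
    · intro ρ _; simp
    · intro ρ _; simp
    · intro ρ hρ
      rw [order_neg heven]
      congr 1
      rw [← sub_eq_add_neg, div_neg, sub_neg_eq_add]
  have h2 : (2:ℂ) * ∑ ρ ∈ S, (analyticOrderNatAt f ρ : ℂ) * (1 / (w - ρ) + 1 / ρ)
      = 2 * ∑ ρ ∈ S, (analyticOrderNatAt f ρ : ℂ) * (w / (w ^ 2 - ρ ^ 2)) := by
    rw [two_mul]
    nth_rw 2 [h1]
    rw [← Finset.sum_add_distrib, Finset.mul_sum]
    refine Finset.sum_congr rfl fun ρ hρ => ?_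
    have hρ' := (hS ρ).1 hρ
    have hn1 : w - ρ ≠ 0 := by
      intro h
      apply hw
      rw [sub_eq_zero.1 h]; exact hρ'.2
    have hn2 : w + ρ ≠ 0 := by
      intro h
      apply hw
      rw [eq_neg_of_add_eq_zero_left h, heven]; exact hρ'.2
    have hn3 : w ^ 2 - ρ ^ 2 ≠ 0 := by
      rw [show w ^ 2 - ρ ^ 2 = (w - ρ) * (w + ρ) by ring]
      exact mul_ne_zero hn1 hn2
    have hρ0 : ρ ≠ 0 := by
      rintro rfl
      exact hf0 hρ'.2
    field_simp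
    ring
  exact mul_left_cancel₀ two_ne_zero h2

lemma logDeriv_zero_of_even {f : ℂ → ℂ} (hf : Differentiable ℂ f)
    (heven : ∀ z, f (-z) = f z) : logDeriv f 0 = 0 := by
  have h : deriv f 0 = 0 := by
    have h1 : deriv (fun z => f (-z)) 0 = -deriv f (-0) := deriv_comp_neg (f := f) 0
    have h2 : (fun z => f (-z)) = f := funext heven
    rw [h2, neg_zero] at h1
    have : (2:ℂ) * deriv f 0 = 0 := by linear_combination h1
    simpa using this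
  rw [logDeriv_apply, h, zero_div]

/-- finset of ordinates in the subtype. -/
noncomputable def ordFinset (f : ℂ → ℂ) (hf : Differentiable ℂ f) (hf0 : f 0 ≠ 0) (R : ℝ) :
    Finset (zerosIm f) :=
  haveI : {γ : zerosIm f | |(γ:ℝ)| ≤ R}.Finite := by
    have h := finite_zeros_ball hf hf0 R
    refine Set.Finite.of_finite_image (f := fun γ : zerosIm f => ((γ:ℝ) : ℂ) * I) (h.subset ?_) ?_
    · rintro _ ⟨γ, hγ, rfl⟩
      refine ⟨?_, γ.2⟩
      simpa using hγ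
    · intro a _ b _ hab
      have : ((a:ℝ):ℂ) = ((b:ℝ):ℂ) := mul_right_cancel₀ I_ne_zero hab
      exact Subtype.ext (by exact_mod_cast this)
  this.toFinset

lemma mem_ordFinset {f : ℂ → ℂ} (hf : Differentiable ℂ f) (hf0 : f 0 ≠ 0) (R : ℝ)
    (γ : zerosIm f) : γ ∈ ordFinset f hf hf0 R ↔ |(γ:ℝ)| ≤ R := by
  simp [ordFinset]

lemma tendsto_ordFinset {f : ℂ → ℂ} (hf : Differentiable ℂ f) (hf0 : f 0 ≠ 0) :
    Tendsto (fun n : ℕ => ordFinset f hf hf0 n) atTop atTop := by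
  refine tendsto_atTop_finset_of_monotone ?_ ?_
  · intro a b hab γ hγ
    rw [mem_ordFinset] at hγ ⊢
    exact hγ.trans (by exact_mod_cast hab)
  · intro γ
    obtain ⟨n, hn⟩ := exists_nat_ge |(γ:ℝ)|
    exact ⟨n, by rw [mem_ordFinset]; exact hn⟩

lemma sum_zeros_eq_sum_ord {f : ℂ → ℂ} (hf : Differentiable ℂ f) (hf0 : f 0 ≠ 0)
    (him : ∀ z, f z = 0 → z.re = 0) (R : ℝ) (w : ℂ) :
    ∑ ρ ∈ zerosFinset f R, (analyticOrderNatAt f ρ : ℂ) * (w / (w ^ 2 - ρ ^ 2))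
      = ∑ γ ∈ ordFinset f hf hf0 R,
        (analyticOrderNatAt f (((γ:ℝ):ℂ) * I) : ℂ) * (w / (w ^ 2 + ((γ:ℝ):ℂ) ^ 2)) := by
  symm
  refine Finset.sum_bij (fun γ _ => ((γ:ℝ):ℂ) * I) ?_ ?_ ?_ ?_
  · intro γ hγ
    rw [mem_zerosFinset hf hf0]
    rw [mem_ordFinset] at hγ
    exact ⟨by simpa using hγ, γ.2⟩
  · intro a _ b _ hab
    have : ((a:ℝ):ℂ) = ((b:ℝ):ℂ) := mul_right_cancel₀ I_ne_zero hab
    exact Subtype.ext (by exact_mod_cast this)
  · intro ρ hρ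
    rw [mem_zerosFinset hf hf0] at hρ
    have hre := him ρ hρ.2
    have hρ' : ((ρ.im : ℝ) : ℂ) * I = ρ := by
      apply Complex.ext <;> simp [hre]
    refine ⟨⟨ρ.im, ?_⟩, ?_, ?_⟩
    · simp only [zerosIm, Set.mem_ofPred_eq]
      rw [hρ']; exact hρ.2
    · rw [mem_ordFinset]
      exact (abs_im_le_norm ρ).trans hρ.1
    · exact hρ'
  · intro γ _
    rw [mul_pow, I_sq]
    congr 3
    ring

end Pool.Agent.H5
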