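import Mathlib
import Pool.Agent.H5.EvenSum

open Complex Filter Topology Metric Set

namespace Pool.Agent.H5

/-- Hypotheses collected: an even entire function of order less than two, with zeros only on the
imaginary axis, and `f 0 ≠ 0`. -/
structure EvenHad (f : ℂ → ℂ) (A : ℝ) : Prop where
  diff : Differentiable ℂ f
  zero_ne : f 0 ≠ 0
  even : ∀ z, f (-z) = f z
  nonneg : 0 ≤ A
  growth : ∀ z, ‖f z‖ ≤ Real.exp (A * (1 + ‖z‖) ^ (3 / 2 : ℝ))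
  imag : ∀ z, f z = 0 → z.re = 0

variable {f : ℂ → ℂ} {A : ℝ}

/-- multiplicity of the zero `iγ` -/
noncomputable def mult (f : ℂ → ℂ) (γ : ℝ) : ℕ := analyticOrderNatAt f ((γ:ℂ) * I)

lemma EvenHad.ne_zero_of_re (hf : EvenHad f A) {w : ℂ} (hw : w.re ≠ 0) : f w ≠ 0 :=
  fun h => hw (hf.imag w h)

lemma EvenHad.tendsto_sum (hf : EvenHad f A) {w : ℂ} (hw : w.re ≠ 0) :
    Tendsto (fun n : ℕ => ∑ γ ∈ ordFinset f hf.diff hf.zero_ne n,
      (mult f γ : ℂ) * (w / (w ^ 2 + ((γ:ℝ):ℂ) ^ 2))) atTop (𝓝 (logDeriv f w)) := by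
  have h := tendsto_sum_logDeriv hf.diff hf.zero_ne hf.nonneg hf.growth (hf.ne_zero_of_re hw)
  rw [logDeriv_zero_of_even hf.diff hf.even, sub_zero] at h
  refine h.congr fun n => ?_
  rw [sum_zeros_symm hf.diff hf.zero_ne hf.even n (hf.ne_zero_of_re hw),
    sum_zeros_eq_sum_ord hf.diff hf.zero_ne hf.imag]
  rfl

lemma EvenHad.summable (hf : EvenHad f A) :
    Summable (fun γ : zerosIm f => (mult f γ : ℝ) * (1 / (1 + (γ:ℝ) ^ 2))) := by
  have h := hf.tendsto_sum (w := 1) (by simp)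
  have h2 : Tendsto (fun n : ℕ => ∑ γ ∈ ordFinset f hf.diff hf.zero_ne n,
      (mult f γ : ℝ) * (1 / (1 + (γ:ℝ) ^ 2))) atTop (𝓝 (logDeriv f 1).re) := by
    have := (Complex.continuous_re.tendsto _).comp h
    refine this.congr fun n => ?_
    simp only [Function.comp_apply, re_sum]
    refine Finset.sum_congr rfl fun γ _ => ?_
    have e : (mult f γ : ℂ) * (1 / (1 ^ 2 + ((γ:ℝ):ℂ) ^ 2))
        = (((mult f γ : ℝ) * (1 / (1 + (γ:ℝ) ^ 2)) : ℝ) : ℂ) := by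
      push_cast
      ring
    rw [e, ofReal_re]
  have hnn : ∀ γ : zerosIm f, 0 ≤ (mult f γ : ℝ) * (1 / (1 + (γ:ℝ) ^ 2)) :=
    fun γ => by positivity
  have hmono : Monotone (fun n : ℕ => ∑ γ ∈ ordFinset f hf.diff hf.zero_ne n,
      (mult f γ : ℝ) * (1 / (1 + (γ:ℝ) ^ 2))) := by
    intro a b hab
    refine Finset.sum_le_sum_of_subset_of_nonneg ?_ (fun γ _ _ => hnn γ)
    intro γ hγ
    rw [mem_ordFinset] at hγ ⊢
    exact hγ.trans (by exact_mod_cast hab)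
  refine summable_of_sum_le hnn (c := (logDeriv f 1).re) fun u => ?_
  obtain ⟨n, hn⟩ := (tendsto_atTop.1 (tendsto_ordFinset hf.diff hf.zero_ne) u).exists
  refine (Finset.sum_le_sum_of_subset_of_nonneg hn (fun γ _ _ => hnn γ)).trans ?_
  exact hmono.ge_of_tendsto h2 n

/-- elementary lower bound -/
lemma norm_sq_add_lower {w : ℂ} (hw : w.re ≠ 0) :
    ∃ K : ℝ, 0 < K ∧ ∀ γ : ℝ, 1 + γ ^ 2 ≤ K * ‖w ^ 2 + (γ:ℂ) ^ 2‖ := by
  set a := w.re
  set t := w.im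
  have ha2 : 0 < a ^ 2 := by positivity
  set K := (1 + 2 * t ^ 2) / a ^ 2 + 2 with hK
  have hKpos : 0 < K := by positivity
  have key : ∀ γ : ℝ, 1 + γ ^ 2 ≤ K * (a ^ 2 + (t - γ) ^ 2) := by
    intro γ
    have h1 : K * (a ^ 2 + (t - γ) ^ 2) = (1 + 2 * t ^ 2) + 2 * a ^ 2
        + (1 + 2 * t ^ 2) / a ^ 2 * (t - γ) ^ 2 + 2 * (t - γ) ^ 2 := by
      rw [hK]; field_simp; ring
    rw [h1]
    have h2 : 0 ≤ (1 + 2 * t ^ 2) / a ^ 2 * (t - γ) ^ 2 := by positivity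
    nlinarith [sq_nonneg (γ - 2 * t), sq_nonneg a]
  have key2 : ∀ γ : ℝ, 1 + γ ^ 2 ≤ K * (a ^ 2 + (t + γ) ^ 2) := by
    intro γ
    have := key (-γ)
    simpa using this
  refine ⟨K, hKpos, fun γ => ?_⟩
  have h1 : w ^ 2 + (γ:ℂ) ^ 2 = (w - γ * I) * (w + γ * I) := by
    ring_nf
    rw [I_sq]; ring
  have hn1 : ‖w - γ * I‖ ^ 2 = a ^ 2 + (t - γ) ^ 2 := by
    rw [← normSq_eq_norm_sq, normSq_apply]
    simp [a, t]
    ring
  have hn2 : ‖w + γ * I‖ ^ 2 = a ^ 2 + (t + γ) ^ 2 := by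
    rw [← normSq_eq_norm_sq, normSq_apply]
    simp [a, t]
    ring
  have h3 : (1 + γ ^ 2) ^ 2 ≤ (K * ‖w ^ 2 + (γ:ℂ) ^ 2‖) ^ 2 := by
    rw [h1, norm_mul, mul_pow, mul_pow, hn1, hn2, sq (1 + γ ^ 2)]
    calc (1 + γ ^ 2) * (1 + γ ^ 2) ≤ (K * (a ^ 2 + (t - γ) ^ 2)) * (K * (a ^ 2 + (t + γ) ^ 2)) :=
          mul_le_mul (key γ) (key2 γ) (by positivity) (by positivity)
      _ = _ := by ring
  exact (pow_le_pow_iff_left₀ (by positivity) (by positivity) two_ne_zero).1 h3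

lemma EvenHad.summable_complex (hf : EvenHad f A) {w : ℂ} (hw : w.re ≠ 0) :
    Summable (fun γ : zerosIm f => (mult f γ : ℂ) * (w / (w ^ 2 + ((γ:ℝ):ℂ) ^ 2))) := by
  obtain ⟨K, hK, hKb⟩ := norm_sq_add_lower hw
  refine Summable.of_norm_bounded (hf.summable.mul_left (K * ‖w‖)) fun γ => ?_
  rw [norm_mul, norm_div, Complex.norm_natCast]
  have h1 := hKb γ
  have h2 : 0 < 1 + (γ:ℝ) ^ 2 := by positivity
  have h3 : 0 < ‖w ^ 2 + ((γ:ℝ):ℂ) ^ 2‖ := by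
    by_contra h
    have : ‖w ^ 2 + ((γ:ℝ):ℂ) ^ 2‖ = 0 := le_antisymm (not_lt.1 h) (norm_nonneg _)
    rw [this, mul_zero] at h1
    linarith
  have h4 : ‖w‖ / ‖w ^ 2 + ((γ:ℝ):ℂ) ^ 2‖ ≤ K * ‖w‖ * (1 / (1 + (γ:ℝ) ^ 2)) := by
    rw [mul_one_div, div_le_div_iff₀ h3 h2]
    nlinarith [norm_nonneg w]
  calc (mult f γ : ℝ) * (‖w‖ / ‖w ^ 2 + ((γ:ℝ):ℂ) ^ 2‖)
      ≤ (mult f γ : ℝ) * (K * ‖w‖ * (1 / (1 + (γ:ℝ) ^ 2))) := by gcongr
    _ = _ := by ring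

/-- Partial fractions of the logarithmic derivative. -/
theorem EvenHad.hasSum (hf : EvenHad f A) {w : ℂ} (hw : w.re ≠ 0) :
    HasSum (fun γ : zerosIm f => (mult f γ : ℂ) * (w / (w ^ 2 + ((γ:ℝ):ℂ) ^ 2)))
      (logDeriv f w) := by
  have h1 := (hf.summable_complex hw).hasSum
  have h2 := h1.comp (tendsto_ordFinset hf.diff hf.zero_ne)
  have h3 := tendsto_nhds_unique h2 (hf.tendsto_sum hw)
  rw [h3] at h1
  exact h1

lemma mult_neg (hf : EvenHad f A) (γ : ℝ) : mult f (-γ) = mult f γ := by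
  have := order_neg hf.even ((γ:ℂ) * I)
  rw [mult, mult, ← this]
  congr 1
  push_cast
  ring

lemma neg_mem_zerosIm (hf : EvenHad f A) {γ : ℝ} (h : γ ∈ zerosIm f) : -γ ∈ zerosIm f := by
  have h' : f ((γ:ℂ) * I) = 0 := h
  have h2 : f (((-γ : ℝ) : ℂ) * I) = 0 := by
    rw [← h', ← hf.even ((γ:ℂ) * I)]
    congr 1
    push_cast
    ring
  exact h2

/-- negation on the zero set -/
def negZ (hf : EvenHad f A) : zerosIm f ≃ zerosIm f where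
  toFun γ := ⟨-(γ:ℝ), neg_mem_zerosIm hf γ.2⟩
  invFun γ := ⟨-(γ:ℝ), neg_mem_zerosIm hf γ.2⟩
  left_inv γ := by simp
  right_inv γ := by simp

lemma poisson_summable (hf : EvenHad f A) {a : ℝ} (ha : 0 < a) (t : ℝ) :
    Summable (fun γ : zerosIm f => (mult f γ : ℝ) * (a / (a ^ 2 + (t - γ) ^ 2))) := by
  set K := (1 + 2 * t ^ 2) / a ^ 2 + 2 with hK
  have hKpos : 0 < K := by positivity
  refine Summable.of_nonneg_of_le (fun γ => by positivity) (fun γ => ?_)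
    (hf.summable.mul_left (K * a))
  have key : 1 + (γ:ℝ) ^ 2 ≤ K * (a ^ 2 + (t - γ) ^ 2) := by
    have h1 : K * (a ^ 2 + (t - γ) ^ 2) = (1 + 2 * t ^ 2) + 2 * a ^ 2
        + (1 + 2 * t ^ 2) / a ^ 2 * (t - γ) ^ 2 + 2 * (t - γ) ^ 2 := by
      rw [hK]; field_simp; ring
    rw [h1]
    have h2 : 0 ≤ (1 + 2 * t ^ 2) / a ^ 2 * (t - γ) ^ 2 := by positivity
    nlinarith [sq_nonneg ((γ:ℝ) - 2 * t), sq_nonneg a]
  have h4 : a / (a ^ 2 + (t - γ) ^ 2) ≤ K * a * (1 / (1 + (γ:ℝ) ^ 2)) := by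
    rw [mul_one_div, div_le_div_iff₀ (by positivity) (by positivity)]
    nlinarith
  calc (mult f γ : ℝ) * (a / (a ^ 2 + (t - γ) ^ 2))
      ≤ (mult f γ : ℝ) * (K * a * (1 / (1 + (γ:ℝ) ^ 2))) := by gcongr
    _ = _ := by ring

/-- The Poisson-kernel form: real part of the logarithmic derivative. -/
theorem EvenHad.hasSum_re (hf : EvenHad f A) {a : ℝ} (ha : 0 < a) (t : ℝ) :
    HasSum (fun γ : zerosIm f => (mult f γ : ℝ) * (a / (a ^ 2 + (t - γ) ^ 2)))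
      (logDeriv f (a + t * I)).re := by
  have hw : ((a:ℂ) + t * I).re ≠ 0 := by simp; exact ha.ne'
  have h1 := (hf.hasSum hw)
  have h2 : HasSum (fun γ : zerosIm f =>
      ((mult f γ : ℂ) * (((a:ℂ) + t * I) / (((a:ℂ) + t * I) ^ 2 + ((γ:ℝ):ℂ) ^ 2))).re)
      (logDeriv f (a + t * I)).re := Complex.hasSum_re h1
  have hs := (poisson_summable hf ha t)
  have hs' : HasSum (fun γ : zerosIm f => (mult f γ : ℝ) * (a / (a ^ 2 + (t + γ) ^ 2)))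
      (∑' γ : zerosIm f, (mult f γ : ℝ) * (a / (a ^ 2 + (t - γ) ^ 2))) := by
    have h3 := (negZ hf).hasSum_iff.2 hs.hasSum
    refine h3.congr_fun ?_
    intro γ
    simp only [Function.comp_apply, negZ, Equiv.coe_fn_mk]
    rw [mult_neg hf, sub_neg_eq_add]
  have h4 := (hs.hasSum.add hs').mul_left (1 / 2)
  have h5 : HasSum (fun γ : zerosIm f =>
      ((mult f γ : ℂ) * (((a:ℂ) + t * I) / (((a:ℂ) + t * I) ^ 2 + ((γ:ℝ):ℂ) ^ 2))).re)
      (∑' γ : zerosIm f, (mult f γ : ℝ) * (a / (a ^ 2 + (t - γ) ^ 2))) := by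
    convert! h4 using 1
    · funext γ
      have e1 : ((a:ℂ) + t * I) ^ 2 + ((γ:ℝ):ℂ) ^ 2
          = ((a:ℂ) + (t - (γ:ℝ)) * I) * ((a:ℂ) + (t + (γ:ℝ)) * I) := by
        ring_nf
        rw [I_sq]; ring
      have n1 : ((a:ℂ) + (t - (γ:ℝ)) * I) ≠ 0 := by
        intro h
        have := congrArg Complex.re h
        simp at this
        exact ha.ne' this
      have n2 : ((a:ℂ) + (t + (γ:ℝ)) * I) ≠ 0 := by
        intro h
        have := congrArg Complex.re h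
        simp at this
        exact ha.ne' this
      have e2 : ((a:ℂ) + t * I) / (((a:ℂ) + t * I) ^ 2 + ((γ:ℝ):ℂ) ^ 2)
          = 1 / 2 * (1 / ((a:ℂ) + (t - (γ:ℝ)) * I) + 1 / ((a:ℂ) + (t + (γ:ℝ)) * I)) := by
        rw [e1]
        have e5 : (a:ℂ) + t * I = 1 / 2 * (((a:ℂ) + (t - (γ:ℝ)) * I) + ((a:ℂ) + (t + (γ:ℝ)) * I)) := by
          ring
        rw [e5]
        set u := (a:ℂ) + (t - (γ:ℝ)) * I
        set v := (a:ℂ) + (t + (γ:ℝ)) * I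
        field_simp
        ring
      have e3 : ∀ x : ℝ, (1 / ((a:ℂ) + x * I)).re = a / (a ^ 2 + x ^ 2) := by
        intro x
        rw [one_div, Complex.inv_re, normSq_apply]
        simp
        ring
      rw [e2, ← Complex.ofReal_natCast, Complex.re_ofReal_mul]
      have e4 : (1 / 2 * (1 / ((a:ℂ) + (t - (γ:ℝ)) * I) + 1 / ((a:ℂ) + (t + (γ:ℝ)) * I))).re
          = 1 / 2 * ((1 / ((a:ℂ) + ((t - γ : ℝ):ℂ) * I)).re + (1 / ((a:ℂ) + ((t + γ : ℝ):ℂ) * I)).re) := by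
        rw [show (1 / 2 : ℂ) = ((1 / 2 : ℝ) : ℂ) by norm_num, Complex.re_ofReal_mul, Complex.add_re]
        push_cast
        rfl
      rw [e4, e3, e3]
      ring
    · ring
  have h6 := h5.unique h2
  rw [← h6]
  exact hs.hasSum

end Pool.Agent.H5
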