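import Mathlib
import Pool.Agent.H5.Growth
import Pool.Agent.H5.PartialFrac
import Pool.Agent.H6.PCDefs

open Complex Filter Topology Set MeasureTheory

namespace Pool.Agent.H5

lemma xi0_eq {w : ℂ} (h1 : 1 / 2 + w ≠ 0) (h2 : 1 / 2 - w ≠ 0) :
    xi0 w = (1 / 2 + w) * (1 / 2 - w) * completedRiemannZeta (1 / 2 + w) := by
  have h3 : (1:ℂ) - (1 / 2 + w) ≠ 0 := by
    have : (1:ℂ) - (1 / 2 + w) = 1 / 2 - w := by ring
    rw [this]; exact h2
  rw [completedRiemannZeta_eq, xi0]
  have e : (1:ℂ) - (1 / 2 + w) = 1 / 2 - w := by ring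
  rw [e]
  have hab : (1 / 2 + w) + (1 / 2 - w) = 1 := by ring
  generalize completedRiemannZeta₀ (1 / 2 + w) = L
  generalize 1 / 2 + w = a at *
  generalize 1 / 2 - w = b at *
  field_simp
  linear_combination hab

lemma xi0_half : xi0 (1 / 2) = -1 := by
  unfold xi0; simp

lemma xi0_neg_half : xi0 (-(1 / 2)) = -1 := by
  rw [xi0_even, xi0_half]

/-- the completed zeta function has no zero with `Re s ≥ 1`. -/
lemma completed_ne_zero_of_one_le {s : ℂ} (hs : 1 ≤ s.re) (hs1 : s ≠ 1) :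
    completedRiemannZeta s ≠ 0 := by
  intro h
  have hs0 : s ≠ 0 := by
    rintro rfl
    simp at hs
    linarith
  have h2 : riemannZeta s = 0 := by
    rw [riemannZeta_def_of_ne_zero hs0, h, zero_div]
  exact riemannZeta_ne_zero_of_one_le_re hs h2

lemma strip_of_xi0_zero {w : ℂ} (h : xi0 w = 0) :
    completedRiemannZeta (1 / 2 + w) = 0 ∧ 0 < (1 / 2 + w : ℂ).re ∧ (1 / 2 + w : ℂ).re < 1
      ∧ riemannZeta (1 / 2 + w) = 0 := by
  have h1 : 1 / 2 + w ≠ 0 := by
    intro h1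
    have : w = -(1 / 2) := by linear_combination h1
    rw [this, xi0_neg_half] at h
    simp at h
  have h2 : 1 / 2 - w ≠ 0 := by
    intro h2
    have : w = 1 / 2 := by linear_combination -h2
    rw [this, xi0_half] at h
    simp at h
  rw [xi0_eq h1 h2] at h
  have h3 : completedRiemannZeta (1 / 2 + w) = 0 := by
    rcases mul_eq_zero.1 h with h | h
    · rcases mul_eq_zero.1 h with h | h
      · exact absurd h h1
      · exact absurd h h2
    · exact h
  have hs1 : 1 / 2 + w ≠ 1 := by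
    intro h'
    apply h2
    linear_combination -h'
  refine ⟨h3, ?_, ?_, ?_⟩
  · by_contra hc
    have h4 : completedRiemannZeta (1 - (1 / 2 + w)) = 0 := by
      rw [completedRiemannZeta_one_sub]; exact h3
    refine completed_ne_zero_of_one_le ?_ ?_ h4
    · simp only [sub_re, one_re]
      linarith [not_lt.1 hc]
    · intro h5
      apply h1
      linear_combination -h5
  · by_contra hc
    exact completed_ne_zero_of_one_le (not_lt.1 hc) hs1 h3
  · rw [riemannZeta_def_of_ne_zero h1, h3, zero_div]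

/-- Under RH the zeros of `xi0` are purely imaginary. -/
lemma xi0_imag (hRH : RiemannHypothesis) {w : ℂ} (h : xi0 w = 0) : w.re = 0 := by
  obtain ⟨_, h2, h3, h4⟩ := strip_of_xi0_zero h
  have h5 := hRH (1 / 2 + w) h4 (by
    rintro ⟨n, hn⟩
    rw [hn] at h2
    have : (-2 * ((n:ℂ) + 1)).re = -2 * ((n:ℝ) + 1) := by simp
    rw [this] at h2
    have : (0:ℝ) ≤ n := n.cast_nonneg
    linarith) (by
    intro h5
    rw [h5] at h3
    simp at h3)
  have h6 : (1 / 2 + w : ℂ).re = 1 / 2 + w.re := by simp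
  rw [h6] at h5
  linarith

lemma xi0_evenHad (hRH : RiemannHypothesis) : ∃ A, EvenHad xi0 A := by
  obtain ⟨A, hA, hg⟩ := xi0_growth
  exact ⟨A, xi0_differentiable, xi0_zero_ne, xi0_even, hA, hg, fun z hz => xi0_imag hRH hz⟩

/-- In the open strip, `ζ(s) s (1-s) = xi0 (s - 1/2) Gammaℝ(s)⁻¹`. -/
lemma zeta_mul_eq {w : ℂ} (h1 : 1 / 2 + w ≠ 0) (h2 : 1 / 2 - w ≠ 0) :
    (1 / 2 + w) * (1 / 2 - w) * riemannZeta (1 / 2 + w) = xi0 w * (Gammaℝ (1 / 2 + w))⁻¹ := by
  rw [riemannZeta_def_of_ne_zero h1, xi0_eq h1 h2]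
  ring

lemma order_eq {w : ℂ} (h1 : -(1 / 2) < w.re) (h2 : w.re < 1 / 2) :
    analyticOrderAt riemannZeta (1 / 2 + w) = analyticOrderAt xi0 w := by
  have hs0 : (1 / 2 + w) ≠ 0 := by
    intro h
    have := congrArg Complex.re h
    simp at this
    linarith
  have hs1 : (1 / 2 - w) ≠ 0 := by
    intro h
    have := congrArg Complex.re h
    simp at this
    linarith
  have hs1' : (1 / 2 + w) ≠ 1 := by
    intro h
    apply hs1
    linear_combination -h
  have hcomp : analyticOrderAt (riemannZeta ∘ (fun z => 1 / 2 + z)) w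
      = analyticOrderAt riemannZeta (1 / 2 + w) := by
    refine analyticOrderAt_comp_of_deriv_ne_zero (g := fun z : ℂ => 1 / 2 + z) (by fun_prop) ?_
    simp
  have hzan : AnalyticAt ℂ riemannZeta (1 / 2 + w) := by
    have : DifferentiableOn ℂ riemannZeta {1}ᶜ := fun z hz =>
      (differentiableAt_riemannZeta hz).differentiableWithinAt
    exact this.analyticAt (isOpen_compl_singleton.mem_nhds hs1')
  have hzan' : AnalyticAt ℂ (riemannZeta ∘ (fun z => 1 / 2 + z)) w :=
    AnalyticAt.comp hzan (by fun_prop)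
  let P : ℂ → ℂ := fun z => (1 / 2 + z) * (1 / 2 - z)
  let G : ℂ → ℂ := fun z => (Gammaℝ (1 / 2 + z))⁻¹
  have hP : AnalyticAt ℂ P w := by simp only [P]; fun_prop
  have hG : Differentiable ℂ G := by
    have := Complex.differentiable_Gammaℝ_inv
    exact this.comp (by fun_prop : Differentiable ℂ fun z : ℂ => 1 / 2 + z)
  have hP0 : P w ≠ 0 := mul_ne_zero hs0 hs1
  have hG0 : G w ≠ 0 := by
    refine inv_ne_zero (Complex.Gammaℝ_ne_zero_of_re_pos ?_)
    simp
    linarith
  have heq : P * (riemannZeta ∘ (fun z => 1 / 2 + z)) =ᶠ[𝓝 w] xi0 * G := by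
    have o1 : ∀ᶠ z in 𝓝 w, (1 / 2 + z) ≠ 0 := by
      have : ContinuousAt (fun z : ℂ => 1 / 2 + z) w := by fun_prop
      exact this.eventually_ne hs0
    have o2 : ∀ᶠ z in 𝓝 w, (1 / 2 - z) ≠ 0 := by
      have : ContinuousAt (fun z : ℂ => 1 / 2 - z) w := by fun_prop
      exact this.eventually_ne hs1
    filter_upwards [o1, o2] with z h1 h2
    simp only [Pi.mul_apply, Function.comp_apply, P, G]
    exact zeta_mul_eq h1 h2
  have hord := analyticOrderAt_congr heq
  rw [analyticOrderAt_mul hP hzan', analyticOrderAt_mul (xi0_differentiable.analyticAt w)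
    (hG.analyticAt w), (hP.analyticOrderAt_eq_zero).2 hP0,
    ((hG.analyticAt w).analyticOrderAt_eq_zero).2 hG0, zero_add, add_zero, hcomp] at hord
  exact hord

lemma mult_eq (γ : ℝ) : mult xi0 γ = PC.m γ := by
  unfold mult PC.m analyticOrderNatAt
  rw [order_eq]
  · simp
  · simp

lemma zeta_zero_iff (γ : ℝ) : riemannZeta (1 / 2 + γ * I) = 0 ↔ xi0 (γ * I) = 0 := by
  have h1 : (1 / 2 + (γ:ℂ) * I) ≠ 0 := by
    intro h
    have := congrArg Complex.re h
    simp at this
  have h2 : (1 / 2 - (γ:ℂ) * I) ≠ 0 := by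
    intro h
    have := congrArg Complex.re h
    simp at this
  have h3 := zeta_mul_eq h1 h2
  have h4 : (Gammaℝ (1 / 2 + (γ:ℂ) * I))⁻¹ ≠ 0 := by
    refine inv_ne_zero (Complex.Gammaℝ_ne_zero_of_re_pos ?_)
    simp
  constructor
  · intro h
    rw [h, mul_zero] at h3
    exact (mul_eq_zero.1 h3.symm).resolve_right h4
  · intro h
    rw [h, zero_mul] at h3
    exact (mul_eq_zero.1 h3).resolve_left (mul_ne_zero h1 h2)

lemma zerosIm_eq : zerosIm xi0 = PC.Z := by
  ext γ
  simp only [zerosIm, PC.Z, Set.mem_ofPred_eq]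
  exact (zeta_zero_iff γ).symm

/-- logarithmic derivative of xi0 in the half-plane `Re s > 1`. -/
lemma logDeriv_xi0 {w : ℂ} (hw : 1 / 2 < w.re) :
    logDeriv xi0 w = 1 / (1 / 2 + w) + 1 / ((1 / 2 + w) - 1) + logDeriv Gammaℝ (1 / 2 + w)
      + deriv riemannZeta (1 / 2 + w) / riemannZeta (1 / 2 + w) := by
  set s := 1 / 2 + w with hs
  have hsre : 1 < s.re := by rw [hs]; simp; linarith
  have hs0 : s ≠ 0 := by
    intro h; rw [h] at hsre; simp at hsre; linarith
  have hs1 : s ≠ 1 := by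
    intro h; rw [h] at hsre; simp at hsre
  have hw2 : 1 / 2 - w ≠ 0 := by
    intro h; apply hs1; rw [hs]; linear_combination -h
  have hG0 : Gammaℝ s ≠ 0 := Complex.Gammaℝ_ne_zero_of_re_pos (by linarith)
  have hz0 : riemannZeta s ≠ 0 := riemannZeta_ne_zero_of_one_le_re hsre.le
  have hGd : DifferentiableAt ℂ Gammaℝ s := by
    have h1 := (Complex.differentiable_Gammaℝ_inv s).inv (inv_ne_zero hG0)
    have h2 : (fun s => ((Gammaℝ s)⁻¹))⁻¹ = Gammaℝ := by
      funext z; simp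
    rw [h2] at h1
    exact h1
  have hzd : DifferentiableAt ℂ riemannZeta s := differentiableAt_riemannZeta hs1
  -- local identity
  have heq : xi0 =ᶠ[𝓝 w] fun z => ((1 / 2 + z) * (1 / 2 - z)) *
      (Gammaℝ (1 / 2 + z) * riemannZeta (1 / 2 + z)) := by
    have o1 : ∀ᶠ z in 𝓝 w, (1 / 2 + z) ≠ 0 := by
      have : ContinuousAt (fun z : ℂ => 1 / 2 + z) w := by fun_prop
      exact this.eventually_ne hs0
    have o2 : ∀ᶠ z in 𝓝 w, (1 / 2 - z) ≠ 0 := by
      have : ContinuousAt (fun z : ℂ => 1 / 2 - z) w := by fun_prop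
      exact this.eventually_ne hw2
    have o3 : ∀ᶠ z in 𝓝 w, Gammaℝ (1 / 2 + z) ≠ 0 := by
      have : ContinuousAt (fun z : ℂ => Gammaℝ (1 / 2 + z)) w :=
        ContinuousAt.comp (f := fun z : ℂ => 1 / 2 + z) hGd.continuousAt (by fun_prop)
      exact this.eventually_ne hG0
    filter_upwards [o1, o2, o3] with z h1 h2 h3
    have h4 := zeta_mul_eq h1 h2
    have h5 : xi0 z = ((1 / 2 + z) * (1 / 2 - z) * riemannZeta (1 / 2 + z)) * Gammaℝ (1 / 2 + z) := by
      rw [h4, mul_assoc, inv_mul_cancel₀ h3, mul_one]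
    rw [h5]; ring
  rw [(logDeriv_congr_nhds heq).eq_of_nhds]
  have hd1 : HasDerivAt (fun z : ℂ => (1 / 2 + z) * (1 / 2 - z)) (-2 * w) w := by
    have h1 : HasDerivAt (fun z : ℂ => 1 / 2 + z) 1 w := (hasDerivAt_id w).const_add _
    have h2 : HasDerivAt (fun z : ℂ => 1 / 2 - z) (-1) w := (hasDerivAt_id w).const_sub _
    refine (h1.mul h2).congr_deriv ?_
    ring
  have hshift : HasDerivAt (fun z : ℂ => 1 / 2 + z) 1 w := (hasDerivAt_id w).const_add _
  have hd2 : HasDerivAt (fun z : ℂ => Gammaℝ (1 / 2 + z)) (deriv Gammaℝ s) w := by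
    have := HasDerivAt.comp w (h₂ := Gammaℝ) (h := fun z : ℂ => 1 / 2 + z) (hGd.hasDerivAt) hshift
    rw [mul_one] at this
    exact this
  have hd3 : HasDerivAt (fun z : ℂ => riemannZeta (1 / 2 + z)) (deriv riemannZeta s) w := by
    have := HasDerivAt.comp w (h₂ := riemannZeta) (h := fun z : ℂ => 1 / 2 + z) (hzd.hasDerivAt) hshift
    rw [mul_one] at this
    exact this
  rw [logDeriv_mul (f := fun z : ℂ => (1 / 2 + z) * (1 / 2 - z))
    (g := fun z : ℂ => Gammaℝ (1 / 2 + z) * riemannZeta (1 / 2 + z)) w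
    (mul_ne_zero hs0 hw2) (mul_ne_zero hG0 hz0) hd1.differentiableAt
    (hd2.mul hd3).differentiableAt,
    logDeriv_mul (f := fun z : ℂ => Gammaℝ (1 / 2 + z))
    (g := fun z : ℂ => riemannZeta (1 / 2 + z)) w hG0 hz0 hd2.differentiableAt hd3.differentiableAt]
  simp only [logDeriv_apply]
  rw [hd1.deriv, hd2.deriv, hd3.deriv]
  have hs1' : s - 1 ≠ 0 := sub_ne_zero.2 hs1
  have e1 : -2 * w / ((1 / 2 + w) * (1 / 2 - w)) = 1 / s + 1 / (s - 1) := by
    have : (1 / 2 - w) = -(s - 1) := by rw [hs]; ring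
    rw [this, ← hs]
    field_simp
    rw [hs]; ring
  rw [e1]
  ring

end Pool.Agent.H5
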