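import Mathlib
import Pool.Agent.H5.ZetaForm

open Complex Filter Topology Set MeasureTheory

namespace Pool.Agent.H5

lemma natCast_cpow_re {n : ℕ} (hn : 0 < n) (b t : ℝ) :
    ((n:ℂ) ^ (-((b:ℂ) + t * I))).re = (n:ℝ) ^ (-b) * Real.cos (t * Real.log n) := by
  have hn' : (0:ℝ) < n := by exact_mod_cast hn
  have hn0 : (n:ℂ) ≠ 0 := by exact_mod_cast hn.ne'
  have e1 : (n:ℂ) ^ (-((b:ℂ) + t * I)) = exp (((-b * Real.log n : ℝ) : ℂ) + ((-(t * Real.log n) : ℝ) : ℂ) * I) := by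
    rw [cpow_def_of_ne_zero hn0]
    congr 1
    rw [Complex.natCast_log.symm]
    push_cast
    ring
  rw [e1, exp_re]
  simp only [add_re, ofReal_re, mul_re, I_re, mul_zero, ofReal_im, I_im, mul_one, sub_self,
    add_zero, add_im, mul_im, zero_add]
  rw [Real.cos_neg, Real.rpow_def_of_pos hn']
  congr 2
  ring

lemma lseries_re {a : ℝ} (ha : 1 / 2 < a) (t : ℝ) :
    (LSeries (fun n => ((ArithmeticFunction.vonMangoldt n : ℝ) : ℂ)) (1 / 2 + (a + t * I))).re
      = PC.dir a t := by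
  have hs : 1 < (1 / 2 + ((a:ℂ) + t * I)).re := by simp; linarith
  have hsum := ArithmeticFunction.LSeriesSummable_vonMangoldt hs
  rw [LSeries, PC.dir]
  rw [Complex.re_tsum hsum]
  refine tsum_congr fun n => ?_
  rcases Nat.eq_zero_or_pos n with rfl | hn
  · simp
  · rw [LSeries.term_of_ne_zero hn.ne', div_eq_mul_inv, ← cpow_neg, Complex.re_ofReal_mul]
    have : -(1 / 2 + ((a:ℂ) + t * I)) = -(((1 / 2 + a : ℝ) : ℂ) + t * I) := by push_cast; ring
    rw [this, natCast_cpow_re hn]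
    ring

/-- **Module (A)**: partial fractions of `ξ'/ξ` on the line `Re s = 1/2 + a`, under RH. -/
theorem hasSum_poisson (hRH : RiemannHypothesis) {a : ℝ} (ha : 1 / 2 < a) (t : ℝ) :
    HasSum (fun g : PC.Z => (PC.m g : ℝ) * (a / (a ^ 2 + (t - g) ^ 2)))
      (PC.arch a t - PC.dir a t) := by
  obtain ⟨A, hA⟩ := xi0_evenHad hRH
  have h1 := hA.hasSum_re (a := a) (by linarith) t
  have hw : 1 / 2 < ((a:ℂ) + t * I).re := by simpa using ha
  rw [logDeriv_xi0 hw] at h1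
  have hs : 1 < (1 / 2 + ((a:ℂ) + t * I)).re := by simp; linarith
  have h2 := ArithmeticFunction.LSeries_vonMangoldt_eq_deriv_riemannZeta_div hs
  have h3 : (1 / (1 / 2 + ((a:ℂ) + t * I)) + 1 / ((1 / 2 + ((a:ℂ) + t * I)) - 1)
      + logDeriv Gammaℝ (1 / 2 + ((a:ℂ) + t * I))
      + deriv riemannZeta (1 / 2 + ((a:ℂ) + t * I)) / riemannZeta (1 / 2 + ((a:ℂ) + t * I))).re
      = PC.arch a t - PC.dir a t := by
    rw [add_re, ← lseries_re ha t]
    have e : (1:ℂ) / 2 + ((a:ℂ) + t * I) = 1 / 2 + a + t * I := by ring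
    rw [h2, neg_div, neg_re, PC.arch]
    simp only [e]
    ring
  rw [h3] at h1
  have h4 : HasSum (fun g : zerosIm xi0 => (PC.m g : ℝ) * (a / (a ^ 2 + (t - g) ^ 2)))
      (PC.arch a t - PC.dir a t) := by
    refine h1.congr_fun fun g => ?_
    rw [mult_eq]
  rw [zerosIm_eq] at h4
  exact h4

/-- The zero set is countable. -/
theorem Z_countable : PC.Z.Countable := by
  rw [← zerosIm_eq]
  have h : ∀ n : ℕ, {γ : ℝ | γ ∈ zerosIm xi0 ∧ |γ| ≤ n}.Finite := by
    intro n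
    have h := finite_zeros_ball xi0_differentiable xi0_zero_ne (n:ℝ)
    refine Set.Finite.of_finite_image (f := fun γ : ℝ => (γ : ℂ) * I) (h.subset ?_) ?_
    · rintro _ ⟨γ, hγ, rfl⟩
      exact ⟨by simpa using hγ.2, hγ.1⟩
    · intro a _ b _ hab
      have : (a:ℂ) = (b:ℂ) := mul_right_cancel₀ I_ne_zero hab
      exact_mod_cast this
  have hun : zerosIm xi0 = ⋃ n : ℕ, {γ : ℝ | γ ∈ zerosIm xi0 ∧ |γ| ≤ n} := by
    ext γ
    simp only [Set.mem_iUnion, Set.mem_ofPred_eq]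
    constructor
    · intro hγ
      obtain ⟨n, hn⟩ := exists_nat_ge |γ|
      exact ⟨n, hγ, hn⟩
    · rintro ⟨n, hγ, _⟩
      exact hγ
  rw [hun]
  exact Set.countable_iUnion fun n => (h n).countable

/-- Only finitely many ordinates in bounded sets. -/
theorem Z_finite (R : ℝ) : {γ : ℝ | γ ∈ PC.Z ∧ |γ| ≤ R}.Finite := by
  rw [← zerosIm_eq]
  have h := finite_zeros_ball xi0_differentiable xi0_zero_ne R
  refine Set.Finite.of_finite_image (f := fun γ : ℝ => (γ : ℂ) * I) (h.subset ?_) ?_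
  · rintro _ ⟨γ, hγ, rfl⟩
    exact ⟨by simpa using hγ.2, hγ.1⟩
  · intro a _ b _ hab
    have : (a:ℂ) = (b:ℂ) := mul_right_cancel₀ I_ne_zero hab
    exact_mod_cast this

lemma xi0_order_ne_top (w : ℂ) : analyticOrderAt xi0 w ≠ ⊤ := by
  intro hz
  rw [analyticOrderAt_eq_top] at hz
  have hfa : AnalyticOnNhd ℂ xi0 univ := fun z _ => xi0_differentiable.analyticAt z
  have := hfa.eq_of_eventuallyEq (g := fun _ => (0:ℂ)) analyticOnNhd_const (z₀ := w) hz
  exact xi0_zero_ne (by rw [this])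

/-- multiplicities are positive at zeros -/
theorem one_le_m {g : ℝ} (hg : g ∈ PC.Z) : 1 ≤ PC.m g := by
  rw [← mult_eq, mult]
  have hz : xi0 (g * I) = 0 := (zeta_zero_iff g).1 hg
  have h1 : analyticOrderAt xi0 (g * I) ≠ 0 :=
    ((xi0_differentiable.analyticAt _).analyticOrderAt_ne_zero).2 hz
  have h2 := xi0_order_ne_top (g * I)
  rw [Nat.one_le_iff_ne_zero, analyticOrderNatAt]
  intro h
  rcases (ENat.toNat_eq_zero).1 h with h | h
  · exact h1 h
  · exact h2 h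

/-- under RH every zero in the critical strip is `1/2 + iγ`. -/
theorem eq_of_strip (hRH : RiemannHypothesis) {ρ : ℂ} (h0 : riemannZeta ρ = 0)
    (h1 : 0 < ρ.re) (h2 : ρ.re < 1) : ρ = 1 / 2 + ρ.im * I := by
  have h := hRH ρ h0 (by
    rintro ⟨n, hn⟩
    rw [hn] at h1
    have : (-2 * ((n:ℂ) + 1)).re = -2 * ((n:ℝ) + 1) := by simp
    rw [this] at h1
    have : (0:ℝ) ≤ n := n.cast_nonneg
    linarith) (by
    rintro rfl
    simp at h2)
  apply Complex.ext
  · simp [h]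
  · simp

/-- symmetry of the zero set -/
theorem neg_mem_Z (hRH : RiemannHypothesis) {g : ℝ} (hg : g ∈ PC.Z) : -g ∈ PC.Z := by
  obtain ⟨A, hA⟩ := xi0_evenHad hRH
  rw [← zerosIm_eq] at hg ⊢
  exact neg_mem_zerosIm hA hg

theorem m_neg (hRH : RiemannHypothesis) (g : ℝ) : PC.m (-g) = PC.m g := by
  obtain ⟨A, hA⟩ := xi0_evenHad hRH
  rw [← mult_eq, ← mult_eq]
  exact mult_neg hA g

/-- summability of the zeros -/
theorem summable_Z (hRH : RiemannHypothesis) :
    Summable (fun g : PC.Z => (PC.m g : ℝ) * (1 / (1 + (g:ℝ) ^ 2))) := by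
  obtain ⟨A, hA⟩ := xi0_evenHad hRH
  have h := hA.summable
  have h2 : Summable (fun g : zerosIm xi0 => (PC.m g : ℝ) * (1 / (1 + (g:ℝ) ^ 2))) := by
    refine h.congr fun g => ?_
    rw [mult_eq]
  rw [zerosIm_eq] at h2
  exact h2

end Pool.Agent.H5
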