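import Mathlib
import Pool.Agent.H6.Windows

open MeasureTheory Set Filter Topology
open scoped Real Interval ContDiff Convolution

/-!
# Positivity on the frequency side

For a continuous even compactly supported `g` with `g ≥ 0` outside `(-1, 1)` the normalised double
sum of `cosT g` over the zeros is asymptotically at least `g 0 + ∫_{-1}^{1} |x| g x dx`.
-/

namespace Pool.Agent.H5

open Pool.Agent.H6

section
variable {ι : Type*} {γ w : ι → ℝ} {F : ℝ → Finset ι} {CR : ℝ}

/-- The form factor without the weight. -/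
noncomputable def FF (γ w : ι → ℝ) (F : ℝ → Finset ι) (T ξ : ℝ) : ℝ :=
  SF γ w F T (fun x => Real.cos (2 * π * x * ξ))

lemma FF_eq (T ξ : ℝ) : FF γ w F T ξ = (1 / PC.norm T) *
    ((∑ i ∈ F T, w i * Real.cos (γ i * Real.log T * ξ)) ^ 2 +
      (∑ i ∈ F T, w i * Real.sin (γ i * Real.log T * ξ)) ^ 2) := by
  unfold FF SF
  congr 1
  rw [sq, sq, Finset.sum_mul_sum, Finset.sum_mul_sum, ← Finset.sum_add_distrib]
  apply Finset.sum_congr rfl
  intro i _
  rw [← Finset.sum_add_distrib]
  apply Finset.sum_congr rfl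
  intro j _
  simp only
  rw [show 2 * π * ((γ i - γ j) * Real.log T / (2 * π)) * ξ
    = γ i * Real.log T * ξ - γ j * Real.log T * ξ by field_simp, Real.cos_sub]
  ring

lemma FF_nonneg {T : ℝ} (hT : 1 < T) (ξ : ℝ) : 0 ≤ FF γ w F T ξ := by
  rw [FF_eq]
  have := norm_pos hT
  positivity

lemma continuous_FF (T : ℝ) : Continuous (FF γ w F T) := by
  have : FF γ w F T = fun ξ => (1 / PC.norm T) *
    ((∑ i ∈ F T, w i * Real.cos (γ i * Real.log T * ξ)) ^ 2 +
      (∑ i ∈ F T, w i * Real.sin (γ i * Real.log T * ξ)) ^ 2) := funext fun ξ => FF_eq T ξ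
  rw [this]
  fun_prop

lemma FF_neg (T ξ : ℝ) : FF γ w F T (-ξ) = FF γ w F T ξ := by
  rw [FF_eq, FF_eq]
  simp only [mul_neg, Real.cos_neg, Real.sin_neg, Finset.sum_neg_distrib, neg_sq]

lemma SF_cosT {g : ℝ → ℝ} (hg : Integrable g) (T : ℝ) :
    SF γ w F T (cosT g) = ∫ x, g x * FF γ w F T x := by
  unfold FF SF
  have h1 : ∀ x, g x * ((1 / PC.norm T) * ∑ i ∈ F T, ∑ j ∈ F T, w i * w j *
      Real.cos (2 * π * ((γ i - γ j) * Real.log T / (2 * π)) * x))
      = (1 / PC.norm T) * ∑ i ∈ F T, ∑ j ∈ F T, (w i * w j) * (g x *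
      Real.cos (2 * π * x * ((γ i - γ j) * Real.log T / (2 * π)))) := by
    intro x
    rw [mul_left_comm, Finset.mul_sum]
    congr 1
    apply Finset.sum_congr rfl
    intro i _
    rw [Finset.mul_sum]
    apply Finset.sum_congr rfl
    intro j _
    rw [show 2 * π * ((γ i - γ j) * Real.log T / (2 * π)) * x
      = 2 * π * x * ((γ i - γ j) * Real.log T / (2 * π)) by ring]
    ring
  simp_rw [h1]
  have hint : ∀ i j, Integrable (fun x => (w i * w j) * (g x *
      Real.cos (2 * π * x * ((γ i - γ j) * Real.log T / (2 * π))))) := by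
    intro i j
    apply Integrable.const_mul
    exact integrable_mul_cos hg _
  rw [integral_const_mul, integral_finsetSum]
  · congr 1
    apply Finset.sum_congr rfl
    intro i _
    rw [integral_finsetSum]
    · apply Finset.sum_congr rfl
      intro j _
      rw [integral_const_mul]
      rfl
    · intro j _
      exact hint i j
  · intro i _
    apply integrable_finsetSum
    intro j _
    exact hint i j

lemma tail_poisson (u : ℝ) : tail (fun v => 2 * v / (1 + v ^ 2) ^ 2) u = 1 / (1 + u ^ 2) := by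
  unfold tail
  have hd : ∀ v ∈ Ici |u|, HasDerivAt (fun v : ℝ => -(1 / (1 + v ^ 2))) (2 * v / (1 + v ^ 2) ^ 2) v := by
    intro v _
    have h0 : (1 + v ^ 2) ≠ 0 := by positivity
    have h1 : HasDerivAt (fun v : ℝ => 1 + v ^ 2) (2 * v) v := by
      have := (hasDerivAt_pow 2 v).const_add 1
      simpa using this
    have h2 := (h1.inv h0).neg
    have e1 : (fun v : ℝ => -(1 / (1 + v ^ 2))) = -(fun v : ℝ => 1 + v ^ 2)⁻¹ := by
      ext v; simp
    have e2 : 2 * v / (1 + v ^ 2) ^ 2 = -(-(2 * v) / (1 + v ^ 2) ^ 2) := by ring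
    rw [e1, e2]
    exact h2
  have hint : IntegrableOn (fun v : ℝ => 2 * v / (1 + v ^ 2) ^ 2) (Ioi |u|) := by
    apply Integrable.integrableOn
    apply Integrable.mono' integrable_inv_one_add_sq
    · apply Continuous.aestronglyMeasurable
      apply Continuous.div (by fun_prop) (by fun_prop)
      intro v; positivity
    · apply ae_of_all
      intro v
      rw [Real.norm_eq_abs, abs_div, abs_of_pos (by positivity : (0 : ℝ) < (1 + v ^ 2) ^ 2), ← one_div,
        div_le_div_iff₀ (by positivity) (by positivity), abs_mul, abs_two, one_mul, sq (1 + v ^ 2)]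
      apply mul_le_mul_of_nonneg_right _ (by positivity)
      nlinarith [sq_abs v, sq_nonneg (|v| - 1)]
  have htend : Tendsto (fun v : ℝ => -(1 / (1 + v ^ 2))) atTop (𝓝 0) := by
    rw [← neg_zero]
    apply Tendsto.neg
    apply Tendsto.div_atTop tendsto_const_nhds
    apply tendsto_atTop_add_const_left
    exact tendsto_pow_atTop (by norm_num)
  rw [integral_Ioi_of_hasDerivAt_of_tendsto' hd hint htend, sq_abs]
  ring

/-- Uniform bound for the sums with the Poisson type weight. -/
lemma SF_poisson_bound [Countable ι] (I : Inputs γ w F CR) :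
    ∃ B : ℝ, 0 < B ∧ ∀ᶠ T in atTop, SF γ w F T (fun u => 1 / (1 + u ^ 2)) ≤ B := by
  obtain ⟨T0, C, hT0, hC0, hC⟩ := MM_bound I
  refine ⟨C * (3 * π) + 1, by positivity, ?_⟩
  filter_upwards [eventually_ge_atTop T0] with T hT
  have hp : Integrable (fun v : ℝ => 2 * v / (1 + v ^ 2) ^ 2) := by
    apply Integrable.mono' integrable_inv_one_add_sq
    · apply Continuous.aestronglyMeasurable
      apply Continuous.div (by fun_prop) (by fun_prop)
      intro v; positivity
    · apply ae_of_all
      intro v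
      rw [Real.norm_eq_abs, abs_div, abs_of_pos (by positivity : (0 : ℝ) < (1 + v ^ 2) ^ 2), ← one_div,
        div_le_div_iff₀ (by positivity) (by positivity), abs_mul, abs_two, one_mul, sq (1 + v ^ 2)]
      apply mul_le_mul_of_nonneg_right _ (by positivity)
      nlinarith [sq_abs v, sq_nonneg (|v| - 1)]
  have h1 := sum_tail_eq (γ := γ) (w := w) (F := F) hp T
  simp_rw [tail_poisson] at h1
  have hw := I.ord.w_nonneg
  have hT1 : 1 < T := lt_of_lt_of_le hT0 hT
  have h2 : ∫ β in Ioi (0 : ℝ), 2 * β / (1 + β ^ 2) ^ 2 * MM γ w F T β ≤ ∫ β in Ioi (0 : ℝ), C * 3 * (1 + β ^ 2)⁻¹ := by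
    apply integral_mono_of_nonneg
    · filter_upwards [ae_restrict_mem measurableSet_Ioi] with β hβ
      have hβ' : (0 : ℝ) < β := hβ
      have := MM_nonneg (γ := γ) (F := F) hw hT1 β
      simp only [Pi.zero_apply]
      positivity
    · exact (integrable_inv_one_add_sq.const_mul _).restrict
    · filter_upwards [ae_restrict_mem measurableSet_Ioi] with β hβ
      have hβ' : (0 : ℝ) < β := hβ
      have h3 := hC T hT β hβ'.le
      calc 2 * β / (1 + β ^ 2) ^ 2 * MM γ w F T β ≤ 2 * β / (1 + β ^ 2) ^ 2 * (C * (1 + β)) :=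
            mul_le_mul_of_nonneg_left h3 (by positivity)
        _ ≤ C * 3 * (1 + β ^ 2)⁻¹ := by
            rw [← one_div, div_mul_eq_mul_div, mul_one_div, div_le_div_iff₀ (by positivity) (by positivity)]
            have : 2 * β * (1 + β) ≤ 3 * (1 + β ^ 2) := by nlinarith [sq_nonneg (β - 1)]
            calc 2 * β * (C * (1 + β)) * (1 + β ^ 2) = C * (2 * β * (1 + β)) * (1 + β ^ 2) := by ring
              _ ≤ C * (3 * (1 + β ^ 2)) * (1 + β ^ 2) := by gcongr
              _ = C * 3 * (1 + β ^ 2) ^ 2 := by ring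
  have h4 : ∫ β in Ioi (0 : ℝ), C * 3 * (1 + β ^ 2)⁻¹ ≤ C * (3 * π) := by
    rw [integral_const_mul]
    have h5 : ∫ β in Ioi (0 : ℝ), (1 + β ^ 2)⁻¹ ≤ ∫ β : ℝ, (1 + β ^ 2)⁻¹ := by
      apply setIntegral_le_integral integrable_inv_one_add_sq
      exact ae_of_all _ fun β => by simp only [Pi.zero_apply]; positivity
    rw [integral_univ_inv_one_add_sq] at h5
    nlinarith
  have h6 : SF γ w F T (fun u => 1 / (1 + u ^ 2)) = ∫ β in Ioi (0 : ℝ), 2 * β / (1 + β ^ 2) ^ 2 * MM γ w F T β := h1
  rw [h6]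
  linarith

lemma sinc_sq_decay (u : ℝ) : (Real.sinc (π * u)) ^ 2 ≤ (6 / 5) / (1 + u ^ 2) := by
  rw [le_div_iff₀ (by positivity)]
  have h1 := abs_sinc_sq_le (π * u)
  have h2 : (Real.sinc (π * u)) ^ 2 * u ^ 2 ≤ 1 / 5 := by
    rcases eq_or_ne u 0 with rfl | hu
    · simp
    · have hpu : π * u ≠ 0 := mul_ne_zero Real.pi_ne_zero hu
      rw [Real.sinc_of_ne_zero hpu, div_pow, mul_pow, div_mul_eq_mul_div, div_le_div_iff₀ (by positivity) (by norm_num)]
      have h3 := Real.sin_sq_le_one (π * u)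
      have h4 := Real.pi_gt_three
      have h5 : 0 < u ^ 2 := by positivity
      nlinarith [mul_pos (by linarith : (0:ℝ) < π - 3) h5, mul_nonneg h5.le (by linarith : 0 ≤ 1 - Real.sin (π * u) ^ 2)]
  nlinarith

/-- the majorant `2 tri (x / 2)` of the indicator of `[-1, 1]` -/
noncomputable def gg0 (x : ℝ) : ℝ := 2 * tri (x / 2)

lemma gg0_nonneg (x : ℝ) : 0 ≤ gg0 x := by
  unfold gg0
  have := tri_nonneg (x / 2)
  positivity

lemma one_le_gg0 {x : ℝ} (hx : |x| ≤ 1) : 1 ≤ gg0 x := by
  unfold gg0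
  have h1 : |x / 2| ≤ 1 := by rw [abs_div, abs_two]; linarith
  rw [tri_eq h1, abs_div, abs_two]
  linarith

lemma continuous_gg0 : Continuous gg0 := by
  unfold gg0
  exact continuous_const.mul (continuous_tri.comp (continuous_id.div_const 2))

lemma integrable_gg0 : Integrable gg0 := by
  unfold gg0
  exact (integrable_tri.comp_div (by norm_num)).const_mul 2

lemma cosT_gg0 (u : ℝ) : cosT gg0 u = 4 * (Real.sinc (π * (2 * u))) ^ 2 := by
  have h1 : cosT gg0 u = 2 * cosT (fun x => tri (x / 2)) u := by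
    unfold gg0 cosT
    rw [← integral_const_mul]
    congr 1
    ext x
    ring
  rw [h1, cosT_dilate tri (by norm_num), cosT_tri]
  ring

/-- The form factor has bounded mass on `[-1, 1]`. -/
lemma mass_bound [Countable ι] (I : Inputs γ w F CR) :
    ∃ B : ℝ, 0 < B ∧ ∀ᶠ T in atTop, ∀ g : ℝ → ℝ, ∀ η : ℝ, 0 ≤ η → Integrable g →
      (∀ x, |g x| ≤ η * gg0 x) → |SF γ w F T (cosT g)| ≤ η * B := by
  obtain ⟨B, hB, h⟩ := SF_poisson_bound I
  refine ⟨5 * B, by positivity, ?_⟩
  filter_upwards [h, eventually_gt_atTop 1] with T hT hT1 g η hη hg hgη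
  have hw := I.ord.w_nonneg
  rw [SF_cosT hg]
  have hF := continuous_FF (γ := γ) (w := w) (F := F) T
  obtain ⟨K, hK⟩ : ∃ K, ∀ x, |FF γ w F T x| ≤ K := by
    refine ⟨|1 / PC.norm T| * ∑ i ∈ F T, ∑ j ∈ F T, |w i * w j|, fun x => ?_⟩
    unfold FF SF
    rw [abs_mul]
    apply mul_le_mul_of_nonneg_left _ (abs_nonneg _)
    refine (Finset.abs_sum_le_sum_abs _ _).trans ?_
    apply Finset.sum_le_sum
    intro i _
    refine (Finset.abs_sum_le_sum_abs _ _).trans ?_
    apply Finset.sum_le_sum
    intro j _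
    rw [abs_mul]
    exact mul_le_of_le_one_right (abs_nonneg _) (Real.abs_cos_le_one _)
  have hint : ∀ f : ℝ → ℝ, Integrable f → Integrable (fun x => f x * FF γ w F T x) := by
    intro f hf
    apply Integrable.mul_bdd (c := K) hf hF.aestronglyMeasurable
    exact ae_of_all _ fun x => by rw [Real.norm_eq_abs]; exact hK x
  calc |∫ x, g x * FF γ w F T x| ≤ ∫ x, |g x * FF γ w F T x| := abs_integral_le_integral_abs
    _ ≤ ∫ x, η * (gg0 x * FF γ w F T x) := by
        apply integral_mono (hint g hg).abs ((hint gg0 integrable_gg0).const_mul η)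
        intro x
        simp only
        rw [abs_mul, abs_of_nonneg (FF_nonneg hT1 x), ← mul_assoc]
        exact mul_le_mul_of_nonneg_right (hgη x) (FF_nonneg hT1 x)
    _ = η * SF γ w F T (cosT gg0) := by rw [integral_const_mul, SF_cosT integrable_gg0]
    _ ≤ η * (5 * B) := by
        apply mul_le_mul_of_nonneg_left _ hη
        have h1 : SF γ w F T (cosT gg0) ≤ SF γ w F T (fun u => 5 * (1 / (1 + u ^ 2))) := by
          apply SF_mono hw hT1
          intro u
          rw [cosT_gg0]
          have h2 := sinc_sq_decay (2 * u)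
          have h3 : (6 / 5 : ℝ) / (1 + (2 * u) ^ 2) ≤ (5 / 4) * (1 / (1 + u ^ 2)) := by
            rw [mul_one_div, div_le_div_iff₀ (by positivity) (by positivity)]
            nlinarith [sq_nonneg u]
          linarith
        refine h1.trans ?_
        have h4 : SF γ w F T (fun u => 5 * (1 / (1 + u ^ 2))) = 5 * SF γ w F T (fun u => 1 / (1 + u ^ 2)) := by
          unfold SF
          rw [mul_left_comm (5 : ℝ)]
          congr 1
          rw [Finset.mul_sum]
          apply Finset.sum_congr rfl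
          intro i _
          rw [Finset.mul_sum]
          apply Finset.sum_congr rfl
          intro j _
          ring
        rw [h4]
        linarith

lemma exists_smooth_approx {g : ℝ → ℝ} (hg : Continuous g) (he : ∀ x, g (-x) = g x) {s s' : ℝ} (hs : s < s')
    (h0 : ∀ x, s ≤ |x| → g x = 0) {η : ℝ} (hη : 0 < η) :
    ∃ g₂ : ℝ → ℝ, ContDiff ℝ ∞ g₂ ∧ (∀ x, g₂ (-x) = g₂ x) ∧ (∀ x, s' ≤ |x| → g₂ x = 0) ∧ ∀ x, |g₂ x - g x| ≤ η := by
  have hc : HasCompactSupport g := by
    apply HasCompactSupport.intro (K := Icc (-s) s) isCompact_Icc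
    intro x hx
    apply h0
    by_contra h
    rw [not_le, abs_lt] at h
    exact hx ⟨h.1.le, h.2.le⟩
  have hu := hc.uniformContinuous_of_continuous hg
  rw [Metric.uniformContinuous_iff] at hu
  obtain ⟨δ, hδ, hδ'⟩ := hu η hη
  set r := min δ (s' - s) with hr
  have hr0 : 0 < r := lt_min hδ (by linarith)
  let φ : ContDiffBump (0 : ℝ) := ⟨r / 2, r, by positivity, by linarith⟩
  refine ⟨φ.normed volume ⋆[ContinuousLinearMap.lsmul ℝ ℝ, volume] g, ?_, ?_, ?_, ?_⟩
  · exact φ.hasCompactSupport_normed.contDiff_convolution_left _ φ.contDiff_normed hg.locallyIntegrable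
  · intro x
    unfold MeasureTheory.convolution
    rw [← integral_neg_eq_self]
    congr 1
    ext t
    rw [φ.normed_neg, ← he (-x - -t)]
    congr 2
    ring
  · intro x hx
    have h1 := φ.dist_normed_convolution_le (μ := volume) (g := g) (x₀ := x) (ε := 0) hg.aestronglyMeasurable (by
      intro y hy
      have hy' : |y - x| < r := by simpa [Real.dist_eq] using hy
      have : s ≤ |y| := by
        have h3 : |x| - |y| ≤ |y - x| := by
          rw [abs_sub_comm]; exact abs_sub_abs_le_abs_sub x y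
        have := min_le_right δ (s' - s)
        linarith
      rw [h0 y this, h0 x (by linarith), dist_self])
    have h2 := le_antisymm h1 dist_nonneg
    rw [dist_eq_zero] at h2
    rw [h2, h0 x (by linarith)]
  · intro x
    rw [← Real.dist_eq]
    apply φ.dist_normed_convolution_le hg.aestronglyMeasurable
    intro y hy
    apply (hδ' _).le
    have hy' : dist y x < r := hy
    exact lt_of_lt_of_le hy' (min_le_left _ _)

lemma integrable_of_supp {g : ℝ → ℝ} (hg : Continuous g) {s : ℝ} (h0 : ∀ x, s ≤ |x| → g x = 0) : Integrable g := by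
  apply hg.integrable_of_hasCompactSupport
  apply HasCompactSupport.intro (K := Icc (-s) s) isCompact_Icc
  intro x hx
  apply h0
  by_contra h
  rw [not_le, abs_lt] at h
  exact hx ⟨h.1.le, h.2.le⟩

lemma SF_cosT_sub {g h : ℝ → ℝ} (hg : Integrable g) (hh : Integrable h) (T : ℝ) :
    SF γ w F T (cosT g) - SF γ w F T (cosT h) = SF γ w F T (cosT (fun x => g x - h x)) := by
  have h1 : (fun x => cosT g x) = fun x => cosT (fun x => g x - h x) x + cosT h x := by
    ext x
    rw [cosT_sub hg hh]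
    ring
  have h2 := SF_add (γ := γ) (w := w) (F := F) T (fun x => cosT (fun x => g x - h x) x) (cosT h)
  rw [← h1] at h2
  change SF γ w F T (cosT g) = SF γ w F T (cosT fun x => g x - h x) + SF γ w F T (cosT h) at h2
  rw [h2]
  ring

/-- Convergence of the form factor as a measure on `(-1, 1)`. -/
theorem tendsto_inner [Countable ι] (I : Inputs γ w F CR) {g : ℝ → ℝ} (hg : Continuous g) (he : ∀ x, g (-x) = g x)
    {s : ℝ} (hs0 : 0 < s) (hs1 : s < 1) (h0 : ∀ x, s ≤ |x| → g x = 0) :
    Tendsto (fun T => SF γ w F T (cosT g)) atTop (𝓝 (g 0 + ∫ x, |x| * g x)) := by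
  obtain ⟨B, hB, hmass⟩ := mass_bound I
  rw [Metric.tendsto_atTop']
  intro ε hε
  set η := ε / (4 * (B + 3)) with hη
  have hη0 : 0 < η := by positivity
  set s' := (1 + s) / 2 with hs'
  have hss' : s < s' := by rw [hs']; linarith
  have hs'1 : s' < 1 := by rw [hs']; linarith
  obtain ⟨g₂, hg2s, hg2e, hg20, hg2⟩ := exists_smooth_approx hg he hss' h0 hη0
  have hφ : TestFn s' (cosT g₂) := testFn_cosT hg2s hg2e hg20
  have hgi := integrable_of_supp hg h0
  have hg2i := integrable_of_supp hg2s.continuous hg20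
  have hinv : ∀ ξ, cosT (cosT g₂) ξ = g₂ ξ := fun ξ => cosT_cosT hg2s.continuous hg2i hg2e hφ.integrable ξ
  have hm := I.montgomery hφ (by linarith) hs'1
  simp_rw [hinv] at hm
  rw [Metric.tendsto_atTop'] at hm
  obtain ⟨N1, hN1⟩ := hm (ε / 4) (by positivity)
  obtain ⟨N2, hN2⟩ := eventually_atTop.mp hmass
  refine ⟨max N1 N2, fun T hT => ?_⟩
  have h1 := hN1 T (lt_of_le_of_lt (le_max_left _ _) hT)
  have h2 := hN2 T (le_of_lt (lt_of_le_of_lt (le_max_right _ _) hT)) (fun x => g x - g₂ x) η hη0.le (hgi.sub hg2i) (by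
    intro x
    rcases le_or_gt |x| 1 with hx | hx
    · calc |g x - g₂ x| ≤ η := by rw [abs_sub_comm]; exact hg2 x
        _ = η * 1 := (mul_one _).symm
        _ ≤ η * gg0 x := mul_le_mul_of_nonneg_left (one_le_gg0 hx) hη0.le
    · rw [h0 x (by linarith), hg20 x (by linarith), sub_zero, abs_zero]
      exact mul_nonneg hη0.le (gg0_nonneg x))
  rw [← SF_cosT_sub hgi hg2i] at h2
  have h3 : |(g 0 + ∫ x, |x| * g x) - (g₂ 0 + ∫ x, |x| * g₂ x)| ≤ 3 * η := by
    have e1 : (∫ x, |x| * g x) - ∫ x, |x| * g₂ x = ∫ x, |x| * (g x - g₂ x) := by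
      rw [← integral_sub]
      · congr 1; ext x; ring
      · exact integrable_of_supp (s := s) (by fun_prop) (fun x hx => by rw [h0 x hx, mul_zero])
      · have := hg2s.continuous
        exact integrable_of_supp (s := s') (by fun_prop) (fun x hx => by rw [hg20 x hx, mul_zero])
    have e2 : |∫ x, |x| * (g x - g₂ x)| ≤ 2 * η := by
      have h5 : ∀ x : ℝ, ‖|x| * (g x - g₂ x)‖ ≤ (Icc (-1 : ℝ) 1).indicator (fun _ => η) x := by
        intro x
        rw [Real.norm_eq_abs, abs_mul, abs_abs]
        by_cases hx : |x| ≤ 1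
        · rw [indicator_of_mem (by rw [mem_Icc]; exact abs_le.mp hx)]
          have := hg2 x
          rw [abs_sub_comm] at this
          calc |x| * |g x - g₂ x| ≤ 1 * η := mul_le_mul hx this (abs_nonneg _) zero_le_one
            _ = η := one_mul _
        · rw [indicator_of_notMem (by rw [mem_Icc]; exact fun h => hx (abs_le.mpr h))]
          rw [not_le] at hx
          rw [h0 x (by linarith), hg20 x (by linarith), sub_zero, abs_zero, mul_zero]
      have hI : Integrable ((Icc (-1 : ℝ) 1).indicator (fun _ => η)) := by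
        rw [integrable_indicator_iff measurableSet_Icc]
        exact integrableOn_const (by simp)
      have h6 := norm_integral_le_of_norm_le hI (ae_of_all _ h5)
      rw [integral_indicator measurableSet_Icc, setIntegral_const, smul_eq_mul, Measure.real, Real.volume_Icc] at h6
      rw [Real.norm_eq_abs] at h6
      refine h6.trans ?_
      rw [ENNReal.toReal_ofReal (by norm_num)]
      linarith
    have e3 : |g 0 - g₂ 0| ≤ η := by rw [abs_sub_comm]; exact hg2 0
    calc |(g 0 + ∫ x, |x| * g x) - (g₂ 0 + ∫ x, |x| * g₂ x)| = |(g 0 - g₂ 0) + ((∫ x, |x| * g x) - ∫ x, |x| * g₂ x)| := by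
          congr 1; ring
      _ ≤ |g 0 - g₂ 0| + |(∫ x, |x| * g x) - ∫ x, |x| * g₂ x| := abs_add_le _ _
      _ ≤ η + 2 * η := by rw [e1]; linarith
      _ = 3 * η := by ring
  have h4 : η * (B + 3) = ε / 4 := by rw [hη]; field_simp
  have h5 : SF γ w F T (cosT g₂) = (1 / PC.norm T) * ∑ i ∈ F T, ∑ j ∈ F T, w i * w j *
      cosT g₂ ((γ i - γ j) * Real.log T / (2 * π)) := rfl
  rw [Real.dist_eq] at h1 ⊢
  rw [← h5] at h1
  have e4 : SF γ w F T (cosT g) - (g 0 + ∫ x, |x| * g x) = (SF γ w F T (cosT g) - SF γ w F T (cosT g₂))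
      + (SF γ w F T (cosT g₂) - (g₂ 0 + ∫ x, |x| * g₂ x)) - ((g 0 + ∫ x, |x| * g x) - (g₂ 0 + ∫ x, |x| * g₂ x)) := by ring
  rw [e4]
  refine (abs_sub _ _).trans_lt ?_
  refine (add_le_add_left (abs_add_le _ _) _).trans_lt ?_
  nlinarith [mul_pos hη0 hB]

lemma exists_cutoff {s s' : ℝ} (h0 : 0 < s) (h : s < s') : ∃ χ : ℝ → ℝ, Continuous χ ∧ (∀ x, χ (-x) = χ x) ∧
    (∀ x, 0 ≤ χ x) ∧ (∀ x, χ x ≤ 1) ∧ (∀ x, |x| ≤ s → χ x = 1) ∧ (∀ x, s' ≤ |x| → χ x = 0) := by
  refine ⟨fun x => min 1 (max 0 ((s' - |x|) / (s' - s))), by fun_prop, fun x => by simp only [abs_neg],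
    fun x => le_min zero_le_one (le_max_left _ _), fun x => min_le_left _ _, ?_, ?_⟩
  · intro x hx
    apply min_eq_left
    apply le_max_of_le_right
    rw [le_div_iff₀ (by linarith)]
    linarith
  · intro x hx
    simp only
    rw [max_eq_left, min_eq_right zero_le_one]
    apply div_nonpos_of_nonpos_of_nonneg <;> linarith

/-- Lower bound for the double sum of `cosT g` when `g ≥ 0` outside `(-1, 1)`. -/
theorem liminf_SF [Countable ι] (I : Inputs γ w F CR) {g : ℝ → ℝ} (hg : Continuous g) (he : ∀ x, g (-x) = g x)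
    {A : ℝ} (h0 : ∀ x, A ≤ |x| → g x = 0) (hpos : ∀ x, 1 ≤ |x| → 0 ≤ g x) {ε : ℝ} (hε : 0 < ε) :
    ∀ᶠ T in atTop, g 0 + (∫ x in (-1 : ℝ)..1, |x| * g x) - ε ≤ SF γ w F T (cosT g) := by
  obtain ⟨B, hB, hmass⟩ := mass_bound I
  have hgi := integrable_of_supp hg h0
  -- bound for g
  obtain ⟨K, hK0, hK⟩ : ∃ K : ℝ, 0 < K ∧ ∀ x, |g x| ≤ K := by
    have hc : HasCompactSupport g := by
      apply HasCompactSupport.intro (K := Icc (-A) A) isCompact_Icc
      intro x hx
      apply h0
      by_contra h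
      rw [not_le, abs_lt] at h
      exact hx ⟨h.1.le, h.2.le⟩
    obtain ⟨K, hK⟩ := hg.bounded_above_of_compact_support hc
    refine ⟨|K| + 1, by positivity, fun x => ?_⟩
    have := hK x
    rw [Real.norm_eq_abs] at this
    linarith [le_abs_self K]
  set η := ε / (4 * (B + 1)) with hη
  have hη0 : 0 < η := by positivity
  -- choice of s
  have hcont1 : ∀ᶠ x in 𝓝 (1 : ℝ), -η < g x := by
    apply (hg.tendsto 1).eventually
    apply lt_mem_nhds
    have := hpos 1 (by simp)
    linarith
  obtain ⟨δ, hδ, hδ'⟩ := Metric.eventually_nhds_iff.mp hcont1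
  set d := min (1 / 2) (min (δ / 2) (ε / (8 * (K + 1)))) with hd
  have hd0 : 0 < d := by
    apply lt_min (by norm_num)
    apply lt_min (by positivity) (by positivity)
  have hd1 : d ≤ 1 / 2 := min_le_left _ _
  have hd2 : d ≤ δ / 2 := (min_le_right _ _).trans (min_le_left _ _)
  have hd3 : d ≤ ε / (8 * (K + 1)) := (min_le_right _ _).trans (min_le_right _ _)
  set s := 1 - d with hs
  have hs0 : 0 < s := by rw [hs]; linarith
  have hs1 : s < 1 := by rw [hs]; linarith
  have hneg : ∀ x, s ≤ |x| → -η ≤ g x := by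
    intro x hx
    rcases le_or_gt 1 |x| with h | h
    · linarith [hpos x h]
    · have h1 : g |x| = g x := by
        rcases abs_choice x with h' | h' <;> rw [h']
        exact he x
      rw [← h1]
      apply le_of_lt
      apply hδ'
      rw [Real.dist_eq, abs_sub_comm, abs_of_pos (by linarith)]
      rw [hs] at hx
      linarith
  obtain ⟨χ, hχc, hχe, hχ0, hχ1, hχs, hχz⟩ := exists_cutoff hs0 (show s < (1 + s) / 2 by linarith)
  set g₁ : ℝ → ℝ := fun x => g x * χ x with hg1
  have hg1c : Continuous g₁ := hg.mul hχc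
  have hg1e : ∀ x, g₁ (-x) = g₁ x := fun x => by simp only [hg1, he, hχe]
  have hg10 : ∀ x, (1 + s) / 2 ≤ |x| → g₁ x = 0 := fun x hx => by simp only [hg1, hχz x hx, mul_zero]
  have hg1i := integrable_of_supp hg1c hg10
  have hin := tendsto_inner I hg1c hg1e (by linarith) (show (1 + s) / 2 < 1 by linarith) hg10
  have hin2 := hin.eventually (lt_mem_nhds (show (g₁ 0 + ∫ x, |x| * g₁ x) - ε / 4 < g₁ 0 + ∫ x, |x| * g₁ x by linarith))
  have hg10' : g₁ 0 = g 0 := by
    simp only [hg1]
    rw [hχs 0 (by rw [abs_zero]; exact hs0.le), mul_one]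
  have hint : (∫ x in (-1 : ℝ)..1, |x| * g x) - ∫ x, |x| * g₁ x ≤ ε / 4 := by
    have e1 : ∫ x, |x| * g₁ x = ∫ x in (-1 : ℝ)..1, |x| * g₁ x := by
      rw [intervalIntegral.integral_of_le (by norm_num), ← integral_indicator measurableSet_Ioc]
      congr 1
      ext x
      simp only [indicator, mem_Ioc]
      split_ifs with h
      · rfl
      · rw [hg10 x, mul_zero]
        rw [le_abs]
        by_contra hcon
        push Not at hcon
        exact h ⟨by linarith, by linarith⟩
    have hci : ∀ a b : ℝ, IntervalIntegrable (fun x => |x| * g x) volume a b := fun a b =>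
      Continuous.intervalIntegrable (by fun_prop) a b
    have hci1 : ∀ a b : ℝ, IntervalIntegrable (fun x => |x| * g₁ x) volume a b := fun a b =>
      Continuous.intervalIntegrable (by fun_prop) a b
    have hci2 : ∀ a b : ℝ, IntervalIntegrable (fun x => |x| * g x - |x| * g₁ x) volume a b := fun a b =>
      (hci a b).sub (hci1 a b)
    rw [e1, ← intervalIntegral.integral_sub (hci _ _) (hci1 _ _)]
    have e2 : ∫ x in (-1 : ℝ)..1, (|x| * g x - |x| * g₁ x)
        = (∫ x in (-1 : ℝ)..(-s), (|x| * g x - |x| * g₁ x)) + (∫ x in (-s)..s, (|x| * g x - |x| * g₁ x))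
          + ∫ x in s..1, (|x| * g x - |x| * g₁ x) := by
      rw [intervalIntegral.integral_add_adjacent_intervals (hci2 _ _) (hci2 _ _),
        intervalIntegral.integral_add_adjacent_intervals (hci2 _ _) (hci2 _ _)]
    have e3 : ∫ x in (-s)..s, (|x| * g x - |x| * g₁ x) = 0 := by
      have : ∫ x in (-s)..s, (|x| * g x - |x| * g₁ x) = ∫ x in (-s)..s, (0 : ℝ) := by
        apply intervalIntegral.integral_congr
        intro x hx
        rw [uIcc_of_le (by linarith)] at hx
        simp only [hg1]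
        rw [hχs x (abs_le.mpr hx)]
        ring
      rw [this]
      simp
    have hb : ∀ x : ℝ, |x| ≤ 1 → |x| * g x - |x| * g₁ x ≤ K := by
      intro x hx
      simp only [hg1]
      have h1 : |x| * g x - |x| * (g x * χ x) = |x| * (1 - χ x) * g x := by ring
      rw [h1]
      have h2 : |x| * (1 - χ x) ≤ 1 := by
        have := hχ0 x
        have := hχ1 x
        nlinarith [abs_nonneg x]
      have h3 : 0 ≤ |x| * (1 - χ x) := mul_nonneg (abs_nonneg x) (by linarith [hχ1 x])
      calc |x| * (1 - χ x) * g x ≤ |x| * (1 - χ x) * |g x| := mul_le_mul_of_nonneg_left (le_abs_self _) h3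
        _ ≤ 1 * K := mul_le_mul h2 (hK x) (abs_nonneg _) zero_le_one
        _ = K := one_mul K
    have e4 : ∫ x in (-1 : ℝ)..(-s), (|x| * g x - |x| * g₁ x) ≤ ∫ x in (-1 : ℝ)..(-s), K := by
      apply intervalIntegral.integral_mono_on (by linarith) (hci2 _ _) (by simp)
      intro x hx
      apply hb
      rw [abs_le]
      exact ⟨hx.1, by linarith [hx.2]⟩
    have e5 : ∫ x in s..1, (|x| * g x - |x| * g₁ x) ≤ ∫ x in s..1, K := by
      apply intervalIntegral.integral_mono_on (by linarith) (hci2 _ _) (by simp)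
      intro x hx
      apply hb
      rw [abs_le]
      exact ⟨by linarith [hx.1], hx.2⟩
    rw [intervalIntegral.integral_const, smul_eq_mul] at e4 e5
    rw [e2, e3]
    have h6 : (1 - s) * K ≤ ε / 8 := by
      rw [hs]
      have : d * (8 * (K + 1)) ≤ ε := by rwa [le_div_iff₀ (by positivity)] at hd3
      nlinarith
    nlinarith
  filter_upwards [hin2, hmass, eventually_gt_atTop 1] with T h1 h2 hT1
  have h3 := h2 gg0 1 zero_le_one integrable_gg0 (fun x => by rw [abs_of_nonneg (gg0_nonneg x), one_mul])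
  rw [one_mul, SF_cosT integrable_gg0] at h3
  have hF := continuous_FF (γ := γ) (w := w) (F := F) T
  obtain ⟨K', hK'⟩ : ∃ K, ∀ x, |FF γ w F T x| ≤ K := by
    refine ⟨|1 / PC.norm T| * ∑ i ∈ F T, ∑ j ∈ F T, |w i * w j|, fun x => ?_⟩
    unfold FF SF
    rw [abs_mul]
    apply mul_le_mul_of_nonneg_left _ (abs_nonneg _)
    refine (Finset.abs_sum_le_sum_abs _ _).trans ?_
    apply Finset.sum_le_sum
    intro i _
    refine (Finset.abs_sum_le_sum_abs _ _).trans ?_
    apply Finset.sum_le_sum
    intro j _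
    rw [abs_mul]
    exact mul_le_of_le_one_right (abs_nonneg _) (Real.abs_cos_le_one _)
  have hintF : ∀ f : ℝ → ℝ, Integrable f → Integrable (fun x => f x * FF γ w F T x) := by
    intro f hf
    apply Integrable.mul_bdd (c := K') hf hF.aestronglyMeasurable
    exact ae_of_all _ fun x => by rw [Real.norm_eq_abs]; exact hK' x
  have h4 : SF γ w F T (cosT g) - SF γ w F T (cosT g₁) ≥ -(η * ∫ x, gg0 x * FF γ w F T x) := by
    rw [SF_cosT hgi, SF_cosT hg1i, ← integral_sub (hintF g hgi) (hintF g₁ hg1i), ← integral_const_mul, ← integral_neg]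
    apply integral_mono ((hintF gg0 integrable_gg0).const_mul η).neg ((hintF g hgi).sub (hintF g₁ hg1i))
    intro x
    simp only [Pi.neg_apply, Pi.sub_apply]
    rw [← mul_assoc, ← neg_mul, ← sub_mul]
    apply mul_le_mul_of_nonneg_right _ (FF_nonneg hT1 x)
    simp only [hg1]
    have h7 : g x - g x * χ x = g x * (1 - χ x) := by ring
    rw [h7]
    rcases le_or_gt |x| s with hx | hx
    · rw [hχs x hx, sub_self, mul_zero]
      linarith [mul_nonneg hη0.le (gg0_nonneg x)]
    · rcases le_or_gt |x| 1 with hx1 | hx1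
      · have h8 := hneg x hx.le
        have h9 := one_le_gg0 hx1
        have h10 := hχ0 x
        have h11 := hχ1 x
        nlinarith [mul_nonneg (by linarith : 0 ≤ g x + η) (by linarith : 0 ≤ 1 - χ x), mul_nonneg hη0.le (by linarith : 0 ≤ gg0 x - 1),
          mul_nonneg hη0.le h10]
      · have h8 := hpos x hx1.le
        have h11 := hχ1 x
        nlinarith [mul_nonneg h8 (by linarith : 0 ≤ 1 - χ x), mul_nonneg hη0.le (gg0_nonneg x)]
  have h5 : η * (∫ x, gg0 x * FF γ w F T x) ≤ ε / 4 := by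
    have h6 : (∫ x, gg0 x * FF γ w F T x) ≤ B := (le_abs_self _).trans h3
    calc η * (∫ x, gg0 x * FF γ w F T x) ≤ η * (B + 1) := mul_le_mul_of_nonneg_left (by linarith) hη0.le
      _ = ε / 4 := by rw [hη]; field_simp
  rw [hg10'] at h1
  linarith

end

end Pool.Agent.H5
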