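import Mathlib
import Pool.Agent.H5.Freq

open MeasureTheory Set Filter Topology FourierTransform
open scoped Real Interval ContDiff

/-!
# The Beurling function and Selberg's majorants and minorants of an interval
-/

namespace Pool.Agent.H5

open Pool.Agent.H6

/-- `(sin πy / πy)²`. -/
noncomputable def sq (y : ℝ) : ℝ := (Real.sinc (π * y)) ^ 2

lemma sq_nonneg' (y : ℝ) : 0 ≤ sq y := sq_nonneg _
lemma sq_le_one (y : ℝ) : sq y ≤ 1 := abs_sinc_sq_le _
lemma sq_decay (y : ℝ) : sq y ≤ (6 / 5) / (1 + y ^ 2) := sinc_sq_decay y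
lemma sq_neg (y : ℝ) : sq (-y) = sq y := by unfold sq; rw [mul_neg, Real.sinc_neg]
lemma sq_zero : sq 0 = 1 := by unfold sq; simp
lemma continuous_sq : Continuous sq := continuous_sinc_sq

lemma sq_mul (y : ℝ) : sq y * y ^ 2 = Real.sin (π * y) ^ 2 / π ^ 2 := by
  unfold sq
  rcases eq_or_ne y 0 with rfl | h
  · simp
  · have := Real.pi_ne_zero
    rw [Real.sinc_of_ne_zero (mul_ne_zero this h)]
    field_simp

lemma sq_eq {y : ℝ} (hy : y ≠ 0) : sq y = Real.sin (π * y) ^ 2 / π ^ 2 * (1 / y ^ 2) := by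
  rw [← sq_mul]
  field_simp

lemma mul_sq {y : ℝ} (hy : y ≠ 0) : y * sq y = Real.sin (π * y) ^ 2 / π ^ 2 * (1 / y) := by
  rw [← sq_mul]
  field_simp

lemma integrable_sq : Integrable sq := by
  apply Integrable.mono' (integrable_inv_one_add_sq.const_mul (6 / 5)) continuous_sq.aestronglyMeasurable
  apply ae_of_all
  intro y
  rw [Real.norm_eq_abs, abs_of_nonneg (sq_nonneg' y), ← div_eq_mul_inv]
  exact sq_decay y

lemma cosT_tri' : cosT tri = sq := by
  ext u; exact cosT_tri u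

lemma cosT_sq (ξ : ℝ) : cosT sq ξ = tri ξ := by
  rw [← cosT_tri']
  apply cosT_cosT continuous_tri integrable_tri tri_even
  rw [cosT_tri']
  exact integrable_sq

/-- Partition of unity. -/
lemma tsum_sq (y : ℝ) : ∑' n : ℤ, sq (y + n) = 1 := by
  have hc : Continuous (fun x : ℝ => (sq x : ℂ)) := Complex.continuous_ofReal.comp continuous_sq
  have hf : (fun x : ℝ => (sq x : ℂ)) =O[cocompact ℝ] (fun x : ℝ => |x| ^ (-(2 : ℝ))) := by
    apply Asymptotics.IsBigO.of_bound 1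
    have h0 : ∀ᶠ x in cocompact ℝ, x ≠ 0 := (isCompact_singleton (x := (0 : ℝ))).compl_mem_cocompact
    filter_upwards [h0] with x h
    rw [Complex.norm_real, Real.norm_eq_abs, abs_of_nonneg (sq_nonneg' x), one_mul, Real.norm_eq_abs,
      abs_of_nonneg (Real.rpow_nonneg (abs_nonneg x) _)]
    rw [Real.rpow_neg (abs_nonneg x), show ((2 : ℝ)) = ((2 : ℕ) : ℝ) by norm_num, Real.rpow_natCast, sq_abs,
      ← one_div, le_div_iff₀ (by positivity), sq_mul, div_le_one (by positivity)]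
    have h3 := Real.sin_sq_le_one (π * x)
    have h4 := Real.pi_gt_three
    nlinarith
  have hF : ∀ ξ : ℝ, 𝓕 (fun x : ℝ => (sq x : ℂ)) ξ = (tri ξ : ℂ) := by
    intro ξ
    rw [fourier_ofReal_even integrable_sq sq_neg, cosT_sq]
  have htri : ∀ n : ℤ, n ≠ 0 → tri (n : ℝ) = 0 := by
    intro n hn
    apply tri_eq_zero
    have : (1 : ℤ) ≤ |n| := Int.one_le_abs hn
    exact_mod_cast this
  have h1 := Real.tsum_eq_tsum_fourier_of_rpow_decay_of_summable hc (b := 2) (by norm_num) hf (by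
    simp_rw [hF]
    apply summable_of_ne_finset_zero (s := {0})
    intro n hn
    rw [Finset.mem_singleton] at hn
    rw [htri n hn, Complex.ofReal_zero]) y
  simp_rw [hF] at h1
  have h2 : tri ((0 : ℤ) : ℝ) = 1 := by
    rw [Int.cast_zero, tri_eq (by simp)]
    simp
  have h4 : ∑' n : ℤ, ((tri (n : ℝ) : ℝ) : ℂ) * _root_.fourier n (y : UnitAddCircle) = 1 := by
    rw [tsum_eq_single (0 : ℤ) (by
      intro n hn
      rw [htri n hn, Complex.ofReal_zero, zero_mul]), h2]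
    simp only [Complex.ofReal_one, one_mul, fourier_zero]
  rw [h4] at h1
  have h3 : ((∑' n : ℤ, sq (y + n) : ℝ) : ℂ) = ∑' n : ℤ, (sq (y + n) : ℂ) := Complex.ofReal_tsum _
  rw [← h3] at h1
  exact_mod_cast h1

/-! ### Summability and the Beurling function -/

lemma one_add_sq_shift (y t : ℝ) : 1 + t ^ 2 ≤ 2 * (1 + y ^ 2) * (1 + (y - t) ^ 2) := by
  nlinarith [sq_nonneg (y * (y - t)), sq_nonneg (2 * y - t), sq_nonneg y, sq_nonneg (y - t)]

lemma sq_shift_le {y R : ℝ} (hy : |y| ≤ R) (n : ℕ) : sq (y - n) ≤ (12 / 5 * (1 + R ^ 2)) * (1 / (1 + (n : ℝ) ^ 2)) := by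
  refine (sq_decay _).trans ?_
  rw [mul_one_div, div_le_div_iff₀ (by positivity) (by positivity)]
  have h1 := one_add_sq_shift y n
  have h2 : y ^ 2 ≤ R ^ 2 := sq_le_sq' (by linarith [neg_abs_le y]) (by linarith [le_abs_self y])
  have h3 : 2 * (1 + y ^ 2) * (1 + (y - n) ^ 2) ≤ 2 * (1 + R ^ 2) * (1 + (y - n) ^ 2) := by gcongr
  nlinarith

lemma summable_inv_one_add_sq_nat : Summable (fun n : ℕ => 1 / (1 + (n : ℝ) ^ 2)) := by
  rw [← summable_nat_add_iff 1]
  have h := (summable_nat_add_iff 1).mpr (Real.summable_one_div_nat_pow.mpr (by norm_num : 1 < 2))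
  apply Summable.of_nonneg_of_le (fun n => by positivity) _ h
  intro n
  apply div_le_div_of_nonneg_left zero_le_one (by positivity)
  push_cast
  linarith

lemma summable_sq (y : ℝ) : Summable (fun n : ℕ => sq (y - n)) :=
  Summable.of_nonneg_of_le (fun n => sq_nonneg' _) (fun n => sq_shift_le (le_refl |y|) n)
    (summable_inv_one_add_sq_nat.mul_left _)

/-- The majorant of the step function (Beurling's function is `2 bP - 1`). -/
noncomputable def bP (y : ℝ) : ℝ := (∑' n : ℕ, sq (y - n)) + y * sq y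

lemma continuous_bP : Continuous bP := by
  unfold bP
  apply Continuous.add _ (continuous_id.mul continuous_sq)
  rw [continuous_iff_continuousAt]
  intro y
  have h1 : ContinuousOn (fun y : ℝ => ∑' n : ℕ, sq (y - n)) (Icc (-(|y| + 1)) (|y| + 1)) := by
    apply continuousOn_tsum (u := fun n : ℕ => (12 / 5 * (1 + (|y| + 1) ^ 2)) * (1 / (1 + (n : ℝ) ^ 2)))
    · intro n
      exact (continuous_sq.comp (continuous_id.sub continuous_const)).continuousOn
    · exact summable_inv_one_add_sq_nat.mul_left _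
    · intro n x hx
      rw [Real.norm_eq_abs, abs_of_nonneg (sq_nonneg' _)]
      exact sq_shift_le (abs_le.mpr hx) n
  apply h1.continuousAt
  apply Icc_mem_nhds
  · linarith [neg_abs_le y]
  · linarith [le_abs_self y]

lemma bP_recurrence (y : ℝ) : bP y = bP (y - 1) + sq y + (y * sq y - (y - 1) * sq (y - 1)) := by
  unfold bP
  rw [(summable_sq y).tsum_eq_zero_add]
  have h1 : ∀ n : ℕ, sq (y - ((n + 1 : ℕ) : ℝ)) = sq (y - 1 - n) := by
    intro n; congr 1; push_cast; ring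
  simp_rw [h1]
  rw [Nat.cast_zero, sub_zero]
  ring

lemma bP_reflection (y : ℝ) : bP y + bP (-y) = 1 + sq y := by
  have h1 : ∀ n : ℕ, sq (-y - n) = sq (y + n) := by
    intro n; rw [← sq_neg]; congr 1; ring
  have h2 : Summable (fun n : ℕ => sq (y + ((n : ℤ) : ℝ))) := by
    have := summable_sq (-y)
    simp_rw [h1] at this
    exact_mod_cast this
  have h3 : Summable (fun n : ℕ => sq (y + ((-(n : ℤ) : ℤ) : ℝ))) := by
    have := summable_sq y
    apply this.congr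
    intro n; congr 1; push_cast; ring
  have h4 := (h2.hasSum.of_nat_of_neg (f := fun n : ℤ => sq (y + n)) h3.hasSum).tsum_eq
  rw [tsum_sq] at h4
  have h5 : ∑' n : ℕ, sq (y + ((-(n : ℤ) : ℤ) : ℝ)) = ∑' n : ℕ, sq (y - n) := by
    congr 1; ext n; congr 1; push_cast; ring
  have h6 : ∑' n : ℕ, sq (y + ((n : ℤ) : ℝ)) = ∑' n : ℕ, sq (y + n) := by
    congr 1
  rw [h5, h6, Int.cast_zero, add_zero] at h4
  unfold bP
  simp_rw [h1]
  rw [sq_neg]
  linarith

/-! ### Trigamma -/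

/-- the trigamma function -/
noncomputable def tg (v : ℝ) : ℝ := ∑' n : ℕ, 1 / (v + n) ^ 2

lemma summable_tg {v : ℝ} (hv : 0 < v) : Summable (fun n : ℕ => 1 / (v + n) ^ 2) := by
  rw [← summable_nat_add_iff 1]
  have h := (summable_nat_add_iff 1).mpr (Real.summable_one_div_nat_pow.mpr (by norm_num : 1 < 2))
  apply Summable.of_nonneg_of_le (fun n => by positivity) _ h
  intro n
  apply div_le_div_of_nonneg_left zero_le_one (by positivity)
  push_cast
  apply pow_le_pow_left₀ (by positivity)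
  linarith

lemma tg_succ {v : ℝ} (hv : 0 < v) : tg v = 1 / v ^ 2 + tg (v + 1) := by
  unfold tg
  rw [(summable_tg hv).tsum_eq_zero_add, Nat.cast_zero, add_zero]
  congr 2
  ext n
  push_cast
  congr 2
  ring

lemma telescope_sum (t : ℝ → ℝ) (v : ℝ) (N : ℕ) :
    ∑ n ∈ Finset.range N, (t (v + n) - t (v + n + 1)) = t v - t (v + N) := by
  induction N with
  | zero => simp
  | succ N ih =>
    rw [Finset.sum_range_succ, ih]
    push_cast
    rw [add_assoc]
    ring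

lemma le_tg {t : ℝ → ℝ} {v : ℝ} (hv : 0 < v) (h : ∀ u, v ≤ u → t u - t (u + 1) ≤ 1 / u ^ 2)
    (ht : Tendsto t atTop (𝓝 0)) : t v ≤ tg v := by
  have h1 : Tendsto (fun N : ℕ => t v - t (v + N)) atTop (𝓝 (t v - 0)) := by
    apply tendsto_const_nhds.sub
    apply ht.comp
    exact tendsto_atTop_add_const_left _ _ tendsto_natCast_atTop_atTop
  rw [sub_zero] at h1
  have h2 := (summable_tg hv).hasSum.tendsto_sum_nat
  apply le_of_tendsto_of_tendsto' h1 h2
  intro N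
  rw [← telescope_sum]
  apply Finset.sum_le_sum
  intro n _
  apply h
  have : (0 : ℝ) ≤ n := Nat.cast_nonneg n
  linarith

lemma tg_le {t : ℝ → ℝ} {v : ℝ} (hv : 0 < v) (h : ∀ u, v ≤ u → 1 / u ^ 2 ≤ t u - t (u + 1))
    (ht : Tendsto t atTop (𝓝 0)) : tg v ≤ t v := by
  have h1 : Tendsto (fun N : ℕ => t v - t (v + N)) atTop (𝓝 (t v - 0)) := by
    apply tendsto_const_nhds.sub
    apply ht.comp
    exact tendsto_atTop_add_const_left _ _ tendsto_natCast_atTop_atTop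
  rw [sub_zero] at h1
  have h2 := (summable_tg hv).hasSum.tendsto_sum_nat
  apply le_of_tendsto_of_tendsto' h2 h1
  intro N
  rw [← telescope_sum]
  apply Finset.sum_le_sum
  intro n _
  apply h
  have : (0 : ℝ) ≤ n := Nat.cast_nonneg n
  linarith

lemma rat1 {v : ℝ} (hv : 1 ≤ v) : 16 / (6 * v - 1) ^ 2 ≤ 1 / v ^ 2 - 1 / v +
    (1 / (v + 1) + 1 / (2 * (v + 1) ^ 2) + 1 / (6 * (v + 1) ^ 3) - 1 / (30 * (v + 1) ^ 5)) := by
  obtain ⟨z, hz⟩ : ∃ z, v = 1 + z := ⟨v - 1, by ring⟩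
  have hz0 : 0 ≤ z := by linarith
  subst hz
  rw [show 6 * (1 + z) - 1 = 5 + 6 * z by ring, show 1 + z + 1 = 2 + z by ring]
  have e : 1 / (1 + z) ^ 2 - 1 / (1 + z) +
    (1 / (2 + z) + 1 / (2 * (2 + z) ^ 2) + 1 / (6 * (2 + z) ^ 3) - 1 / (30 * (2 + z) ^ 5)) - 16 / (5 + 6 * z) ^ 2
    = (115 + 3970 * z + 11854 * z ^ 2 + 14733 * z ^ 3 + 9719 * z ^ 4 + 3615 * z ^ 5 + 720 * z ^ 6 + 60 * z ^ 7) /
      (30 * (1 + z) ^ 2 * (2 + z) ^ 5 * (5 + 6 * z) ^ 2) := by
    field_simp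
    ring
  have : 0 ≤ (115 + 3970 * z + 11854 * z ^ 2 + 14733 * z ^ 3 + 9719 * z ^ 4 + 3615 * z ^ 5 + 720 * z ^ 6 + 60 * z ^ 7) /
      (30 * (1 + z) ^ 2 * (2 + z) ^ 5 * (5 + 6 * z) ^ 2) := by positivity
  linarith

lemma polyQ {u : ℝ} (h0 : 0 ≤ u) (h1 : u ≤ 7 / 20) :
    0 ≤ 115 - 3970 * u + 11854 * u ^ 2 - 14733 * u ^ 3 + 9719 * u ^ 4 - 3615 * u ^ 5 + 720 * u ^ 6 - 60 * u ^ 7
      + 1344 * u ^ 2 * (1 - u) ^ 2 * (2 - u) ^ 5 := by
  -- R(u) is bounded below on each piece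
  have key : ∀ b : ℝ, 0 ≤ b → b ≤ 7 / 20 → u ≤ b → 1344 * (1 - b) ^ 2 * (2 - b) ^ 5 + 11854 - 14733 * b
      ≤ 11854 - 14733 * u + 9719 * u ^ 2 - 3615 * u ^ 3 + 720 * u ^ 4 - 60 * u ^ 5 + 1344 * (1 - u) ^ 2 * (2 - u) ^ 5 := by
    intro b hb0 hb1 hub
    have e1 : (1 - b) ^ 2 * (2 - b) ^ 5 ≤ (1 - u) ^ 2 * (2 - u) ^ 5 := by
      apply mul_le_mul
      · exact pow_le_pow_left₀ (by linarith) (by linarith) _
      · exact pow_le_pow_left₀ (by linarith) (by linarith) _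
      · apply pow_nonneg; linarith
      · positivity
    have e2 : 0 ≤ 9719 * u ^ 2 - 3615 * u ^ 3 + 720 * u ^ 4 - 60 * u ^ 5 := by
      have : 0 ≤ u ^ 2 * (9719 - 3615 * u) + u ^ 4 * (720 - 60 * u) := by
        apply add_nonneg
        · apply mul_nonneg (by positivity); linarith
        · apply mul_nonneg (by positivity); linarith
      nlinarith
    nlinarith
  have main : ∀ c : ℝ, c ≤ 11854 - 14733 * u + 9719 * u ^ 2 - 3615 * u ^ 3 + 720 * u ^ 4 - 60 * u ^ 5 + 1344 * (1 - u) ^ 2 * (2 - u) ^ 5 →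
      0 ≤ 115 - 3970 * u + c * u ^ 2 → 0 ≤ 115 - 3970 * u + 11854 * u ^ 2 - 14733 * u ^ 3 + 9719 * u ^ 4 - 3615 * u ^ 5 + 720 * u ^ 6 - 60 * u ^ 7
      + 1344 * u ^ 2 * (1 - u) ^ 2 * (2 - u) ^ 5 := by
    intro c hc h
    have := mul_le_mul_of_nonneg_right hc (sq_nonneg u)
    nlinarith
  rcases le_or_gt u (1 / 10) with h2 | h2
  · apply main 36000
    · refine le_trans ?_ (key (1 / 10) (by norm_num) (by norm_num) h2)
      norm_num
    · nlinarith [sq_nonneg (u - 3970 / 72000)]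
  · rcases le_or_gt u (3 / 20) with h3 | h3
    · apply main 30000
      · refine le_trans ?_ (key (3 / 20) (by norm_num) (by norm_num) h3)
        norm_num
      · nlinarith
    · rcases le_or_gt u (1 / 5) with h4 | h4
      · apply main 25000
        · refine le_trans ?_ (key (1 / 5) (by norm_num) (by norm_num) h4)
          norm_num
        · nlinarith
      · rcases le_or_gt u (27 / 100) with h5 | h5
        · apply main 18900
          · refine le_trans ?_ (key (27 / 100) (by norm_num) (by norm_num) h5)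
            norm_num
          · nlinarith
        · apply main 13600
          · refine le_trans ?_ (key (7 / 20) (by norm_num) (by norm_num) h1)
            norm_num
          · nlinarith

lemma rat2 {v : ℝ} (hv0 : 13 / 20 ≤ v) (hv : v ≤ 1) : 16 / (6 * v - 1) ^ 2 * (1 - 14 / 5 * (1 - v) ^ 2) ≤ 1 / v ^ 2 - 1 / v +
    (1 / (v + 1) + 1 / (2 * (v + 1) ^ 2) + 1 / (6 * (v + 1) ^ 3) - 1 / (30 * (v + 1) ^ 5)) := by
  have hQ := polyQ (u := 1 - v) (by linarith) (by linarith)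
  obtain ⟨a, ha⟩ : ∃ a, a = v := ⟨v, rfl⟩
  obtain ⟨c, hc⟩ : ∃ c, c = 6 * v - 1 := ⟨_, rfl⟩
  obtain ⟨d, hd⟩ : ∃ d, d = v + 1 := ⟨_, rfl⟩
  have hc0 : 0 < c := by linarith
  have hd0 : 0 < d := by linarith
  have hv0' : 0 < v := by linarith
  rw [← hc, ← hd]
  have e : 1 / v ^ 2 - 1 / v + (1 / d + 1 / (2 * d ^ 2) + 1 / (6 * d ^ 3) - 1 / (30 * d ^ 5))
      - 16 / c ^ 2 * (1 - 14 / 5 * (1 - v) ^ 2)
    = ((30 * (1 - v) * d ^ 5 + v ^ 2 * (30 * d ^ 4 + 15 * d ^ 3 + 5 * d ^ 2 - 1)) * c ^ 2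
        - 480 * (1 - 14 / 5 * (1 - v) ^ 2) * v ^ 2 * d ^ 5) / (30 * v ^ 2 * d ^ 5 * c ^ 2) := by
    field_simp
    ring
  have h2 : 0 ≤ ((30 * (1 - v) * d ^ 5 + v ^ 2 * (30 * d ^ 4 + 15 * d ^ 3 + 5 * d ^ 2 - 1)) * c ^ 2
        - 480 * (1 - 14 / 5 * (1 - v) ^ 2) * v ^ 2 * d ^ 5) / (30 * v ^ 2 * d ^ 5 * c ^ 2) := by
    apply div_nonneg _ (by positivity)
    have e2 : (30 * (1 - v) * d ^ 5 + v ^ 2 * (30 * d ^ 4 + 15 * d ^ 3 + 5 * d ^ 2 - 1)) * c ^ 2
        - 480 * (1 - 14 / 5 * (1 - v) ^ 2) * v ^ 2 * d ^ 5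
      = 115 - 3970 * (1 - v) + 11854 * (1 - v) ^ 2 - 14733 * (1 - v) ^ 3 + 9719 * (1 - v) ^ 4 - 3615 * (1 - v) ^ 5 + 720 * (1 - v) ^ 6 - 60 * (1 - v) ^ 7
      + 1344 * (1 - v) ^ 2 * (1 - (1 - v)) ^ 2 * (2 - (1 - v)) ^ 5 := by
      rw [hc, hd]
      ring
    rw [e2]
    exact hQ
  linarith

lemma tendsto_one_div_atTop (k : ℕ) (hk : k ≠ 0) (c : ℝ) : Tendsto (fun u : ℝ => c / u ^ k) atTop (𝓝 0) :=
  (tendsto_pow_atTop hk).const_div_atTop c

lemma tg_ge_trapezoid {v : ℝ} (hv : 0 < v) : 1 / v + 1 / (2 * v ^ 2) ≤ tg v := by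
  apply le_tg (t := fun u => 1 / u + 1 / (2 * u ^ 2)) hv
  · intro u hu
    have hu0 : 0 < u := by linarith
    have e : 1 / u ^ 2 - (1 / u + 1 / (2 * u ^ 2) - (1 / (u + 1) + 1 / (2 * (u + 1) ^ 2))) = 1 / (2 * u ^ 2 * (u + 1) ^ 2) := by
      field_simp
      ring
    have : 0 ≤ 1 / (2 * u ^ 2 * (u + 1) ^ 2) := by positivity
    linarith
  · have h1 := tendsto_one_div_atTop 1 (by norm_num) 1
    have h2 := tendsto_one_div_atTop 2 (by norm_num) (1 / 2)
    have h3 := h1.add h2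
    rw [add_zero] at h3
    apply h3.congr
    intro u
    rw [pow_one, div_div]

lemma tg_ge_T {v : ℝ} (hv : 0 < v) : 1 / v + 1 / (2 * v ^ 2) + 1 / (6 * v ^ 3) - 1 / (30 * v ^ 5) ≤ tg v := by
  apply le_tg (t := fun u => 1 / u + 1 / (2 * u ^ 2) + 1 / (6 * u ^ 3) - 1 / (30 * u ^ 5)) hv
  · intro u hu
    have hu0 : 0 < u := by linarith
    have e : 1 / u ^ 2 - (1 / u + 1 / (2 * u ^ 2) + 1 / (6 * u ^ 3) - 1 / (30 * u ^ 5)
        - (1 / (u + 1) + 1 / (2 * (u + 1) ^ 2) + 1 / (6 * (u + 1) ^ 3) - 1 / (30 * (u + 1) ^ 5)))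
        = (1 + 5 * u + 5 * u ^ 2) / (30 * u ^ 5 * (u + 1) ^ 5) := by
      field_simp
      ring
    have : 0 ≤ (1 + 5 * u + 5 * u ^ 2) / (30 * u ^ 5 * (u + 1) ^ 5) := by positivity
    linarith
  · have h1 := tendsto_one_div_atTop 1 (by norm_num) 1
    have h2 := tendsto_one_div_atTop 2 (by norm_num) (1 / 2)
    have h3 := tendsto_one_div_atTop 3 (by norm_num) (1 / 6)
    have h4 := tendsto_one_div_atTop 5 (by norm_num) (1 / 30)
    have h5 := ((h1.add h2).add h3).sub h4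
    simp only [add_zero, sub_zero] at h5
    apply h5.congr
    intro u
    rw [pow_one, div_div, div_div, div_div]

lemma tg_le_midpoint {v : ℝ} (hv : 1 / 2 < v) : tg v ≤ 1 / (v - 1 / 2) := by
  apply tg_le (t := fun u => 1 / (u - 1 / 2)) (by linarith)
  · intro u hu
    have h1 : 0 < u - 1 / 2 := by linarith
    have h2 : 0 < u := by linarith
    have h3 : u + 1 - 1 / 2 = u + 1 / 2 := by ring
    rw [h3]
    have e : 1 / (u - 1 / 2) - 1 / (u + 1 / 2) = 1 / ((u - 1 / 2) * (u + 1 / 2)) := by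
      have : u - 1 / 2 ≠ 0 := h1.ne'
      have h4 : u + 1 / 2 ≠ 0 := by positivity
      rw [div_sub_div _ _ this h4]
      congr 1
      ring
    rw [e]
    apply div_le_div_of_nonneg_left zero_le_one (by positivity)
    nlinarith
  · have h1 : Tendsto (fun u : ℝ => u - 1 / 2) atTop atTop := tendsto_atTop_add_const_right _ _ tendsto_id
    exact h1.const_div_atTop 1

/-! ### The slack of the step majorant -/

/-- the difference between `bP` and the step function -/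
noncomputable def sl (y : ℝ) : ℝ := bP y - (if 0 < y then 1 else 0)

lemma sin_sq_shift (y : ℝ) (n : ℕ) : Real.sin (π * (y + n)) ^ 2 = Real.sin (π * y) ^ 2 := by
  rw [mul_add, mul_comm π (n : ℝ), Real.sin_add_nat_mul_pi, mul_pow, ← pow_mul, mul_comm n 2, pow_mul]
  simp

lemma bP_neg {v : ℝ} (hv : 0 < v) : bP (-v) = Real.sin (π * v) ^ 2 / π ^ 2 * (tg v - 1 / v) := by
  unfold bP
  have h1 : ∀ n : ℕ, sq (-v - n) = Real.sin (π * v) ^ 2 / π ^ 2 * (1 / (v + n) ^ 2) := by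
    intro n
    have h2 : (v + n) ≠ 0 := by positivity
    rw [← sq_neg, show -(-v - (n : ℝ)) = v + n by ring, sq_eq h2, sin_sq_shift]
  simp_rw [h1]
  rw [tsum_mul_left, sq_neg, neg_mul, mul_sq hv.ne']
  unfold tg
  ring

lemma bP_pos {v : ℝ} (hv : 0 < v) : bP v = 1 + Real.sin (π * v) ^ 2 / π ^ 2 * (1 / v - tg (v + 1)) := by
  have h1 := bP_reflection v
  rw [bP_neg hv, tg_succ hv, sq_eq hv.ne'] at h1
  linear_combination h1

lemma sl_pos {v : ℝ} (hv : 0 < v) : sl v = Real.sin (π * v) ^ 2 / π ^ 2 * (1 / v - tg (v + 1)) := by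
  unfold sl
  rw [if_pos hv, bP_pos hv]
  ring

lemma sl_neg {v : ℝ} (hv : 0 < v) : sl (-v) = Real.sin (π * v) ^ 2 / π ^ 2 * (tg v - 1 / v) := by
  unfold sl
  rw [if_neg (by linarith), bP_neg hv]
  ring

lemma sl_zero : sl 0 = 1 := by
  unfold sl
  have := bP_reflection 0
  rw [neg_zero, sq_zero] at this
  simp only [lt_irrefl, if_false]
  linarith

lemma outer_lower {v : ℝ} (hv : 0 < v) : 1 / (v * (2 * v + 1)) ≤ 1 / v - tg (v + 1) := by
  have h1 := tg_le_midpoint (v := v + 1) (by linarith)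
  have e : 1 / v - 1 / (v + 1 - 1 / 2) = 1 / (v * (2 * v + 1)) := by
    have h2 : v + 1 - 1 / 2 = (2 * v + 1) / 2 := by ring
    rw [h2]
    field_simp
    ring
  linarith

lemma outer_upper {v : ℝ} (hv : 0 < v) : 1 / v - tg (v + 1) ≤ 1 / (v * (v + 1)) - 1 / (2 * (v + 1) ^ 2) := by
  have h1 := tg_ge_trapezoid (v := v + 1) (by linarith)
  have e : 1 / v - 1 / (v + 1) = 1 / (v * (v + 1)) := by
    field_simp
    ring
  linarith

lemma inner_lower {v : ℝ} (hv : 0 < v) : 1 / (2 * v ^ 2) ≤ tg v - 1 / v := by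
  have h1 := tg_ge_trapezoid hv
  linarith

lemma inner_upper {v : ℝ} (hv : 0 < v) : tg v - 1 / v ≤ (v + 1) / (v ^ 2 * (2 * v + 1)) := by
  have h1 := tg_le_midpoint (v := v + 1) (by linarith)
  rw [tg_succ hv]
  have e : 1 / v ^ 2 + 1 / (v + 1 - 1 / 2) - 1 / v = (v + 1) / (v ^ 2 * (2 * v + 1)) := by
    have h2 : v + 1 - 1 / 2 = (2 * v + 1) / 2 := by ring
    rw [h2]
    field_simp
    ring
  linarith

lemma sl_nonneg (y : ℝ) : 0 ≤ sl y := by
  rcases lt_trichotomy y 0 with h | h | h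
  · obtain ⟨v, rfl⟩ : ∃ v, y = -v := ⟨-y, by ring⟩
    have hv : 0 < v := by linarith
    rw [sl_neg hv]
    apply mul_nonneg (by positivity)
    refine le_trans (by positivity) (inner_lower hv)
  · rw [h, sl_zero]; exact zero_le_one
  · rw [sl_pos h]
    apply mul_nonneg (by positivity)
    refine le_trans (by positivity) (outer_lower h)

lemma sl_le_sq (y : ℝ) : sl y ≤ sq y := by
  rcases lt_trichotomy y 0 with h | h | h
  · obtain ⟨v, rfl⟩ : ∃ v, y = -v := ⟨-y, by ring⟩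
    have hv : 0 < v := by linarith
    rw [sl_neg hv, sq_neg, sq_eq hv.ne']
    apply mul_le_mul_of_nonneg_left _ (by positivity)
    refine (inner_upper hv).trans ?_
    rw [div_le_div_iff₀ (by positivity) (by positivity)]
    nlinarith [sq_nonneg v, mul_pos hv (sq_pos_of_pos hv)]
  · rw [h, sl_zero, sq_zero]
  · rw [sl_pos h, sq_eq h.ne']
    apply mul_le_mul_of_nonneg_left _ (by positivity)
    refine (outer_upper h).trans ?_
    have h1 : 1 / (y * (y + 1)) ≤ 1 / y ^ 2 := by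
      apply div_le_div_of_nonneg_left zero_le_one (by positivity)
      nlinarith
    have h2 : 0 ≤ 1 / (2 * (y + 1) ^ 2) := by positivity
    linarith

lemma measurable_sl : Measurable sl := by
  unfold sl
  apply continuous_bP.measurable.sub
  exact Measurable.ite measurableSet_Ioi measurable_const measurable_const

lemma integrable_sl : Integrable sl := by
  apply Integrable.mono' integrable_sq measurable_sl.aestronglyMeasurable
  apply ae_of_all
  intro y
  rw [Real.norm_eq_abs, abs_of_nonneg (sl_nonneg y)]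
  exact sl_le_sq y

/-! ### The correction -/

/-- The correction added to the step minorant. -/
noncomputable def hc (y : ℝ) : ℝ := 4 / 25 * Real.sin (π * y) ^ 2 * sq (3 / 5 * (y + 1 / 6))

lemma pi_sq_lt : π ^ 2 < 9.87 := by
  have := Real.pi_lt_d4
  have := Real.pi_pos
  nlinarith

lemma sin_sq_lower {u : ℝ} (h0 : 0 ≤ u) (h1 : u ≤ 7 / 20) : 14 / 5 * u ^ 2 ≤ Real.sin (3 * π * u / 5) ^ 2 := by
  rcases eq_or_lt_of_le h0 with rfl | h0
  · simp
  have hp1 := Real.pi_gt_d4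
  have hp2 := Real.pi_lt_d4
  set x := 3 * π * u / 5 with hx
  have hx0 : 0 < x := by positivity
  have hx1 : x ≤ 0.66 := by rw [hx]; nlinarith
  have hx2 : 1.8849 * u ≤ x := by rw [hx]; nlinarith
  have h2 := Real.sin_gt_sub_cube hx0
  have h3 : 1.6795 * u ≤ x - x ^ 3 / 6 := by
    have h4 : x - x ^ 3 / 6 = x * (1 - x ^ 2 / 6) := by ring
    rw [h4]
    have h5 : 0.9273 ≤ 1 - x ^ 2 / 6 := by nlinarith
    calc 1.6795 * u ≤ (1.8849 * u) * 0.9273 := by nlinarith
      _ ≤ x * (1 - x ^ 2 / 6) := mul_le_mul hx2 h5 (by norm_num) hx0.le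
  have h6 : 1.6795 * u ≤ Real.sin x := by linarith
  have h7 : (1.6795 * u) ^ 2 ≤ Real.sin x ^ 2 := pow_le_pow_left₀ (by positivity) h6 2
  nlinarith [sq_nonneg u]

lemma inner_ge {v : ℝ} (hv : 0 < v) : 4 / 25 * π ^ 2 * sq (3 / 5 * (v - 1 / 6)) ≤ tg v - 1 / v := by
  have hpi := Real.pi_pos
  have hT : 1 / v ^ 2 - 1 / v + (1 / (v + 1) + 1 / (2 * (v + 1) ^ 2) + 1 / (6 * (v + 1) ^ 3) - 1 / (30 * (v + 1) ^ 5)) ≤ tg v - 1 / v := by
    rw [tg_succ hv]
    have := tg_ge_T (v := v + 1) (by linarith)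
    linarith
  have hsq : ∀ h : v ≠ 1 / 6, 4 / 25 * π ^ 2 * sq (3 / 5 * (v - 1 / 6)) = 16 / (6 * v - 1) ^ 2 * Real.sin (π * (3 / 5 * (v - 1 / 6))) ^ 2 := by
    intro h
    have h1 : v - 1 / 6 ≠ 0 := sub_ne_zero.mpr h
    have h2 : 3 / 5 * (v - 1 / 6) ≠ 0 := by positivity
    rw [sq_eq h2]
    have h3 : 6 * v - 1 ≠ 0 := by
      intro h4; apply h1; linarith
    have h4 : 3 / 5 * (v - 1 / 6) = (6 * v - 1) / 10 := by ring
    rw [h4] at h2 ⊢
    field_simp
    ring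
  rcases le_or_gt 1 v with h1 | h1
  · refine le_trans ?_ hT
    refine le_trans ?_ (rat1 h1)
    rw [hsq (by linarith)]
    exact mul_le_of_le_one_right (by positivity) (Real.sin_sq_le_one _)
  · rcases le_or_gt (13 / 20) v with h2 | h2
    · refine le_trans ?_ hT
      refine le_trans ?_ (rat2 h2 h1.le)
      rw [hsq (by linarith)]
      apply mul_le_mul_of_nonneg_left _ (by positivity)
      have h3 := sin_sq_lower (u := 1 - v) (by linarith) (by linarith)
      have h4 : π * (3 / 5 * (v - 1 / 6)) = π / 2 - 3 * π * (1 - v) / 5 := by ring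
      rw [h4, Real.sin_pi_div_two_sub, Real.cos_sq']
      linarith
    · have h3 : 4 / 25 * π ^ 2 * sq (3 / 5 * (v - 1 / 6)) ≤ 1.58 := by
        have := sq_le_one (3 / 5 * (v - 1 / 6))
        have h4 := pi_sq_lt
        have h5 : 4 / 25 * π ^ 2 * sq (3 / 5 * (v - 1 / 6)) ≤ 4 / 25 * π ^ 2 * 1 := by gcongr
        linarith
      refine h3.trans ?_
      rw [tg_succ hv]
      have h4 := tg_ge_trapezoid (v := v + 1) (by linarith)
      have h5 : (0.82 : ℝ) ≤ 1 / v ^ 2 - 1 / v := by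
        have e : 1 / v ^ 2 - 1 / v = (1 - v) / v ^ 2 := by field_simp
        rw [e, le_div_iff₀ (by positivity)]
        nlinarith
      have h6 : (0.606 : ℝ) ≤ 1 / (v + 1) := by
        rw [le_div_iff₀ (by positivity)]
        nlinarith
      have h7 : (0.18 : ℝ) ≤ 1 / (2 * (v + 1) ^ 2) := by
        rw [le_div_iff₀ (by positivity)]
        nlinarith
      linarith

lemma outer_ge {v : ℝ} (hv : 0 < v) : 4 / 25 * π ^ 2 * sq (3 / 5 * (v + 1 / 6)) ≤ 1 / v - tg (v + 1) := by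
  refine le_trans ?_ (outer_lower hv)
  have h2 : 3 / 5 * (v + 1 / 6) ≠ 0 := by positivity
  rw [sq_eq h2]
  have hpi := Real.pi_pos
  have h4 : 3 / 5 * (v + 1 / 6) = (6 * v + 1) / 10 := by ring
  have e : 4 / 25 * π ^ 2 * (Real.sin (π * (3 / 5 * (v + 1 / 6))) ^ 2 / π ^ 2 * (1 / (3 / 5 * (v + 1 / 6)) ^ 2))
      = 16 / (6 * v + 1) ^ 2 * Real.sin (π * (3 / 5 * (v + 1 / 6))) ^ 2 := by
    rw [h4]
    field_simp
    ring
  rw [e]
  refine (mul_le_of_le_one_right (by positivity) (Real.sin_sq_le_one _)).trans ?_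
  rw [div_le_div_iff₀ (by positivity) (by positivity)]
  nlinarith [sq_nonneg (2 * v - 1)]

/-- The correction is dominated by the slack. -/
lemma hc_le_sl (y : ℝ) : hc y ≤ sl y := by
  have hpi := Real.pi_pos
  unfold hc
  rcases lt_trichotomy y 0 with h | h | h
  · obtain ⟨v, rfl⟩ : ∃ v, y = -v := ⟨-y, by ring⟩
    have hv : 0 < v := by linarith
    rw [sl_neg hv, mul_neg, Real.sin_neg, neg_sq]
    have h1 : sq (3 / 5 * (-v + 1 / 6)) = sq (3 / 5 * (v - 1 / 6)) := by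
      rw [← sq_neg]; congr 1; ring
    rw [h1]
    have h2 := mul_le_mul_of_nonneg_left (inner_ge hv) (by positivity : 0 ≤ Real.sin (π * v) ^ 2 / π ^ 2)
    refine le_trans (le_of_eq ?_) h2
    field_simp
  · rw [h, sl_zero]
    simp
  · rw [sl_pos h]
    have h2 := mul_le_mul_of_nonneg_left (outer_ge h) (by positivity : 0 ≤ Real.sin (π * y) ^ 2 / π ^ 2)
    refine le_trans (le_of_eq ?_) h2
    field_simp

end Pool.Agent.H5
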