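import Mathlib
import Pool.Agent.H5.Beurling

open MeasureTheory Set Filter Topology FourierTransform
open scoped Real Interval ContDiff

/-!
# Selberg's majorant and minorant of `[-b, b]`: Fourier support and integral
-/

namespace Pool.Agent.H5

open Pool.Agent.H6

/-- the sine transform -/
noncomputable def sinT (f : ℝ → ℝ) (ξ : ℝ) : ℝ := ∫ u, f u * Real.sin (2 * π * u * ξ)

lemma integrable_mul_sin {f : ℝ → ℝ} (hf : Integrable f) (ξ : ℝ) :
    Integrable (fun u => f u * Real.sin (2 * π * u * ξ)) := by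
  apply Integrable.mul_bdd (c := 1) hf
  · apply Continuous.aestronglyMeasurable; fun_prop
  · exact ae_of_all _ fun u => by rw [Real.norm_eq_abs]; exact Real.abs_sin_le_one _

lemma sinT_even {f : ℝ → ℝ} (he : ∀ x, f (-x) = f x) (ξ : ℝ) : sinT f ξ = 0 := by
  unfold sinT
  have h1 : ∫ u, f u * Real.sin (2 * π * u * ξ) = ∫ u, -(f u * Real.sin (2 * π * u * ξ)) := by
    rw [← integral_neg_eq_self]
    congr 1
    ext u
    rw [he, show 2 * π * -u * ξ = -(2 * π * u * ξ) by ring, Real.sin_neg]
    ring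
  rw [integral_neg] at h1
  linarith

lemma cosT_shift {f : ℝ → ℝ} (hf : Integrable f) (he : ∀ x, f (-x) = f x) (a ξ : ℝ) :
    cosT (fun x => f (x - a)) ξ = Real.cos (2 * π * a * ξ) * cosT f ξ := by
  have h0 := sinT_even he ξ
  unfold sinT at h0
  unfold cosT
  rw [← integral_add_right_eq_self (fun x => f (x - a) * Real.cos (2 * π * x * ξ)) a]
  have h1 : ∀ x, f (x + a - a) * Real.cos (2 * π * (x + a) * ξ)
      = Real.cos (2 * π * a * ξ) * (f x * Real.cos (2 * π * x * ξ)) - Real.sin (2 * π * a * ξ) * (f x * Real.sin (2 * π * x * ξ)) := by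
    intro x
    rw [add_sub_cancel_right, show 2 * π * (x + a) * ξ = 2 * π * x * ξ + 2 * π * a * ξ by ring, Real.cos_add]
    ring
  simp_rw [h1]
  rw [integral_sub ((integrable_mul_cos hf ξ).const_mul _) ((integrable_mul_sin hf ξ).const_mul _),
    integral_const_mul, integral_const_mul, h0]
  ring

lemma sinT_shift {f : ℝ → ℝ} (hf : Integrable f) (he : ∀ x, f (-x) = f x) (a ξ : ℝ) :
    sinT (fun x => f (x - a)) ξ = Real.sin (2 * π * a * ξ) * cosT f ξ := by
  have h0 := sinT_even he ξ
  unfold sinT at h0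
  unfold sinT cosT
  rw [← integral_add_right_eq_self (fun x => f (x - a) * Real.sin (2 * π * x * ξ)) a]
  have h1 : ∀ x, f (x + a - a) * Real.sin (2 * π * (x + a) * ξ)
      = Real.sin (2 * π * a * ξ) * (f x * Real.cos (2 * π * x * ξ)) + Real.cos (2 * π * a * ξ) * (f x * Real.sin (2 * π * x * ξ)) := by
    intro x
    rw [add_sub_cancel_right, show 2 * π * (x + a) * ξ = 2 * π * x * ξ + 2 * π * a * ξ by ring, Real.sin_add]
    ring
  simp_rw [h1]
  rw [integral_add ((integrable_mul_cos hf ξ).const_mul _) ((integrable_mul_sin hf ξ).const_mul _),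
    integral_const_mul, integral_const_mul, h0]
  ring

lemma sinT_sub {f g : ℝ → ℝ} (hf : Integrable f) (hg : Integrable g) (ξ : ℝ) :
    sinT (fun u => f u - g u) ξ = sinT f ξ - sinT g ξ := by
  unfold sinT
  rw [← integral_sub (integrable_mul_sin hf ξ) (integrable_mul_sin hg ξ)]
  congr 1
  ext u
  ring

lemma sinT_add {f g : ℝ → ℝ} (hf : Integrable f) (hg : Integrable g) (ξ : ℝ) :
    sinT (fun u => f u + g u) ξ = sinT f ξ + sinT g ξ := by
  unfold sinT
  rw [← integral_add (integrable_mul_sin hf ξ) (integrable_mul_sin hg ξ)]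
  congr 1
  ext u
  ring

/-! ### The function `ee` -/

noncomputable def gs (t : ℝ) : ℝ := if |t| ≤ 1 then (1 / π) * Real.sin (π * |t|) else 0

noncomputable def ee (u : ℝ) : ℝ := (u + 1 / 2) * sq (u + 1 / 2) - (u - 1 / 2) * sq (u - 1 / 2)

lemma gs_eq : gs = fun t => (1 / π) * Real.sin (π * min |t| 1) := by
  ext t
  unfold gs
  split_ifs with h
  · rw [min_eq_left h]
  · rw [min_eq_right (by linarith), mul_one, Real.sin_pi, mul_zero]

lemma continuous_gs : Continuous gs := by
  rw [gs_eq]
  fun_prop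

lemma gs_neg (t : ℝ) : gs (-t) = gs t := by unfold gs; rw [abs_neg]

lemma gs_zero {t : ℝ} (ht : 1 ≤ |t|) : gs t = 0 := by
  unfold gs
  split_ifs with h
  · rw [le_antisymm h ht, mul_one, Real.sin_pi, mul_zero]
  · rfl

lemma mul_sq' (y : ℝ) : y * sq y = (1 - Real.cos (2 * π * y)) / (2 * π ^ 2 * y) := by
  rcases eq_or_ne y 0 with rfl | hy
  · simp
  · rw [mul_sq hy, Real.sin_sq_eq_half_sub]
    rw [show 2 * (π * y) = 2 * π * y by ring]
    field_simp

lemma integral_sin_mul (c : ℝ) : ∫ t in (0 : ℝ)..1, Real.sin (c * t) = (1 - Real.cos c) / c := by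
  rcases eq_or_ne c 0 with rfl | hc
  · simp
  · rw [intervalIntegral.integral_comp_mul_left (fun t => Real.sin t) hc]
    simp only [mul_zero, mul_one, integral_sin, Real.cos_zero, smul_eq_mul]
    field_simp

lemma cosT_gs (u : ℝ) : cosT gs u = ee u := by
  unfold cosT
  have e1 : ∫ t, gs t * Real.cos (2 * π * t * u) = ∫ t in (-1 : ℝ)..1, gs t * Real.cos (2 * π * t * u) := by
    rw [intervalIntegral.integral_of_le (by norm_num), ← integral_indicator measurableSet_Ioc]
    congr 1
    ext x
    simp only [indicator, mem_Ioc]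
    split_ifs with h
    · rfl
    · rw [gs_zero, zero_mul]
      rw [le_abs]
      by_contra hcon
      push Not at hcon
      exact h ⟨by linarith, by linarith⟩
  have hcont : Continuous (fun t => gs t * Real.cos (2 * π * t * u)) := by
    have := continuous_gs
    fun_prop
  rw [e1, ← intervalIntegral.integral_add_adjacent_intervals (b := 0) (hcont.intervalIntegrable _ _) (hcont.intervalIntegrable _ _)]
  have e2 : ∫ t in (-1 : ℝ)..0, gs t * Real.cos (2 * π * t * u) = ∫ t in (0 : ℝ)..1, gs t * Real.cos (2 * π * t * u) := by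
    have := intervalIntegral.integral_comp_neg (a := 0) (b := 1) (fun t => gs t * Real.cos (2 * π * t * u))
    rw [neg_zero] at this
    rw [← this]
    congr 1
    ext t
    rw [gs_neg, show 2 * π * -t * u = -(2 * π * t * u) by ring, Real.cos_neg]
  rw [e2]
  have e3 : ∫ t in (0 : ℝ)..1, gs t * Real.cos (2 * π * t * u)
      = ∫ t in (0 : ℝ)..1, (1 / (2 * π)) * (Real.sin ((2 * π * (u + 1 / 2)) * t) - Real.sin ((2 * π * (u - 1 / 2)) * t)) := by
    apply intervalIntegral.integral_congr
    intro t ht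
    rw [uIcc_of_le (by norm_num)] at ht
    simp only
    unfold gs
    rw [abs_of_nonneg ht.1, if_pos ht.2]
    rw [show 2 * π * (u + 1 / 2) * t = 2 * π * t * u + π * t by ring,
      show 2 * π * (u - 1 / 2) * t = 2 * π * t * u - π * t by ring, Real.sin_add, Real.sin_sub]
    have := Real.pi_ne_zero
    field_simp
    ring
  rw [e3, intervalIntegral.integral_const_mul, intervalIntegral.integral_sub
    (Continuous.intervalIntegrable (by fun_prop) _ _) (Continuous.intervalIntegrable (by fun_prop) _ _),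
    integral_sin_mul, integral_sin_mul]
  unfold ee
  rw [mul_sq', mul_sq']
  have hpi := Real.pi_ne_zero
  rw [show 2 * π ^ 2 * (u + 1 / 2) = (2 * π * (u + 1 / 2)) * π by ring, show 2 * π ^ 2 * (u - 1 / 2) = (2 * π * (u - 1 / 2)) * π by ring,
    ← div_div, ← div_div]
  field_simp
  ring

lemma ee_neg (u : ℝ) : ee (-u) = ee u := by
  rw [← cosT_gs, ← cosT_gs, cosT_neg]

lemma continuous_ee : Continuous ee := by
  unfold ee
  have := continuous_sq
  fun_prop

lemma ee_eq {u : ℝ} (h1 : u + 1 / 2 ≠ 0) (h2 : u - 1 / 2 ≠ 0) :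
    ee u = Real.sin (π * (u + 1 / 2)) ^ 2 / π ^ 2 * (1 / (1 / 4 - u ^ 2)) := by
  unfold ee
  rw [mul_sq h1, mul_sq h2]
  have e : Real.sin (π * (u - 1 / 2)) ^ 2 = Real.sin (π * (u + 1 / 2)) ^ 2 := by
    rw [show π * (u + 1 / 2) = π * (u - 1 / 2) + π by ring, Real.sin_add_pi, neg_sq]
  rw [e, ← mul_sub]
  congr 1
  have h3 : (1 / 4 - u ^ 2) ≠ 0 := by
    have : 1 / 4 - u ^ 2 = -((u + 1 / 2) * (u - 1 / 2)) := by ring
    rw [this]
    exact neg_ne_zero.mpr (mul_ne_zero h1 h2)
  rw [div_sub_div _ _ h1 h2, div_eq_div_iff (mul_ne_zero h1 h2) h3]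
  ring

lemma integrable_ee : Integrable ee := by
  apply Integrable.mono' (integrable_inv_one_add_sq.const_mul 8) continuous_ee.aestronglyMeasurable
  apply ae_of_all
  intro u
  rw [Real.norm_eq_abs, ← div_eq_mul_inv]
  have hpi := Real.pi_gt_three
  rcases le_or_gt |u| 1 with h | h
  · have h1 : |ee u| ≤ 2 := by
      unfold ee
      have a1 := abs_le.mp h
      have b1 := sq_nonneg' (u + 1 / 2)
      have b2 := sq_le_one (u + 1 / 2)
      have b3 := sq_nonneg' (u - 1 / 2)
      have b4 := sq_le_one (u - 1 / 2)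
      have c1 : |(u + 1 / 2) * sq (u + 1 / 2)| ≤ 1 := by
        rcases eq_or_ne (u + 1 / 2) 0 with h0 | h0
        · rw [h0]; simp
        · have h3 := sq_mul (u + 1 / 2)
          have h4 := Real.sin_sq_le_one (π * (u + 1 / 2))
          have h5 : sq (u + 1 / 2) * (u + 1 / 2) ^ 2 ≤ 1 := by
            rw [h3, div_le_one (by positivity)]
            nlinarith
          rw [abs_mul, abs_of_nonneg b1]
          nlinarith [sq_abs (u + 1 / 2), sq_nonneg (|u + 1 / 2| - 1), abs_nonneg (u + 1 / 2)]
      have c2 : |(u - 1 / 2) * sq (u - 1 / 2)| ≤ 1 := by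
        rcases eq_or_ne (u - 1 / 2) 0 with h0 | h0
        · rw [h0]; simp
        · have h3 := sq_mul (u - 1 / 2)
          have h4 := Real.sin_sq_le_one (π * (u - 1 / 2))
          have h5 : sq (u - 1 / 2) * (u - 1 / 2) ^ 2 ≤ 1 := by
            rw [h3, div_le_one (by positivity)]
            nlinarith
          rw [abs_mul, abs_of_nonneg b3]
          nlinarith [sq_abs (u - 1 / 2), sq_nonneg (|u - 1 / 2| - 1), abs_nonneg (u - 1 / 2)]
      exact (abs_sub _ _).trans (by linarith)
    refine h1.trans ?_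
    rw [le_div_iff₀ (by positivity)]
    nlinarith [sq_abs u, abs_nonneg u]
  · have hu2 : 1 < u ^ 2 := by nlinarith [sq_abs u, abs_nonneg u]
    have h1 : u + 1 / 2 ≠ 0 := by intro h0; have : u = -(1 / 2) := by linarith
                                  rw [this] at hu2; norm_num at hu2
    have h2 : u - 1 / 2 ≠ 0 := by intro h0; have : u = 1 / 2 := by linarith
                                  rw [this] at hu2; norm_num at hu2
    rw [ee_eq h1 h2, abs_mul, abs_div, abs_div, abs_one, abs_of_nonneg (sq_nonneg (Real.sin _)),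
      abs_of_nonneg (sq_nonneg π), abs_of_neg (by linarith : 1 / 4 - u ^ 2 < 0)]
    have h3 : Real.sin (π * (u + 1 / 2)) ^ 2 / π ^ 2 ≤ 1 := by
      rw [div_le_one (by positivity)]
      nlinarith [Real.sin_sq_le_one (π * (u + 1 / 2))]
    refine (mul_le_of_le_one_left (by apply div_nonneg zero_le_one; linarith) h3).trans ?_
    rw [div_le_div_iff₀ (by linarith) (by positivity)]
    nlinarith

lemma cosT_ee (ξ : ℝ) : cosT ee ξ = gs ξ := by
  have h : cosT gs = ee := by ext u; exact cosT_gs u
  rw [← h]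
  apply cosT_cosT continuous_gs _ gs_neg
  · rw [h]; exact integrable_ee
  · exact integrable_of_supp continuous_gs (fun x hx => gs_zero hx)

/-! ### The majorant and the minorant -/

/-- Selberg's minorant of `[-b, b]`. -/
noncomputable def Mn (b x : ℝ) : ℝ := 1 - bP (-x - b) - bP (x - b)
/-- Selberg's majorant of `[-b, b]`. -/
noncomputable def Mj (b x : ℝ) : ℝ := bP (x + b) + bP (b - x) - 1

lemma Mn_neg (b x : ℝ) : Mn b (-x) = Mn b x := by
  unfold Mn; rw [neg_neg]; ring
lemma Mj_neg (b x : ℝ) : Mj b (-x) = Mj b x := by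
  unfold Mj; rw [show -x + b = b - x by ring, show b - -x = x + b by ring]; ring

lemma continuous_Mn (b : ℝ) : Continuous (Mn b) := by
  unfold Mn
  have := continuous_bP
  fun_prop

lemma continuous_Mj (b : ℝ) : Continuous (Mj b) := by
  unfold Mj
  have := continuous_bP
  fun_prop

lemma Mn_eq {b : ℝ} (hb : 0 < b) (x : ℝ) : Mn b x = (if |x| ≤ b then 1 else 0) - sl (x - b) - sl (-x - b) := by
  unfold Mn sl
  rcases lt_or_ge b x with h | h
  · have h1 : ¬ |x| ≤ b := by rw [abs_of_pos (by linarith)]; linarith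
    rw [if_neg h1, if_pos (by linarith : 0 < x - b), if_neg (by linarith : ¬ 0 < -x - b)]
    ring
  · rcases lt_or_ge x (-b) with h' | h'
    · have h1 : ¬ |x| ≤ b := by rw [abs_of_neg (by linarith)]; linarith
      rw [if_neg h1, if_neg (by linarith : ¬ 0 < x - b), if_pos (by linarith : 0 < -x - b)]
      ring
    · rw [if_pos (abs_le.mpr ⟨h', h⟩), if_neg (by linarith : ¬ 0 < x - b), if_neg (by linarith : ¬ 0 < -x - b)]
      ring

lemma Mj_eq {b : ℝ} (hb : 0 < b) (x : ℝ) : Mj b x = (if |x| < b then 1 else 0) + sl (x + b) + sl (b - x) := by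
  unfold Mj sl
  rcases le_or_gt b x with h | h
  · have h1 : ¬ |x| < b := by rw [abs_of_pos (by linarith)]; linarith
    rw [if_neg h1, if_pos (by linarith : 0 < x + b), if_neg (by linarith : ¬ 0 < b - x)]
    ring
  · rcases le_or_gt x (-b) with h' | h'
    · have h1 : ¬ |x| < b := by rw [abs_of_neg (by linarith)]; linarith
      rw [if_neg h1, if_neg (by linarith : ¬ 0 < x + b), if_pos (by linarith : 0 < b - x)]
      ring
    · rw [if_pos (abs_lt.mpr ⟨h', h⟩), if_pos (by linarith : 0 < x + b), if_pos (by linarith : 0 < b - x)]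
      ring

lemma ind_le_eq (b : ℝ) : (fun x : ℝ => if |x| ≤ b then (1 : ℝ) else 0) = (Icc (-b) b).indicator (fun _ => 1) := by
  ext x
  simp only [indicator, mem_Icc, abs_le]

lemma ind_lt_eq (b : ℝ) : (fun x : ℝ => if |x| < b then (1 : ℝ) else 0) = (Ioo (-b) b).indicator (fun _ => 1) := by
  ext x
  simp only [indicator, mem_Ioo, abs_lt]

lemma integrable_ind_le (b : ℝ) : Integrable (fun x : ℝ => if |x| ≤ b then (1 : ℝ) else 0) := by
  rw [ind_le_eq, integrable_indicator_iff measurableSet_Icc]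
  exact integrableOn_const (by simp)

lemma integrable_ind_lt (b : ℝ) : Integrable (fun x : ℝ => if |x| < b then (1 : ℝ) else 0) := by
  rw [ind_lt_eq, integrable_indicator_iff measurableSet_Ioo]
  exact integrableOn_const (by simp)

lemma integral_ind_le {b : ℝ} (hb : 0 < b) : ∫ x : ℝ, (if |x| ≤ b then (1 : ℝ) else 0) = 2 * b := by
  rw [ind_le_eq, integral_indicator measurableSet_Icc, setIntegral_const, smul_eq_mul, Measure.real,
    Real.volume_Icc, ENNReal.toReal_ofReal (by linarith)]
  ring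

lemma integral_ind_lt {b : ℝ} (hb : 0 < b) : ∫ x : ℝ, (if |x| < b then (1 : ℝ) else 0) = 2 * b := by
  rw [ind_lt_eq, integral_indicator measurableSet_Ioo, setIntegral_const, smul_eq_mul, Measure.real,
    Real.volume_Ioo, ENNReal.toReal_ofReal (by linarith)]
  ring

lemma integrable_Mn {b : ℝ} (hb : 0 < b) : Integrable (Mn b) := by
  have h : Mn b = fun x => (if |x| ≤ b then 1 else 0) - sl (x - b) - sl (-x - b) := funext fun x => Mn_eq hb x
  rw [h]
  apply ((integrable_ind_le b).sub (integrable_sl.comp_sub_right b)).sub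
  exact (integrable_sl.comp_sub_right b).comp_neg

lemma integrable_Mj {b : ℝ} (hb : 0 < b) : Integrable (Mj b) := by
  have h : Mj b = fun x => (if |x| < b then 1 else 0) + sl (x + b) + sl (b - x) := funext fun x => Mj_eq hb x
  rw [h]
  apply ((integrable_ind_lt b).add (integrable_sl.comp_add_right b)).add
  exact integrable_sl.comp_sub_left b

lemma integral_Mn' {b : ℝ} (hb : 0 < b) : ∫ x, Mn b x = 2 * b - 2 * ∫ x, sl x := by
  have h : Mn b = fun x => (if |x| ≤ b then 1 else 0) - sl (x - b) - sl (-x - b) := funext fun x => Mn_eq hb x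
  have i2 : Integrable (fun x => sl (-x - b)) := (integrable_sl.comp_sub_right b).comp_neg
  have i1 : Integrable (fun x => sl (x - b)) := integrable_sl.comp_sub_right b
  have i3 : Integrable (fun x : ℝ => (if |x| ≤ b then (1 : ℝ) else 0) - sl (x - b)) := (integrable_ind_le b).sub i1
  rw [h]
  simp only
  rw [integral_sub i3 i2, integral_sub (integrable_ind_le b) i1, integral_ind_le hb,
    integral_sub_right_eq_self (fun x => sl x) b]
  have e : ∫ x, sl (-x - b) = ∫ x, sl x := by
    rw [integral_neg_eq_self (fun x => sl (x - b)), integral_sub_right_eq_self (fun x => sl x) b]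
  rw [e]
  ring

lemma integral_Mj' {b : ℝ} (hb : 0 < b) : ∫ x, Mj b x = 2 * b + 2 * ∫ x, sl x := by
  have h : Mj b = fun x => (if |x| < b then 1 else 0) + sl (x + b) + sl (b - x) := funext fun x => Mj_eq hb x
  have i2 : Integrable (fun x => sl (b - x)) := integrable_sl.comp_sub_left b
  have i1 : Integrable (fun x => sl (x + b)) := integrable_sl.comp_add_right b
  have i3 : Integrable (fun x : ℝ => (if |x| < b then (1 : ℝ) else 0) + sl (x + b)) := (integrable_ind_lt b).add i1
  rw [h]
  simp only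
  rw [integral_add i3 i2, integral_add (integrable_ind_lt b) i1, integral_ind_lt hb,
    integral_add_right_eq_self (fun x => sl x) b, integral_sub_left_eq_self sl volume b]
  ring

/-- The relation between the minorant and the translated majorant. -/
lemma Mn_sub_Mj (b x : ℝ) : Mn b x - Mj b (x - 1) = (ee (x - (1 / 2 - b)) - ee (x - (b + 1 / 2))) - (sq (x - b) + sq (x - (b + 1))) := by
  unfold Mn Mj
  have h1 := bP_reflection (x + b)
  have h2 := bP_recurrence (x + b)
  have h3 := bP_recurrence (x - b)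
  have h4 := bP_reflection (x - 1 - b)
  rw [show -(x + b) = -x - b by ring] at h1
  rw [show -(x - 1 - b) = b - (x - 1) by ring] at h4
  rw [show x + b - 1 = x - 1 + b by ring] at h2
  rw [show x - b - 1 = x - 1 - b by ring] at h3
  have e1 : ee (x - (1 / 2 - b)) = (x + b) * sq (x + b) - (x - 1 + b) * sq (x - 1 + b) := by
    unfold ee
    rw [show x - (1 / 2 - b) + 1 / 2 = x + b by ring, show x - (1 / 2 - b) - 1 / 2 = x - 1 + b by ring]
  have e2 : ee (x - (b + 1 / 2)) = (x - b) * sq (x - b) - (x - 1 - b) * sq (x - 1 - b) := by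
    unfold ee
    rw [show x - (b + 1 / 2) + 1 / 2 = x - b by ring, show x - (b + 1 / 2) - 1 / 2 = x - 1 - b by ring]
  rw [e1, e2, show x - (b + 1) = x - 1 - b by ring]
  linarith

lemma sinT_shift_sum {ξ : ℝ} (hξ : 1 ≤ |ξ|) {b : ℝ} (hb : 0 < b) :
    Real.sin (2 * π * ξ) * cosT (Mj b) ξ = 0 ∧ cosT (Mn b) ξ = Real.cos (2 * π * ξ) * cosT (Mj b) ξ := by
  have hM := integrable_Mn hb
  have hJ := integrable_Mj hb
  have hJ1 : Integrable (fun x => Mj b (x - 1)) := hJ.comp_sub_right 1
  have i1 : Integrable (fun x => ee (x - (1 / 2 - b))) := integrable_ee.comp_sub_right _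
  have i2 : Integrable (fun x => ee (x - (b + 1 / 2))) := integrable_ee.comp_sub_right _
  have i3 : Integrable (fun x => sq (x - b)) := integrable_sq.comp_sub_right _
  have i4 : Integrable (fun x => sq (x - (b + 1))) := integrable_sq.comp_sub_right _
  have hrel : (fun x => Mn b x - Mj b (x - 1)) = fun x => (ee (x - (1 / 2 - b)) - ee (x - (b + 1 / 2))) - (sq (x - b) + sq (x - (b + 1))) :=
    funext fun x => Mn_sub_Mj b x
  have i12 : Integrable (fun x => ee (x - (1 / 2 - b)) - ee (x - (b + 1 / 2))) := i1.sub i2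
  have i34 : Integrable (fun x => sq (x - b) + sq (x - (b + 1))) := i3.add i4
  have hee : cosT ee ξ = 0 := by rw [cosT_ee, gs_zero hξ]
  have hsq : cosT sq ξ = 0 := by rw [cosT_sq, tri_eq_zero hξ]
  constructor
  · have h1 : sinT (fun x => Mn b x - Mj b (x - 1)) ξ = - (Real.sin (2 * π * ξ) * cosT (Mj b) ξ) := by
      rw [sinT_sub hM hJ1, sinT_even (Mn_neg b), sinT_shift hJ (Mj_neg b), mul_one]
      ring
    have h2 : sinT (fun x => Mn b x - Mj b (x - 1)) ξ = 0 := by
      rw [hrel, sinT_sub i12 i34, sinT_sub i1 i2, sinT_shift integrable_ee ee_neg, sinT_shift integrable_ee ee_neg, hee]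
      have h3 : sinT (fun x => sq (x - b) + sq (x - (b + 1))) ξ = 0 := by
        rw [sinT_add i3 i4, sinT_shift integrable_sq sq_neg, sinT_shift integrable_sq sq_neg, hsq]
        ring
      rw [h3]
      ring
    linarith
  · have h1 : cosT (fun x => Mn b x - Mj b (x - 1)) ξ = cosT (Mn b) ξ - Real.cos (2 * π * ξ) * cosT (Mj b) ξ := by
      rw [cosT_sub hM hJ1, cosT_shift hJ (Mj_neg b), mul_one]
    have h2 : cosT (fun x => Mn b x - Mj b (x - 1)) ξ = 0 := by
      rw [hrel, cosT_sub i12 i34, cosT_sub i1 i2, cosT_shift integrable_ee ee_neg, cosT_shift integrable_ee ee_neg, hee,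
        cosT_add i3 i4, cosT_shift integrable_sq sq_neg, cosT_shift integrable_sq sq_neg, hsq]
      ring
    linarith

lemma integral_sl : ∫ x, sl x = 1 / 2 := by
  have hb : (0 : ℝ) < 1 := one_pos
  have hM := integrable_Mn hb
  have hJ := integrable_Mj hb
  have hJ1 : Integrable (fun x => Mj 1 (x - 1)) := hJ.comp_sub_right 1
  have i1 : Integrable (fun x => ee (x - (1 / 2 - 1))) := integrable_ee.comp_sub_right _
  have i2 : Integrable (fun x => ee (x - (1 + 1 / 2))) := integrable_ee.comp_sub_right _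
  have i3 : Integrable (fun x => sq (x - 1)) := integrable_sq.comp_sub_right _
  have i4 : Integrable (fun x => sq (x - (1 + 1))) := integrable_sq.comp_sub_right _
  have hrel : (fun x => Mn 1 x - Mj 1 (x - 1)) = fun x => (ee (x - (1 / 2 - 1)) - ee (x - (1 + 1 / 2))) - (sq (x - 1) + sq (x - (1 + 1))) :=
    funext fun x => Mn_sub_Mj 1 x
  have i12 : Integrable (fun x => ee (x - (1 / 2 - 1)) - ee (x - (1 + 1 / 2))) := i1.sub i2
  have i34 : Integrable (fun x => sq (x - 1) + sq (x - (1 + 1))) := i3.add i4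
  have h1 : ∫ x, (Mn 1 x - Mj 1 (x - 1)) = -4 * ∫ x, sl x := by
    rw [integral_sub hM hJ1, integral_sub_right_eq_self (fun x => Mj 1 x) 1, integral_Mn' hb, integral_Mj' hb]
    ring
  have h2 : ∫ x, (Mn 1 x - Mj 1 (x - 1)) = -2 := by
    rw [hrel, integral_sub i12 i34, integral_sub i1 i2, integral_add i3 i4,
      integral_sub_right_eq_self (fun x => ee x), integral_sub_right_eq_self (fun x => ee x),
      integral_sub_right_eq_self (fun x => sq x), integral_sub_right_eq_self (fun x => sq x)]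
    have h3 : ∫ x, sq x = 1 := by
      have := cosT_sq 0
      unfold cosT at this
      simp only [mul_zero, Real.cos_zero, mul_one] at this
      rw [this, tri_eq (by simp)]
      simp
    rw [h3]
    ring
  linarith

lemma integral_Mn {b : ℝ} (hb : 0 < b) : ∫ x, Mn b x = 2 * b - 1 := by
  rw [integral_Mn' hb, integral_sl]; ring

lemma integral_Mj {b : ℝ} (hb : 0 < b) : ∫ x, Mj b x = 2 * b + 1 := by
  rw [integral_Mj' hb, integral_sl]; ring

lemma cosT_zero_eq (f : ℝ → ℝ) : cosT f 0 = ∫ x, f x := by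
  unfold cosT; simp

lemma cosT_Mj_eq_zero {b : ℝ} (hb : 0 < b) {ξ : ℝ} (hξ : 1 ≤ |ξ|) : cosT (Mj b) ξ = 0 := by
  by_contra hne
  have hc : Continuous (cosT (Mj b)) := TestFn.continuous_cosT_of_integrable (integrable_Mj hb)
  have h1 : ∀ᶠ η in 𝓝 ξ, cosT (Mj b) η ≠ 0 := hc.continuousAt.eventually_ne hne
  obtain ⟨r, hr, h2⟩ := Metric.eventually_nhds_iff.mp h1
  -- move away from zero by a small amount
  have hstep : ∀ d : ℝ, 0 ≤ d → d < r → Real.sin (2 * π * ((1 + d / |ξ|) * ξ)) = 0 := by
    intro d hd0 hd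
    have hx0 : 0 < |ξ| := by linarith
    have h3 : 1 ≤ |(1 + d / |ξ|) * ξ| := by
      rw [abs_mul, abs_of_pos (by positivity)]
      nlinarith [div_nonneg hd0 hx0.le]
    have h4 := (sinT_shift_sum h3 hb).1
    have h5 : cosT (Mj b) ((1 + d / |ξ|) * ξ) ≠ 0 := by
      apply h2
      rw [Real.dist_eq, show (1 + d / |ξ|) * ξ - ξ = d / |ξ| * ξ by ring, abs_mul, abs_of_nonneg (by positivity : 0 ≤ d / |ξ|),
        div_mul_cancel₀ _ hx0.ne']
      exact hd
    rcases mul_eq_zero.mp h4 with h | h
    · exact h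
    · exact absurd h h5
  have hx0 : 0 < |ξ| := by linarith
  have hs0 := hstep 0 le_rfl hr
  have hs1 := hstep (min (r / 2) (1 / 8)) (by positivity) (lt_of_le_of_lt (min_le_left _ _) (by linarith))
  set d := min (r / 2) (1 / 8) with hd
  have hd0 : 0 < d := by positivity
  have hd1 : d ≤ 1 / 8 := min_le_right _ _
  rw [zero_div, add_zero, one_mul] at hs0
  have e : 2 * π * ((1 + d / |ξ|) * ξ) = 2 * π * ξ + 2 * π * (d / |ξ| * ξ) := by ring
  rw [e, Real.sin_add, hs0, zero_mul, zero_add] at hs1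
  have hcos : Real.cos (2 * π * ξ) ≠ 0 := by
    intro h
    have := Real.sin_sq_add_cos_sq (2 * π * ξ)
    rw [hs0, h] at this
    norm_num at this
  have hsin : Real.sin (2 * π * (d / |ξ| * ξ)) = 0 := by
    rcases mul_eq_zero.mp hs1 with h | h
    · exact absurd h hcos
    · exact h
  have hpi := Real.pi_pos
  rcases abs_choice ξ with h | h
  · have h6 : d / |ξ| * ξ = d := by rw [h]; rw [h] at hx0; field_simp
    rw [h6] at hsin
    have : 0 < Real.sin (2 * π * d) := Real.sin_pos_of_pos_of_lt_pi (by positivity) (by nlinarith)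
    linarith
  · have h6 : d / |ξ| * ξ = -d := by
      have hne0 : ξ ≠ 0 := by rintro rfl; simp at hx0
      rw [h]; field_simp
    rw [h6, mul_neg, Real.sin_neg] at hsin
    have : 0 < Real.sin (2 * π * d) := Real.sin_pos_of_pos_of_lt_pi (by positivity) (by nlinarith)
    linarith

lemma cosT_Mn_eq_zero {b : ℝ} (hb : 0 < b) {ξ : ℝ} (hξ : 1 ≤ |ξ|) : cosT (Mn b) ξ = 0 := by
  rw [(sinT_shift_sum hξ hb).2, cosT_Mj_eq_zero hb hξ, mul_zero]

end Pool.Agent.H5
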