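import Mathlib
import Pool.Agent.H5.Selberg

open MeasureTheory Set Filter Topology FourierTransform
open scoped Real Interval ContDiff

/-!
# The correction terms beyond the Beurling-Selberg functions
-/

namespace Pool.Agent.H5

open Pool.Agent.H6

/-- a tent of width `3/5` -/
noncomputable def tw (t : ℝ) : ℝ := tri (t / (3 / 5))

lemma continuous_tw : Continuous tw := continuous_tri.comp (continuous_id.div_const _)
lemma tw_neg (t : ℝ) : tw (-t) = tw t := by unfold tw; rw [neg_div, tri_even]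
lemma tw_nonneg (t : ℝ) : 0 ≤ tw t := tri_nonneg _
lemma tw_zero {t : ℝ} (ht : 3 / 5 ≤ |t|) : tw t = 0 := by
  unfold tw
  apply tri_eq_zero
  rw [abs_div, abs_of_pos (by norm_num : (0 : ℝ) < 3 / 5), le_div_iff₀ (by norm_num)]
  linarith
lemma tw_eq {t : ℝ} (ht : |t| ≤ 3 / 5) : tw t = 1 - 5 / 3 * |t| := by
  unfold tw
  rw [tri_eq]
  · rw [abs_div, abs_of_pos (by norm_num : (0 : ℝ) < 3 / 5)]; ring
  · rw [abs_div, abs_of_pos (by norm_num : (0 : ℝ) < 3 / 5), div_le_one (by norm_num)]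
    exact ht
lemma integrable_tw : Integrable tw := integrable_tri.comp_div (by norm_num)

lemma cosT_tw (y : ℝ) : cosT tw y = 3 / 5 * sq (3 / 5 * y) := by
  have h := cosT_dilate tri (R := 3 / 5) (by norm_num) y
  rw [cosT_tri] at h
  exact h

lemma integral_tw_cos (m y θ : ℝ) : ∫ t, tw (t - m) * Real.cos (2 * π * y * t + θ)
    = Real.cos (2 * π * y * m + θ) * (3 / 5 * sq (3 / 5 * y)) := by
  rw [← integral_add_right_eq_self (fun t => tw (t - m) * Real.cos (2 * π * y * t + θ)) m]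
  have h1 : ∀ t, tw (t + m - m) * Real.cos (2 * π * y * (t + m) + θ)
      = Real.cos (2 * π * y * m + θ) * (tw t * Real.cos (2 * π * t * y)) - Real.sin (2 * π * y * m + θ) * (tw t * Real.sin (2 * π * t * y)) := by
    intro t
    rw [add_sub_cancel_right, show 2 * π * y * (t + m) + θ = 2 * π * t * y + (2 * π * y * m + θ) by ring, Real.cos_add]
    ring
  simp_rw [h1]
  rw [integral_sub ((integrable_mul_cos integrable_tw y).const_mul _) ((integrable_mul_sin integrable_tw y).const_mul _),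
    integral_const_mul, integral_const_mul]
  have h2 := sinT_even tw_neg y
  unfold sinT at h2
  have h3 := cosT_tw y
  unfold cosT at h3
  rw [h2, h3]
  ring

lemma integrable_tw_cos (m y θ : ℝ) : Integrable (fun t => tw (t - m) * Real.cos (2 * π * y * t + θ)) := by
  apply Integrable.mul_bdd (c := 1) (integrable_tw.comp_sub_right m)
  · apply Continuous.aestronglyMeasurable; fun_prop
  · exact ae_of_all _ fun u => by rw [Real.norm_eq_abs]; exact Real.abs_cos_le_one _

/-- The frequency side of the correction. -/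
noncomputable def GG (b t : ℝ) : ℝ := 4 / 15 * (tw t * Real.cos (2 * π * (b - 1 / 6) * t)
  - 1 / 2 * (tw (t - 1) * Real.cos (2 * π * (b - 1 / 6) * t + π / 3) + tw (t + 1) * Real.cos (2 * π * (b - 1 / 6) * t - π / 3)))

/-- The frequency side of the central correction. -/
noncomputable def CC (t : ℝ) : ℝ := 4 / 15 * (tw t - 1 / 2 * (tw (t - 1) + tw (t + 1)))

lemma GG_neg (b t : ℝ) : GG b (-t) = GG b t := by
  unfold GG
  rw [tw_neg, show -t - 1 = -(t + 1) by ring, show -t + 1 = -(t - 1) by ring, tw_neg, tw_neg,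
    show 2 * π * (b - 1 / 6) * -t = -(2 * π * (b - 1 / 6) * t) by ring, Real.cos_neg,
    show -(2 * π * (b - 1 / 6) * t) + π / 3 = -(2 * π * (b - 1 / 6) * t - π / 3) by ring, Real.cos_neg,
    show -(2 * π * (b - 1 / 6) * t) - π / 3 = -(2 * π * (b - 1 / 6) * t + π / 3) by ring, Real.cos_neg]
  ring

lemma CC_neg (t : ℝ) : CC (-t) = CC t := by
  unfold CC
  rw [tw_neg, show -t - 1 = -(t + 1) by ring, show -t + 1 = -(t - 1) by ring, tw_neg, tw_neg]
  ring

lemma continuous_GG (b : ℝ) : Continuous (GG b) := by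
  unfold GG
  have := continuous_tw
  fun_prop

lemma continuous_CC : Continuous CC := by
  unfold CC
  have := continuous_tw
  fun_prop

lemma GG_zero (b : ℝ) {t : ℝ} (ht : 2 ≤ |t|) : GG b t = 0 := by
  unfold GG
  have h1 : 3 / 5 ≤ |t - 1| := by
    have := abs_sub_abs_le_abs_sub t 1
    rw [abs_one] at this
    linarith
  have h2 : 3 / 5 ≤ |t + 1| := by
    have := abs_sub_abs_le_abs_sub t (-1)
    rw [abs_neg, abs_one, sub_neg_eq_add] at this
    linarith
  rw [tw_zero (by linarith), tw_zero h1, tw_zero h2]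
  ring

lemma CC_zero {t : ℝ} (ht : 2 ≤ |t|) : CC t = 0 := by
  unfold CC
  have h1 : 3 / 5 ≤ |t - 1| := by
    have := abs_sub_abs_le_abs_sub t 1
    rw [abs_one] at this
    linarith
  have h2 : 3 / 5 ≤ |t + 1| := by
    have := abs_sub_abs_le_abs_sub t (-1)
    rw [abs_neg, abs_one, sub_neg_eq_add] at this
    linarith
  rw [tw_zero (by linarith), tw_zero h1, tw_zero h2]
  ring

lemma GG_sub_CC_nonneg (b : ℝ) {t : ℝ} (ht : 1 ≤ |t|) : 0 ≤ GG b t - CC t := by
  have key : ∀ t : ℝ, 1 ≤ t → 0 ≤ GG b t - CC t := by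
    intro t ht
    unfold GG CC
    rw [tw_zero (t := t) (by rw [abs_of_pos (by linarith)]; linarith),
      tw_zero (t := t + 1) (by rw [abs_of_pos (by linarith)]; linarith)]
    have h1 := Real.cos_le_one (2 * π * (b - 1 / 6) * t + π / 3)
    have h2 := tw_nonneg (t - 1)
    nlinarith [mul_nonneg h2 (by linarith : 0 ≤ 1 - Real.cos (2 * π * (b - 1 / 6) * t + π / 3))]
  rcases abs_choice t with h | h
  · exact key t (by rwa [h] at ht)
  · rw [← GG_neg, ← CC_neg]
    exact key (-t) (by rwa [h] at ht)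

lemma GG_at_zero (b : ℝ) : GG b 0 = 4 / 15 := by
  unfold GG
  rw [tw_eq (t := 0) (by norm_num), tw_zero (t := 0 - 1) (by norm_num), tw_zero (t := 0 + 1) (by norm_num)]
  simp

lemma CC_at_zero : CC 0 = 4 / 15 := by
  unfold CC
  rw [tw_eq (t := 0) (by norm_num), tw_zero (t := 0 - 1) (by norm_num), tw_zero (t := 0 + 1) (by norm_num)]
  simp

/-- The correction for both endpoints. -/
noncomputable def Hh (b x : ℝ) : ℝ := hc (x - b) + hc (-x - b)

noncomputable def cc (x : ℝ) : ℝ := 8 / 25 * Real.sin (π * x) ^ 2 * sq (3 / 5 * x)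

lemma cc_nonneg (x : ℝ) : 0 ≤ cc x := by
  unfold cc
  have := sq_nonneg' (3 / 5 * x)
  positivity

lemma cosT_GG (b x : ℝ) : cosT (GG b) x = Hh b x := by
  unfold cosT
  set a := b - 1 / 6 with ha
  have h1 : ∀ t, GG b t * Real.cos (2 * π * t * x) =
      2 / 15 * (tw (t - 0) * Real.cos (2 * π * (a + x) * t + 0)) + 2 / 15 * (tw (t - 0) * Real.cos (2 * π * (a - x) * t + 0))
      - (1 / 15 * (tw (t - 1) * Real.cos (2 * π * (a + x) * t + π / 3)) + 1 / 15 * (tw (t - 1) * Real.cos (2 * π * (a - x) * t + π / 3)))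
      - (1 / 15 * (tw (t - (-1)) * Real.cos (2 * π * (a + x) * t + (-(π / 3)))) + 1 / 15 * (tw (t - (-1)) * Real.cos (2 * π * (a - x) * t + (-(π / 3))))) := by
    intro t
    unfold GG
    rw [← ha, sub_zero, sub_neg_eq_add]
    rw [show 2 * π * (a + x) * t + 0 = 2 * π * a * t + 2 * π * t * x by ring,
      show 2 * π * (a - x) * t + 0 = 2 * π * a * t - 2 * π * t * x by ring,
      show 2 * π * (a + x) * t + π / 3 = (2 * π * a * t + π / 3) + 2 * π * t * x by ring,
      show 2 * π * (a - x) * t + π / 3 = (2 * π * a * t + π / 3) - 2 * π * t * x by ring,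
      show 2 * π * (a + x) * t + -(π / 3) = (2 * π * a * t - π / 3) + 2 * π * t * x by ring,
      show 2 * π * (a - x) * t + -(π / 3) = (2 * π * a * t - π / 3) - 2 * π * t * x by ring]
    simp only [Real.cos_add (_ : ℝ) (2 * π * t * x), Real.cos_sub (_ : ℝ) (2 * π * t * x)]
    ring
  simp_rw [h1]
  have i0 : ∀ m y θ c : ℝ, Integrable (fun t => c * (tw (t - m) * Real.cos (2 * π * y * t + θ))) := fun m y θ c =>
    (integrable_tw_cos m y θ).const_mul c
  have i1 : ∀ m y θ c y' : ℝ, Integrable (fun t => c * (tw (t - m) * Real.cos (2 * π * y * t + θ)) + c * (tw (t - m) * Real.cos (2 * π * y' * t + θ))) :=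
    fun m y θ c y' => (i0 m y θ c).add (i0 m y' θ c)
  rw [integral_sub, integral_sub (i1 _ _ _ _ _) (i1 _ _ _ _ _), integral_add (i0 _ _ _ _) (i0 _ _ _ _),
    integral_add (i0 _ _ _ _) (i0 _ _ _ _), integral_add (i0 _ _ _ _) (i0 _ _ _ _)]
  · simp only [integral_const_mul, integral_tw_cos]
    unfold Hh hc
    rw [Real.sin_sq_eq_half_sub, Real.sin_sq_eq_half_sub]
    have e1 : sq (3 / 5 * (x - b + 1 / 6)) = sq (3 / 5 * (a - x)) := by
      rw [← sq_neg]; congr 1; rw [ha]; ring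
    have e2 : sq (3 / 5 * (-x - b + 1 / 6)) = sq (3 / 5 * (a + x)) := by
      rw [← sq_neg]; congr 1; rw [ha]; ring
    have e3 : Real.cos (2 * (π * (x - b))) = Real.cos (2 * π * (a - x) * 1 + π / 3) := by
      rw [← Real.cos_neg]; congr 1; rw [ha]; ring
    have e4 : Real.cos (2 * (π * (-x - b))) = Real.cos (2 * π * (a + x) * 1 + π / 3) := by
      rw [← Real.cos_neg]; congr 1; rw [ha]; ring
    have e5 : Real.cos (2 * π * (a - x) * -1 + -(π / 3)) = Real.cos (2 * π * (a - x) * 1 + π / 3) := by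
      rw [← Real.cos_neg]; congr 1; ring
    have e6 : Real.cos (2 * π * (a + x) * -1 + -(π / 3)) = Real.cos (2 * π * (a + x) * 1 + π / 3) := by
      rw [← Real.cos_neg]; congr 1; ring
    rw [e1, e2, e3, e4, e5, e6]
    simp only [mul_zero, add_zero, Real.cos_zero]
    ring
  · exact (i1 _ _ _ _ _).sub (i1 _ _ _ _ _)
  · exact i1 _ _ _ _ _

lemma cosT_CC (x : ℝ) : cosT CC x = cc x := by
  unfold cosT
  have h1 : ∀ t, CC t * Real.cos (2 * π * t * x) =
      4 / 15 * (tw (t - 0) * Real.cos (2 * π * x * t + 0)) - 2 / 15 * (tw (t - 1) * Real.cos (2 * π * x * t + 0))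
      - 2 / 15 * (tw (t - (-1)) * Real.cos (2 * π * x * t + 0)) := by
    intro t
    unfold CC
    rw [sub_zero, sub_neg_eq_add, add_zero, show 2 * π * x * t = 2 * π * t * x by ring]
    ring
  simp_rw [h1]
  have i0 : ∀ m y θ c : ℝ, Integrable (fun t => c * (tw (t - m) * Real.cos (2 * π * y * t + θ))) := fun m y θ c =>
    (integrable_tw_cos m y θ).const_mul c
  rw [integral_sub, integral_sub (i0 _ _ _ _) (i0 _ _ _ _)]
  · simp only [integral_const_mul, integral_tw_cos]
    unfold cc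
    rw [Real.sin_sq_eq_half_sub]
    simp only [mul_zero, add_zero, Real.cos_zero]
    have e1 : Real.cos (2 * π * x * -1) = Real.cos (2 * π * x * 1) := by
      rw [← Real.cos_neg]; congr 1; ring
    have e2 : Real.cos (2 * (π * x)) = Real.cos (2 * π * x * 1) := by
      congr 1; ring
    rw [e1, e2]
    ring
  · exact (i0 _ _ _ _).sub (i0 _ _ _ _)
  · exact i0 _ _ _ _

/-! ### The integrals of the corrections -/

lemma integral_quad_cos (α β κ θ p q : ℝ) (hκ : κ ≠ 0) :
    ∫ t in p..q, (α * t ^ 2 + β * t) * Real.cos (κ * t + θ) =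
      ((α * q ^ 2 + β * q) * Real.sin (κ * q + θ) / κ + (2 * α * q + β) * Real.cos (κ * q + θ) / κ ^ 2
        - 2 * α * Real.sin (κ * q + θ) / κ ^ 3)
      - ((α * p ^ 2 + β * p) * Real.sin (κ * p + θ) / κ + (2 * α * p + β) * Real.cos (κ * p + θ) / κ ^ 2
        - 2 * α * Real.sin (κ * p + θ) / κ ^ 3) := by
  apply intervalIntegral.integral_eq_sub_of_hasDerivAt (f := fun t => (α * t ^ 2 + β * t) * Real.sin (κ * t + θ) / κ
    + (2 * α * t + β) * Real.cos (κ * t + θ) / κ ^ 2 - 2 * α * Real.sin (κ * t + θ) / κ ^ 3)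
  · intro t _
    have h0 : HasDerivAt (fun t : ℝ => κ * t + θ) κ t := by
      simpa using ((hasDerivAt_id t).const_mul κ).add_const θ
    have h1 : HasDerivAt (fun t : ℝ => α * t ^ 2 + β * t) (α * (2 * t) + β) t := by
      have a1 := ((hasDerivAt_pow 2 t).const_mul α).add ((hasDerivAt_id t).const_mul β)
      have a2 : α * (2 * t) + β = α * (((2 : ℕ) : ℝ) * t ^ (2 - 1)) + β * 1 := by norm_num
      rw [a2]
      exact a1
    have h2 : HasDerivAt (fun t : ℝ => 2 * α * t + β) (2 * α) t := by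
      simpa using ((hasDerivAt_id t).const_mul (2 * α)).add_const β
    have hs := h0.sin
    have hcs := h0.cos
    have h3 := (((h1.mul hs).div_const κ).add ((h2.mul hcs).div_const (κ ^ 2))).sub ((hs.const_mul (2 * α)).div_const (κ ^ 3))
    have e : (α * t ^ 2 + β * t) * Real.cos (κ * t + θ) = ((α * (2 * t) + β) * Real.sin (κ * t + θ) + (α * t ^ 2 + β * t) * (Real.cos (κ * t + θ) * κ)) / κ
        + (2 * α * Real.cos (κ * t + θ) + (2 * α * t + β) * (-Real.sin (κ * t + θ) * κ)) / κ ^ 2 - 2 * α * (Real.cos (κ * t + θ) * κ) / κ ^ 3 := by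
      field_simp
      ring
    rw [e]
    exact h3
  · apply Continuous.intervalIntegrable
    fun_prop

lemma integral_tw_piece (κ θ : ℝ) : ∫ t in (0 : ℝ)..1, t * tw t * Real.cos (κ * t + θ)
    = ∫ t in (0 : ℝ)..(3 / 5), (-(5 / 3) * t ^ 2 + 1 * t) * Real.cos (κ * t + θ) := by
  have hc : Continuous (fun t => t * tw t * Real.cos (κ * t + θ)) := by
    have := continuous_tw
    fun_prop
  rw [← intervalIntegral.integral_add_adjacent_intervals (b := 3 / 5) (hc.intervalIntegrable _ _) (hc.intervalIntegrable _ _)]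
  have e1 : ∫ t in (3 / 5 : ℝ)..1, t * tw t * Real.cos (κ * t + θ) = 0 := by
    have : ∫ t in (3 / 5 : ℝ)..1, t * tw t * Real.cos (κ * t + θ) = ∫ t in (3 / 5 : ℝ)..1, (0 : ℝ) := by
      apply intervalIntegral.integral_congr
      intro t ht
      rw [uIcc_of_le (by norm_num)] at ht
      simp only
      rw [tw_zero (by rw [abs_of_pos (by linarith [ht.1])]; exact ht.1)]
      ring
    rw [this]; simp
  rw [e1, add_zero]
  apply intervalIntegral.integral_congr
  intro t ht
  rw [uIcc_of_le (by norm_num)] at ht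
  simp only
  rw [tw_eq (by rw [abs_of_nonneg ht.1]; exact ht.2), abs_of_nonneg ht.1]
  ring

lemma integral_tw_piece' (κ θ : ℝ) : ∫ t in (0 : ℝ)..1, t * tw (t - 1) * Real.cos (κ * t + θ)
    = ∫ t in (2 / 5 : ℝ)..1, (5 / 3 * t ^ 2 + (-(2 / 3)) * t) * Real.cos (κ * t + θ) := by
  have hc : Continuous (fun t => t * tw (t - 1) * Real.cos (κ * t + θ)) := by
    have := continuous_tw
    fun_prop
  rw [← intervalIntegral.integral_add_adjacent_intervals (b := 2 / 5) (hc.intervalIntegrable _ _) (hc.intervalIntegrable _ _)]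
  have e1 : ∫ t in (0 : ℝ)..(2 / 5), t * tw (t - 1) * Real.cos (κ * t + θ) = 0 := by
    have : ∫ t in (0 : ℝ)..(2 / 5), t * tw (t - 1) * Real.cos (κ * t + θ) = ∫ t in (0 : ℝ)..(2 / 5), (0 : ℝ) := by
      apply intervalIntegral.integral_congr
      intro t ht
      rw [uIcc_of_le (by norm_num)] at ht
      simp only
      rw [tw_zero (by rw [abs_of_neg (by linarith [ht.2])]; linarith [ht.2])]
      ring
    rw [this]; simp
  rw [e1, zero_add]
  apply intervalIntegral.integral_congr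
  intro t ht
  rw [uIcc_of_le (by norm_num)] at ht
  simp only
  rw [tw_eq (by rw [abs_of_nonpos (by linarith [ht.2])]; linarith [ht.1]), abs_of_nonpos (by linarith [ht.2])]
  ring

lemma abs_trig_comb (A B C x y κ : ℝ) (hx : |x| ≤ 1) (hy : |y| ≤ 1) :
    |A * x / κ + B * y / κ ^ 2 - C * x / κ ^ 3| ≤ |A| / |κ| + |B| / |κ| ^ 2 + |C| / |κ| ^ 3 := by
  have h1 : |A * x / κ| ≤ |A| / |κ| := by
    rw [abs_div, abs_mul]
    apply div_le_div_of_nonneg_right _ (abs_nonneg _)
    exact mul_le_of_le_one_right (abs_nonneg _) hx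
  have h2 : |B * y / κ ^ 2| ≤ |B| / |κ| ^ 2 := by
    rw [abs_div, abs_mul, abs_pow]
    apply div_le_div_of_nonneg_right _ (by positivity)
    exact mul_le_of_le_one_right (abs_nonneg _) hy
  have h3 : |C * x / κ ^ 3| ≤ |C| / |κ| ^ 3 := by
    rw [abs_div, abs_mul, abs_pow]
    apply div_le_div_of_nonneg_right _ (by positivity)
    exact mul_le_of_le_one_right (abs_nonneg _) hx
  calc |A * x / κ + B * y / κ ^ 2 - C * x / κ ^ 3| ≤ |A * x / κ + B * y / κ ^ 2| + |C * x / κ ^ 3| := abs_sub _ _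
    _ ≤ |A * x / κ| + |B * y / κ ^ 2| + |C * x / κ ^ 3| := by linarith [abs_add_le (A * x / κ) (B * y / κ ^ 2)]
    _ ≤ _ := by linarith

lemma I1_bound {κ : ℝ} (hκ : κ ≠ 0) : |∫ t in (0 : ℝ)..1, t * tw t * Real.cos (κ * t + 0)| ≤ 2 / |κ| ^ 2 + 20 / 3 / |κ| ^ 3 := by
  rw [integral_tw_piece, integral_quad_cos _ _ _ _ _ _ hκ]
  have h1 := abs_trig_comb (-(5 / 3) * (3 / 5 : ℝ) ^ 2 + 1 * (3 / 5)) (2 * -(5 / 3) * (3 / 5) + 1) (2 * -(5 / 3))
    (Real.sin (κ * (3 / 5) + 0)) (Real.cos (κ * (3 / 5) + 0)) κ (Real.abs_sin_le_one _) (Real.abs_cos_le_one _)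
  have h2 := abs_trig_comb (-(5 / 3) * (0 : ℝ) ^ 2 + 1 * 0) (2 * -(5 / 3) * 0 + 1) (2 * -(5 / 3))
    (Real.sin (κ * 0 + 0)) (Real.cos (κ * 0 + 0)) κ (Real.abs_sin_le_one _) (Real.abs_cos_le_one _)
  refine (abs_sub _ _).trans ?_
  refine (add_le_add h1 h2).trans ?_
  have e1 : |(-(5 / 3) * (3 / 5 : ℝ) ^ 2 + 1 * (3 / 5))| = 0 := by norm_num
  have e2 : |(2 * -(5 / 3) * (3 / 5) + 1 : ℝ)| = 1 := by norm_num
  have e3 : |(2 * -(5 / 3) : ℝ)| = 10 / 3 := by norm_num
  have e4 : |(-(5 / 3) * (0 : ℝ) ^ 2 + 1 * 0)| = 0 := by norm_num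
  have e5 : |(2 * -(5 / 3) * 0 + 1 : ℝ)| = 1 := by norm_num
  rw [e1, e2, e3, e4, e5]
  apply le_of_eq
  ring

lemma I2_bound {κ θ : ℝ} (hκ : κ ≠ 0) : |∫ t in (0 : ℝ)..1, t * tw (t - 1) * Real.cos (κ * t + θ)|
    ≤ 1 / |κ| + 10 / 3 / |κ| ^ 2 + 20 / 3 / |κ| ^ 3 := by
  rw [integral_tw_piece', integral_quad_cos _ _ _ _ _ _ hκ]
  have h1 := abs_trig_comb (5 / 3 * (1 : ℝ) ^ 2 + -(2 / 3) * 1) (2 * (5 / 3) * 1 + -(2 / 3)) (2 * (5 / 3))
    (Real.sin (κ * 1 + θ)) (Real.cos (κ * 1 + θ)) κ (Real.abs_sin_le_one _) (Real.abs_cos_le_one _)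
  have h2 := abs_trig_comb (5 / 3 * (2 / 5 : ℝ) ^ 2 + -(2 / 3) * (2 / 5)) (2 * (5 / 3) * (2 / 5) + -(2 / 3)) (2 * (5 / 3))
    (Real.sin (κ * (2 / 5) + θ)) (Real.cos (κ * (2 / 5) + θ)) κ (Real.abs_sin_le_one _) (Real.abs_cos_le_one _)
  refine (abs_sub _ _).trans ?_
  refine (add_le_add h1 h2).trans ?_
  have e1 : |(5 / 3 * (1 : ℝ) ^ 2 + -(2 / 3) * 1)| = 1 := by norm_num
  have e2 : |(2 * (5 / 3) * 1 + -(2 / 3) : ℝ)| = 8 / 3 := by norm_num
  have e3 : |(2 * (5 / 3) : ℝ)| = 10 / 3 := by norm_num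
  have e4 : |(5 / 3 * (2 / 5 : ℝ) ^ 2 + -(2 / 3) * (2 / 5))| = 0 := by norm_num
  have e5 : |(2 * (5 / 3) * (2 / 5) + -(2 / 3) : ℝ)| = 2 / 3 := by norm_num
  rw [e1, e2, e3, e4, e5]
  apply le_of_eq
  ring

lemma integral_abs_even {f : ℝ → ℝ} (hf : Continuous f) (he : ∀ x, f (-x) = f x) :
    ∫ t in (-1 : ℝ)..1, |t| * f t = 2 * ∫ t in (0 : ℝ)..1, t * f t := by
  have hc : Continuous (fun t => |t| * f t) := by fun_prop
  rw [← intervalIntegral.integral_add_adjacent_intervals (b := 0) (hc.intervalIntegrable _ _) (hc.intervalIntegrable _ _)]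
  have e2 : ∫ t in (-1 : ℝ)..0, |t| * f t = ∫ t in (0 : ℝ)..1, |t| * f t := by
    have := intervalIntegral.integral_comp_neg (a := 0) (b := 1) (fun t => |t| * f t)
    rw [neg_zero] at this
    rw [← this]
    congr 1
    ext t
    rw [he, abs_neg]
  have e3 : ∫ t in (0 : ℝ)..1, |t| * f t = ∫ t in (0 : ℝ)..1, t * f t := by
    apply intervalIntegral.integral_congr
    intro t ht
    rw [uIcc_of_le (by norm_num)] at ht
    simp only
    rw [abs_of_nonneg ht.1]
  rw [e2, e3]
  ring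

/-- The main term of the correction. -/
lemma integral_CC : ∫ t in (-1 : ℝ)..1, |t| * CC t = -(4 / 125) := by
  rw [integral_abs_even continuous_CC CC_neg]
  have hc1 : Continuous (fun t => t * tw t) := continuous_id.mul continuous_tw
  have hc2 : Continuous (fun t => t * tw (t - 1)) := by have := continuous_tw; fun_prop
  have e1 : ∫ t in (0 : ℝ)..1, t * CC t = ∫ t in (0 : ℝ)..1, (4 / 15 * (t * tw t) - 2 / 15 * (t * tw (t - 1))) := by
    apply intervalIntegral.integral_congr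
    intro t ht
    rw [uIcc_of_le (by norm_num)] at ht
    simp only
    unfold CC
    rw [tw_zero (t := t + 1) (by rw [abs_of_pos (by linarith [ht.1])]; linarith [ht.1])]
    ring
  rw [e1, intervalIntegral.integral_sub ((hc1.const_mul _).intervalIntegrable _ _) ((hc2.const_mul _).intervalIntegrable _ _),
    intervalIntegral.integral_const_mul, intervalIntegral.integral_const_mul]
  have e2 := integral_tw_piece 0 0
  have e3 := integral_tw_piece' 0 0
  simp only [zero_mul, add_zero, Real.cos_zero, mul_one] at e2 e3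
  rw [e2, e3]
  have e4 : ∫ t in (0 : ℝ)..(3 / 5), (-(5 / 3) * t ^ 2 + 1 * t) = 3 / 50 := by
    rw [intervalIntegral.integral_add (by apply Continuous.intervalIntegrable; fun_prop) (by apply Continuous.intervalIntegrable; fun_prop),
      intervalIntegral.integral_const_mul, intervalIntegral.integral_const_mul, integral_pow, integral_id]
    norm_num
  have e5 : ∫ t in (2 / 5 : ℝ)..1, (5 / 3 * t ^ 2 + -(2 / 3) * t) = 6 / 25 := by
    rw [intervalIntegral.integral_add (by apply Continuous.intervalIntegrable; fun_prop) (by apply Continuous.intervalIntegrable; fun_prop),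
      intervalIntegral.integral_const_mul, intervalIntegral.integral_const_mul, integral_pow, integral_id]
    norm_num
  rw [e4, e5]
  norm_num

lemma integral_GG_bound {b : ℝ} (hb : b - 1 / 6 ≠ 0) : |∫ t in (-1 : ℝ)..1, |t| * GG b t| ≤
    4 / 15 * (1 / |2 * π * (b - 1 / 6)| + 22 / 3 / |2 * π * (b - 1 / 6)| ^ 2 + 20 / |2 * π * (b - 1 / 6)| ^ 3) := by
  rw [integral_abs_even (continuous_GG b) (GG_neg b)]
  set κ := 2 * π * (b - 1 / 6) with hκ
  have hκ0 : κ ≠ 0 := mul_ne_zero (by positivity) hb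
  have hc1 : Continuous (fun t => t * tw t * Real.cos (κ * t + 0)) := by have := continuous_tw; fun_prop
  have hc2 : Continuous (fun t => t * tw (t - 1) * Real.cos (κ * t + π / 3)) := by have := continuous_tw; fun_prop
  have e1 : ∫ t in (0 : ℝ)..1, t * GG b t = ∫ t in (0 : ℝ)..1, (4 / 15 * (t * tw t * Real.cos (κ * t + 0))
      - 2 / 15 * (t * tw (t - 1) * Real.cos (κ * t + π / 3))) := by
    apply intervalIntegral.integral_congr
    intro t ht
    rw [uIcc_of_le (by norm_num)] at ht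
    simp only
    unfold GG
    rw [tw_zero (t := t + 1) (by rw [abs_of_pos (by linarith [ht.1])]; linarith [ht.1]), ← hκ, add_zero]
    ring
  rw [e1, intervalIntegral.integral_sub ((hc1.const_mul _).intervalIntegrable _ _) ((hc2.const_mul _).intervalIntegrable _ _),
    intervalIntegral.integral_const_mul, intervalIntegral.integral_const_mul]
  have h1 := I1_bound hκ0
  have h2 := I2_bound (θ := π / 3) hκ0
  set J1 := ∫ t in (0 : ℝ)..1, t * tw t * Real.cos (κ * t + 0)
  set J2 := ∫ t in (0 : ℝ)..1, t * tw (t - 1) * Real.cos (κ * t + π / 3)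
  have h3 : |2 * (4 / 15 * J1 - 2 / 15 * J2)| ≤ 8 / 15 * |J1| + 4 / 15 * |J2| := by
    have : 2 * (4 / 15 * J1 - 2 / 15 * J2) = 8 / 15 * J1 - 4 / 15 * J2 := by ring
    rw [this]
    refine (abs_sub _ _).trans ?_
    rw [abs_mul, abs_mul, abs_of_pos (by norm_num : (0 : ℝ) < 8 / 15), abs_of_pos (by norm_num : (0 : ℝ) < 4 / 15)]
  refine h3.trans ?_
  calc 8 / 15 * |J1| + 4 / 15 * |J2| ≤ 8 / 15 * (2 / |κ| ^ 2 + 20 / 3 / |κ| ^ 3) + 4 / 15 * (1 / |κ| + 10 / 3 / |κ| ^ 2 + 20 / 3 / |κ| ^ 3) := by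
        gcongr
    _ = 4 / 15 * (1 / |κ| + 22 / 3 / |κ| ^ 2 + 20 / |κ| ^ 3) := by ring

/-- The value of the linear functional on a function supported in `[-1, 1]` on the frequency side. -/
lemma integral_abs_cosT {f : ℝ → ℝ} (hc : Continuous f) (hi : Integrable f) (he : ∀ x, f (-x) = f x)
    (h0 : ∀ ξ, 1 ≤ |ξ| → cosT f ξ = 0) : ∫ t in (-1 : ℝ)..1, |t| * cosT f t = f 0 - ∫ x, sq x * f x := by
  have hcc : Continuous (cosT f) := TestFn.continuous_cosT_of_integrable hi
  have hii : Integrable (cosT f) := integrable_of_supp hcc h0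
  have e1 : ∫ t in (-1 : ℝ)..1, |t| * cosT f t = ∫ t, (cosT f t - tri t * cosT f t) := by
    rw [intervalIntegral.integral_of_le (by norm_num), ← integral_indicator measurableSet_Ioc]
    congr 1
    ext x
    simp only [indicator, mem_Ioc]
    split_ifs with h
    · rw [tri_eq (abs_le.mpr ⟨h.1.le, h.2⟩)]
      ring
    · have : 1 ≤ |x| := by
        rw [le_abs]
        by_contra hcon
        push Not at hcon
        exact h ⟨by linarith, by linarith⟩
      rw [h0 x this]
      ring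
  have hit : Integrable (fun t => tri t * cosT f t) := by
    apply integrable_of_supp (s := 1) (continuous_tri.mul hcc)
    intro x hx
    simp only [Pi.mul_apply]
    rw [h0 x hx, mul_zero]
  rw [e1, integral_sub hii hit, integral_mul_cosT integrable_tri hi continuous_tri hc, cosT_tri']
  congr 1
  rw [← cosT_zero_eq, cosT_cosT hc hi he hii]

end Pool.Agent.H5
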