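import Mathlib
import Pool.Agent.H5.Correct

open MeasureTheory Set Filter Topology FourierTransform
open scoped Real Interval ContDiff

/-!
# The bound for the discrepancy of the central windows
-/

namespace Pool.Agent.H5

open Pool.Agent.H6

/-- The frequency side of the minorant. -/
noncomputable def gmin (b t : ℝ) : ℝ := cosT (Mn b) t + GG b t - CC t
/-- The frequency side of the majorant. -/
noncomputable def gmaj (b t : ℝ) : ℝ := cosT (Mj b) t - GG (-b) t + CC t

section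
variable {b : ℝ}

lemma continuous_cosT_Mn (hb : 0 < b) : Continuous (cosT (Mn b)) := TestFn.continuous_cosT_of_integrable (integrable_Mn hb)
lemma continuous_cosT_Mj (hb : 0 < b) : Continuous (cosT (Mj b)) := TestFn.continuous_cosT_of_integrable (integrable_Mj hb)

lemma integrable_cosT_Mn (hb : 0 < b) : Integrable (cosT (Mn b)) :=
  integrable_of_supp (continuous_cosT_Mn hb) fun _ hx => cosT_Mn_eq_zero hb hx
lemma integrable_cosT_Mj (hb : 0 < b) : Integrable (cosT (Mj b)) :=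
  integrable_of_supp (continuous_cosT_Mj hb) fun _ hx => cosT_Mj_eq_zero hb hx

lemma integrable_GG (b : ℝ) : Integrable (GG b) := integrable_of_supp (continuous_GG b) fun _ hx => GG_zero b hx
lemma integrable_CC : Integrable CC := integrable_of_supp continuous_CC fun _ hx => CC_zero hx

lemma continuous_gmin (hb : 0 < b) : Continuous (gmin b) :=
  ((continuous_cosT_Mn hb).add (continuous_GG b)).sub continuous_CC
lemma continuous_gmaj (hb : 0 < b) : Continuous (gmaj b) :=
  ((continuous_cosT_Mj hb).sub (continuous_GG (-b))).add continuous_CC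

lemma gmin_neg (b t : ℝ) : gmin b (-t) = gmin b t := by
  unfold gmin; rw [cosT_neg, GG_neg, CC_neg]
lemma gmaj_neg (b t : ℝ) : gmaj b (-t) = gmaj b t := by
  unfold gmaj; rw [cosT_neg, GG_neg, CC_neg]

lemma gmin_zero (hb : 0 < b) {t : ℝ} (ht : 2 ≤ |t|) : gmin b t = 0 := by
  unfold gmin; rw [cosT_Mn_eq_zero hb (by linarith), GG_zero b ht, CC_zero ht]; ring
lemma gmaj_zero (hb : 0 < b) {t : ℝ} (ht : 2 ≤ |t|) : gmaj b t = 0 := by
  unfold gmaj; rw [cosT_Mj_eq_zero hb (by linarith), GG_zero (-b) ht, CC_zero ht]; ring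

lemma gmin_nonneg (hb : 0 < b) {t : ℝ} (ht : 1 ≤ |t|) : 0 ≤ gmin b t := by
  unfold gmin
  rw [cosT_Mn_eq_zero hb ht]
  have := GG_sub_CC_nonneg b ht
  linarith
lemma gmaj_nonpos (hb : 0 < b) {t : ℝ} (ht : 1 ≤ |t|) : gmaj b t ≤ 0 := by
  unfold gmaj
  rw [cosT_Mj_eq_zero hb ht]
  have := GG_sub_CC_nonneg (-b) ht
  linarith

lemma cosT_gmin (hb : 0 < b) (x : ℝ) : cosT (gmin b) x = Mn b x + Hh b x - cc x := by
  have i1 : Integrable (fun t => cosT (Mn b) t + GG b t) := (integrable_cosT_Mn hb).add (integrable_GG b)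
  have h1 : cosT (gmin b) x = cosT (fun t => cosT (Mn b) t + GG b t) x - cosT CC x := cosT_sub i1 integrable_CC x
  rw [h1, cosT_add (integrable_cosT_Mn hb) (integrable_GG b), cosT_GG, cosT_CC,
    cosT_cosT (continuous_Mn b) (integrable_Mn hb) (Mn_neg b) (integrable_cosT_Mn hb)]

lemma cosT_gmaj (hb : 0 < b) (x : ℝ) : cosT (gmaj b) x = Mj b x - Hh (-b) x + cc x := by
  have i1 : Integrable (fun t => cosT (Mj b) t - GG (-b) t) := (integrable_cosT_Mj hb).sub (integrable_GG (-b))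
  have h1 : cosT (gmaj b) x = cosT (fun t => cosT (Mj b) t - GG (-b) t) x + cosT CC x := cosT_add i1 integrable_CC x
  rw [h1, cosT_sub (integrable_cosT_Mj hb) (integrable_GG (-b)), cosT_GG, cosT_CC,
    cosT_cosT (continuous_Mj b) (integrable_Mj hb) (Mj_neg b) (integrable_cosT_Mj hb)]

/-- The minorant property. -/
lemma cosT_gmin_le (hb : 0 < b) (x : ℝ) : cosT (gmin b) x ≤ if |x| ≤ b then 1 else 0 := by
  rw [cosT_gmin hb, Mn_eq hb]
  unfold Hh
  have h1 := hc_le_sl (x - b)
  have h2 := hc_le_sl (-x - b)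
  have h3 := cc_nonneg x
  linarith

lemma hc_zero : hc 0 = 0 := by unfold hc; simp

/-- The majorant property. -/
lemma le_cosT_gmaj (hb : 0 < b) (x : ℝ) : (if |x| ≤ b then 1 else 0) ≤ cosT (gmaj b) x := by
  rw [cosT_gmaj hb, Mj_eq hb]
  unfold Hh
  rw [sub_neg_eq_add, show -x - -b = b - x by ring]
  have h1 := hc_le_sl (x + b)
  have h2 := hc_le_sl (b - x)
  have h3 := cc_nonneg x
  rcases lt_trichotomy |x| b with h | h | h
  · rw [if_pos h.le, if_pos h]; linarith
  · rw [if_pos h.le, if_neg (by rw [h]; exact lt_irrefl _)]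
    rcases abs_choice x with h' | h'
    · have : b - x = 0 := by rw [← h, h']; ring
      rw [this, sl_zero, hc_zero]
      linarith
    · have : x + b = 0 := by rw [← h, h']; ring
      rw [this, sl_zero, hc_zero]
      linarith
  · rw [if_neg (not_le.mpr h), if_neg (not_lt.mpr h.le)]; linarith

lemma G2_sq (b : ℝ) : G2 b = 1 + 2 * b - ∫ u in (-b)..b, sq u := by
  unfold G2
  have : ∫ u in (-b)..b, (1 - (Real.sinc (π * u)) ^ 2) = (∫ u in (-b)..b, (1 : ℝ)) - ∫ u in (-b)..b, sq u := by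
    rw [← intervalIntegral.integral_sub (by simp) (continuous_sq.intervalIntegrable _ _)]
    rfl
  rw [this]
  simp
  ring

lemma integral_sq_ind (hb : 0 < b) : ∫ x, sq x * (if |x| ≤ b then 1 else 0) = ∫ u in (-b)..b, sq u := by
  rw [intervalIntegral.integral_of_le (by linarith), ← integral_Icc_eq_integral_Ioc, ← integral_indicator measurableSet_Icc]
  congr 1
  ext x
  simp only [indicator, mem_Icc, ← abs_le]
  split_ifs <;> ring

lemma integral_sq_ind' (hb : 0 < b) : ∫ x, sq x * (if |x| < b then 1 else 0) = ∫ u in (-b)..b, sq u := by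
  rw [intervalIntegral.integral_of_le (by linarith), integral_Ioc_eq_integral_Ioo, ← integral_indicator measurableSet_Ioo]
  congr 1
  ext x
  simp only [indicator, mem_Ioo, ← abs_lt]
  split_ifs <;> ring

lemma integrable_sq_mul {f : ℝ → ℝ} (hf : Integrable f) : Integrable (fun x => sq x * f x) := by
  have h1 : Integrable (fun x => f x * sq x) := by
    apply Integrable.mul_bdd (c := 1) hf continuous_sq.aestronglyMeasurable
    exact ae_of_all _ fun x => by rw [Real.norm_eq_abs, abs_of_nonneg (sq_nonneg' x)]; exact sq_le_one x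
  exact h1.congr (ae_of_all _ fun x => mul_comm _ _)

lemma value_Mn (hb : 0 < b) : G2 b - 1 - 2 * sl (-b) ≤ (2 * b - 1) + ∫ t in (-1 : ℝ)..1, |t| * cosT (Mn b) t := by
  rw [integral_abs_cosT (continuous_Mn b) (integrable_Mn hb) (Mn_neg b) (fun ξ hξ => cosT_Mn_eq_zero hb hξ), G2_sq]
  have h1 : ∫ x, sq x * Mn b x ≤ ∫ u in (-b)..b, sq u := by
    rw [← integral_sq_ind hb]
    apply integral_mono (integrable_sq_mul (integrable_Mn hb)) (integrable_sq_mul (integrable_ind_le b))
    intro x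
    simp only
    apply mul_le_mul_of_nonneg_left _ (sq_nonneg' x)
    rw [Mn_eq hb]
    linarith [sl_nonneg (x - b), sl_nonneg (-x - b)]
  have h2 : Mn b 0 = 1 - 2 * sl (-b) := by
    rw [Mn_eq hb, abs_zero, if_pos hb.le, zero_sub, neg_zero, zero_sub]
    ring
  linarith

lemma value_Mj (hb : 0 < b) : (2 * b + 1) + (∫ t in (-1 : ℝ)..1, |t| * cosT (Mj b) t) ≤ G2 b + 1 + 2 * sl b := by
  rw [integral_abs_cosT (continuous_Mj b) (integrable_Mj hb) (Mj_neg b) (fun ξ hξ => cosT_Mj_eq_zero hb hξ), G2_sq]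
  have h1 : ∫ u in (-b)..b, sq u ≤ ∫ x, sq x * Mj b x := by
    rw [← integral_sq_ind' hb]
    apply integral_mono (integrable_sq_mul (integrable_ind_lt b)) (integrable_sq_mul (integrable_Mj hb))
    intro x
    simp only
    apply mul_le_mul_of_nonneg_left _ (sq_nonneg' x)
    rw [Mj_eq hb]
    linarith [sl_nonneg (x + b), sl_nonneg (b - x)]
  have h2 : Mj b 0 = 1 + 2 * sl b := by
    rw [Mj_eq hb, abs_zero, if_pos hb, zero_add, sub_zero]
    ring
  linarith

/-- total error apart from the main terms -/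
noncomputable def EE (c : ℝ) : ℝ := 4 / 15 * (1 / |2 * π * (c - 1 / 6)| + 22 / 3 / |2 * π * (c - 1 / 6)| ^ 2 + 20 / |2 * π * (c - 1 / 6)| ^ 3)

lemma value_gmin (hb : 1 / 6 < b) : G2 b - (121 / 125 + 2 * sl (-b) + EE b) ≤
    gmin b 0 + ∫ t in (-1 : ℝ)..1, |t| * gmin b t := by
  have hb0 : 0 < b := by linarith
  have h0 : gmin b 0 = 2 * b - 1 := by
    unfold gmin
    rw [cosT_zero_eq, integral_Mn hb0, GG_at_zero, CC_at_zero]
    ring
  have hc1 := continuous_cosT_Mn hb0
  have hc2 := continuous_GG b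
  have hc3 := continuous_CC
  have h1 : ∫ t in (-1 : ℝ)..1, |t| * gmin b t = (∫ t in (-1 : ℝ)..1, |t| * cosT (Mn b) t) + (∫ t in (-1 : ℝ)..1, |t| * GG b t)
      - ∫ t in (-1 : ℝ)..1, |t| * CC t := by
    rw [← intervalIntegral.integral_add, ← intervalIntegral.integral_sub]
    · congr 1
      ext t
      unfold gmin
      ring
    all_goals (apply Continuous.intervalIntegrable; fun_prop)
  have h2 := value_Mn hb0
  have h3 := integral_GG_bound (b := b) (by linarith)
  rw [integral_CC] at h1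
  have h4 := (abs_le.mp h3).1
  rw [h0, h1]
  unfold EE
  linarith

lemma value_gmaj (hb : 0 < b) : gmaj b 0 + (∫ t in (-1 : ℝ)..1, |t| * gmaj b t) ≤ G2 b + (121 / 125 + 2 * sl b + EE (-b)) := by
  have h0 : gmaj b 0 = 2 * b + 1 := by
    unfold gmaj
    rw [cosT_zero_eq, integral_Mj hb, GG_at_zero, CC_at_zero]
    ring
  have hc1 := continuous_cosT_Mj hb
  have hc2 := continuous_GG (-b)
  have hc3 := continuous_CC
  have h1 : ∫ t in (-1 : ℝ)..1, |t| * gmaj b t = (∫ t in (-1 : ℝ)..1, |t| * cosT (Mj b) t) - (∫ t in (-1 : ℝ)..1, |t| * GG (-b) t)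
      + ∫ t in (-1 : ℝ)..1, |t| * CC t := by
    rw [← intervalIntegral.integral_sub, ← intervalIntegral.integral_add]
    · congr 1
      ext t
      unfold gmaj
      ring
    all_goals (apply Continuous.intervalIntegrable; fun_prop)
  have h2 := value_Mj hb
  have h3 := integral_GG_bound (b := -b) (by linarith)
  rw [integral_CC] at h1
  have h4 := (abs_le.mp h3).1
  rw [h0, h1]
  unfold EE
  linarith

/-! ### Numerical bounds -/

lemma pi_sq_gt : 9.8 < π ^ 2 := by
  have := Real.pi_gt_d4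
  nlinarith

lemma EE_bound {c : ℝ} (hb : 39 / 10 ≤ b) (hc : b - 1 / 6 ≤ |c - 1 / 6|) :
    EE c ≤ 4 / 15 * (1 / (6 * b) + 22 / 3 / (6 * b) ^ 2 + 20 / (6 * b) ^ 3) := by
  have hb0 : 0 < b := by linarith
  have h1 : 6 * b ≤ |2 * π * (c - 1 / 6)| := by
    rw [abs_mul, abs_of_pos (by positivity : 0 < 2 * π)]
    have hpi := Real.pi_gt_d4
    calc 6 * b ≤ 6.283 * (b - 1 / 6) := by linarith
      _ ≤ 2 * π * (b - 1 / 6) := by nlinarith
      _ ≤ 2 * π * |c - 1 / 6| := by gcongr
  unfold EE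
  gcongr

lemma sl_neg_bound (hb : 39 / 10 ≤ b) : 2 * sl (-b) ≤ 0.114 / b ^ 2 := by
  have hb0 : 0 < b := by linarith
  rw [sl_neg hb0]
  have h1 := inner_upper hb0
  have h2 := pi_sq_gt
  have h3 : Real.sin (π * b) ^ 2 / π ^ 2 ≤ 1 / 9.8 := by
    rw [div_le_div_iff₀ (by positivity) (by norm_num)]
    nlinarith [Real.sin_sq_le_one (π * b)]
  have h4 : 0 ≤ tg b - 1 / b := le_trans (by positivity) (inner_lower hb0)
  calc 2 * (Real.sin (π * b) ^ 2 / π ^ 2 * (tg b - 1 / b)) ≤ 2 * (1 / 9.8 * ((b + 1) / (b ^ 2 * (2 * b + 1)))) := by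
        apply mul_le_mul_of_nonneg_left _ (by norm_num)
        exact mul_le_mul h3 h1 h4 (by norm_num)
    _ ≤ 0.114 / b ^ 2 := by
        have e : 2 * (1 / 9.8 * ((b + 1) / (b ^ 2 * (2 * b + 1)))) = (2 / 9.8 * (b + 1) / (2 * b + 1)) / b ^ 2 := by
          field_simp
        rw [e]
        apply div_le_div_of_nonneg_right _ (by positivity)
        rw [div_le_iff₀ (by positivity)]
        norm_num
        linarith

lemma sl_pos_bound (hb : 39 / 10 ≤ b) : 2 * sl b ≤ 0.114 / b ^ 2 := by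
  have hb0 : 0 < b := by linarith
  rw [sl_pos hb0]
  have h1 := outer_upper hb0
  have h2 := pi_sq_gt
  have h3 : Real.sin (π * b) ^ 2 / π ^ 2 ≤ 1 / 9.8 := by
    rw [div_le_div_iff₀ (by positivity) (by norm_num)]
    nlinarith [Real.sin_sq_le_one (π * b)]
  have h4 : 0 ≤ 1 / b - tg (b + 1) := le_trans (by positivity) (outer_lower hb0)
  have h5 : 1 / (b * (b + 1)) - 1 / (2 * (b + 1) ^ 2) ≤ 1 / (2 * b ^ 2) := by
    have e : 1 / (2 * b ^ 2) - (1 / (b * (b + 1)) - 1 / (2 * (b + 1) ^ 2)) = 1 / (2 * b ^ 2 * (b + 1) ^ 2) := by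
      field_simp
      ring
    have : 0 ≤ 1 / (2 * b ^ 2 * (b + 1) ^ 2) := by positivity
    linarith
  calc 2 * (Real.sin (π * b) ^ 2 / π ^ 2 * (1 / b - tg (b + 1))) ≤ 2 * (1 / 9.8 * (1 / (2 * b ^ 2))) := by
        apply mul_le_mul_of_nonneg_left _ (by norm_num)
        exact mul_le_mul h3 (h1.trans h5) h4 (by norm_num)
    _ ≤ 0.114 / b ^ 2 := by
        rw [show 2 * (1 / 9.8 * (1 / (2 * b ^ 2))) = (1 / 9.8) / b ^ 2 by field_simp]
        apply div_le_div_of_nonneg_right _ (by positivity)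
        norm_num

lemma total_bound (hb : 39 / 10 ≤ b) : 4 / 15 * (1 / (6 * b) + 22 / 3 / (6 * b) ^ 2 + 20 / (6 * b) ^ 3) + 0.114 / b ^ 2 ≤ 1 / (10 * b) := by
  have hb0 : 0 < b := by linarith
  have e : 4 / 15 * (1 / (6 * b) + 22 / 3 / (6 * b) ^ 2 + 20 / (6 * b) ^ 3) + 0.114 / b ^ 2
      = (2 / 45 + (22 / 405 + 0.114) / b + (2 / 81) / b ^ 2) / b := by
    field_simp
    ring
  rw [e, show 1 / (10 * b) = (1 / 10) / b by field_simp]
  apply div_le_div_of_nonneg_right _ hb0.le
  have h1 : (22 / 405 + 0.114) / b ≤ (22 / 405 + 0.114) / (39 / 10) := by gcongr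
  have h2 : (2 / 81) / b ^ 2 ≤ (2 / 81) / (39 / 10) ^ 2 := by gcongr
  have h3 : (2 / 45 + (22 / 405 + 0.114) / (39 / 10) + (2 / 81) / (39 / 10 : ℝ) ^ 2) ≤ 1 / 10 := by norm_num
  linarith

end

section
variable {ι : Type*} {γ w : ι → ℝ} {F : ℝ → Finset ι} {CR : ℝ}

theorem MM_lower [Countable ι] (I : Inputs γ w F CR) {b : ℝ} (hb : 39 / 10 ≤ b) {ε : ℝ} (hε : 0 < ε) :
    ∀ᶠ T in atTop, G2 b - (121 / 125 + 1 / (10 * b)) - ε ≤ MM γ w F T b := by
  have hb0 : 0 < b := by linarith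
  have h := liminf_SF I (continuous_gmin hb0) (gmin_neg b) (A := 2) (fun x hx => gmin_zero hb0 hx)
    (fun x hx => gmin_nonneg hb0 hx) hε
  filter_upwards [h, eventually_gt_atTop 1] with T hT hT1
  have h1 : SF γ w F T (cosT (gmin b)) ≤ MM γ w F T b := by
    rw [MM_eq_SF]
    exact SF_mono I.ord.w_nonneg hT1 (fun x => cosT_gmin_le hb0 x)
  have h2 := value_gmin (b := b) (by linarith)
  have h3 := sl_neg_bound hb
  have h4 := EE_bound (c := b) hb (le_abs_self _)
  have h5 := total_bound hb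
  linarith

theorem MM_upper [Countable ι] (I : Inputs γ w F CR) {b : ℝ} (hb : 39 / 10 ≤ b) {ε : ℝ} (hε : 0 < ε) :
    ∀ᶠ T in atTop, MM γ w F T b ≤ G2 b + (121 / 125 + 1 / (10 * b)) + ε := by
  have hb0 : 0 < b := by linarith
  have h := liminf_SF I (g := fun t => -gmaj b t) (continuous_gmaj hb0).neg (fun x => by rw [gmaj_neg]) (A := 2)
    (fun x hx => by rw [gmaj_zero hb0 hx, neg_zero])
    (fun x hx => by linarith [gmaj_nonpos hb0 hx]) hε
  filter_upwards [h, eventually_gt_atTop 1] with T hT hT1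
  have e1 : SF γ w F T (cosT (fun t => -gmaj b t)) = - SF γ w F T (cosT (gmaj b)) := by
    have : cosT (fun t => -gmaj b t) = fun x => - cosT (gmaj b) x := by
      ext x
      unfold cosT
      rw [← integral_neg]
      congr 1
      ext t
      ring
    rw [this]
    unfold SF
    rw [← mul_neg, ← Finset.sum_neg_distrib]
    congr 1
    apply Finset.sum_congr rfl
    intro i _
    rw [← Finset.sum_neg_distrib]
    apply Finset.sum_congr rfl
    intro j _
    ring
  have e2 : ∫ t in (-1 : ℝ)..1, |t| * -gmaj b t = - ∫ t in (-1 : ℝ)..1, |t| * gmaj b t := by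
    rw [← intervalIntegral.integral_neg]
    congr 1
    ext t
    ring
  have h1 : MM γ w F T b ≤ SF γ w F T (cosT (gmaj b)) := by
    rw [MM_eq_SF]
    exact SF_mono I.ord.w_nonneg hT1 (fun x => le_cosT_gmaj hb0 x)
  have h2 := value_gmaj hb0
  have h3 := sl_pos_bound hb
  have h4 := EE_bound (c := -b) hb (by rw [abs_of_neg (by linarith)]; linarith)
  have h5 := total_bound hb
  rw [e1, e2] at hT
  linarith

end

end Pool.Agent.H5
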