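import Mathlib
import Pool.Agent.H5.Discrepancy
import Pool.Agent.H6.Final

open MeasureTheory Set Filter Topology
open scoped Real Interval ContDiff

/-!
# The discrepancy bound for all windows whose endpoints are at least 4 in absolute value
-/

namespace Pool.Agent.H5

open Pool.Agent.H6

section
variable {ι : Type*} {γ w : ι → ℝ} {F : ℝ → Finset ι} {CR : ℝ}

/-- the error allowed at an endpoint -/
noncomputable def kap (b : ℝ) : ℝ := 121 / 125 + 1 / (10 * b)

lemma MM_two_sided [Countable ι] (I : Inputs γ w F CR) {b : ℝ} (hb : 39 / 10 ≤ b) {ε : ℝ} (hε : 0 < ε) :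
    ∀ᶠ T in atTop, |MM γ w F T b - G2 b| ≤ kap b + ε := by
  filter_upwards [MM_lower I hb hε, MM_upper I hb hε] with T h1 h2
  unfold kap
  rw [abs_le]
  constructor <;> linarith

lemma PW_pos [Countable ι] (I : Inputs γ w F CR) {α β : ℝ} (hα : 4 ≤ α) (hαβ : α < β) {ε : ℝ} (hε : 0 < ε) :
    ∀ᶠ T in atTop, |PW γ w F T α β - PC.gue α β| ≤ (kap α + kap β) / 2 + ε := by
  have hw := I.ord.w_nonneg
  -- a point slightly below `α`
  obtain ⟨α', h1, h2, h3⟩ : ∃ α', 39 / 10 ≤ α' ∧ α' < α ∧ (G2 α - G2 α') / 2 + (kap α' - kap α) / 2 ≤ ε / 2 := by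
    have hc : ContinuousAt (fun x => (G2 α - G2 x) / 2 + (kap x - kap α) / 2) α := by
      have a1 := continuous_G2.continuousAt (x := α)
      have a2 : ContinuousAt kap α := by
        unfold kap
        apply ContinuousAt.add continuousAt_const
        apply ContinuousAt.div continuousAt_const (by fun_prop)
        positivity
      exact ((continuousAt_const.sub a1).div_const 2).add ((a2.sub continuousAt_const).div_const 2)
    have h0 : (G2 α - G2 α) / 2 + (kap α - kap α) / 2 < ε / 2 := by
      rw [sub_self, sub_self]; linarith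
    have h4 := hc.eventually (gt_mem_nhds h0)
    obtain ⟨δ, hδ, h5⟩ := Metric.eventually_nhds_iff.mp h4
    refine ⟨max (39 / 10) (α - δ / 2), le_max_left _ _, max_lt (by linarith) (by linarith), ?_⟩
    apply le_of_lt
    apply h5
    rw [Real.dist_eq, abs_lt]
    constructor
    · have := le_max_right (39 / 10) (α - δ / 2)
      linarith
    · have : max (39 / 10) (α - δ / 2) < α := max_lt (by linarith) (by linarith)
      linarith
  filter_upwards [MM_two_sided I (show 39 / 10 ≤ α by linarith) (half_pos hε), MM_two_sided I (show 39 / 10 ≤ β by linarith) (half_pos hε),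
    MM_two_sided I h1 (half_pos hε), eventually_gt_atTop 1] with T hA hB hA' hT
  have e1 := MM_eq_HW (γ := γ) (w := w) (F := F) T (show (0 : ℝ) ≤ α by linarith)
  have e2 := MM_eq_HW (γ := γ) (w := w) (F := F) T (show (0 : ℝ) ≤ β by linarith)
  have e3 := MM_eq_HW (γ := γ) (w := w) (F := F) T (show (0 : ℝ) ≤ α' by linarith)
  have e4 := HW_le_PW_sub (γ := γ) (w := w) (F := F) hw hT α β
  have e5 := PW_le_HW_sub (γ := γ) (w := w) (F := F) hw hT (show 0 ≤ α' by linarith) h2 hαβ.le
  have e6 : PC.gue α β = (G2 β - G2 α) / 2 := by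
    rw [gue_eq, if_neg (fun h' => by linarith [h'.1]), G2_eq_gg, G2_eq_gg]
    ring
  rw [abs_le] at hA hB hA' ⊢
  rw [e6]
  constructor <;> linarith [hA.1, hA.2, hB.1, hB.2, hA'.1, hA'.2]

theorem PW_bound [Countable ι] (I : Inputs γ w F CR) {α β : ℝ} (hαβ : α < β) (hα : 4 ≤ |α|) (hβ : 4 ≤ |β|) {ε : ℝ} (hε : 0 < ε) :
    ∀ᶠ T in atTop, |PW γ w F T α β - PC.gue α β| ≤ 121 / 125 + (1 / |α| + 1 / |β|) / 20 + ε := by
  have hkap : ∀ a b : ℝ, a ≠ 0 → b ≠ 0 → (kap a + kap b) / 2 = 121 / 125 + (1 / a + 1 / b) / 20 := by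
    intro a b ha hb
    unfold kap
    field_simp
    ring
  rcases lt_or_ge 0 α with h1 | h1
  · rw [abs_of_pos h1] at hα ⊢
    have hβ0 : 0 < β := by linarith
    rw [abs_of_pos hβ0]
    rw [← hkap α β h1.ne' hβ0.ne']
    exact PW_pos I hα hαβ hε
  · rcases lt_or_ge β 0 with h2 | h2
    · have hα0 : α < 0 := by linarith
      rw [abs_of_neg h2] at hβ
      rw [abs_of_neg hα0, abs_of_neg h2, add_comm (1 / -α), ← hkap (-β) (-α) (by linarith) (by linarith)]
      have h3 := PW_pos I hβ (show -β < -α by linarith) hε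
      simp_rw [PW_symm] at h3
      have e : PC.gue (-β) (-α) = PC.gue α β := by
        rw [gue_eq, gue_eq, if_neg (fun h' => by linarith [h'.1]), if_neg (fun h' => by linarith [h'.2]), gg_neg, gg_neg]
        ring
      rw [e] at h3
      exact h3
    · have hα0 : α < 0 := by
        rcases eq_or_lt_of_le h1 with h | h
        · rw [h, abs_zero] at hα; linarith
        · exact h
      have hβ0 : 0 < β := by
        rcases eq_or_lt_of_le h2 with h | h
        · rw [← h, abs_zero] at hβ; linarith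
        · exact h
      rw [abs_of_neg hα0] at hα ⊢
      rw [abs_of_pos hβ0] at hβ ⊢
      rw [← hkap (-α) β (by linarith) hβ0.ne']
      filter_upwards [MM_two_sided I (show 39 / 10 ≤ -α by linarith) hε, MM_two_sided I (show 39 / 10 ≤ β by linarith) hε] with T hA hB
      rw [PW_straddle T h1 h2, gue_eq, if_pos ⟨h1, h2⟩]
      have e1 := MM_eq_HW (γ := γ) (w := w) (F := F) T (show (0 : ℝ) ≤ -α by linarith)
      have e2 := MM_eq_HW (γ := γ) (w := w) (F := F) T h2
      rw [G2_eq_gg, gg_neg] at hA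
      rw [G2_eq_gg] at hB
      rw [abs_le] at hA hB ⊢
      constructor <;> linarith [hA.1, hA.2, hB.1, hB.2]

end

end Pool.Agent.H5
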