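import Mathlib
import Pool.Agent.H5.Discrepancy
import Pool.Agent.H5.WindowBound
import Pool.Agent.H27.Cor.Outer

open MeasureTheory Set Filter Topology FourierTransform
open scoped Real Interval ContDiff

/-!
# The far windows, with the lower bound `F ≥ 3/2 - |α|` outside `[-1, 1]`
-/

namespace Pool.Agent.H5

open Pool.Agent.H6 Pool.Agent.H27.Cor

/-- quadratic times cosine -/
lemma integral_quad_cos' (α β γ κ θ p q : ℝ) (hκ : κ ≠ 0) :
    ∫ t in p..q, (α * t ^ 2 + β * t + γ) * Real.cos (κ * t + θ) =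
      ((α * q ^ 2 + β * q + γ) * Real.sin (κ * q + θ) / κ + (2 * α * q + β) * Real.cos (κ * q + θ) / κ ^ 2
        - 2 * α * Real.sin (κ * q + θ) / κ ^ 3)
      - ((α * p ^ 2 + β * p + γ) * Real.sin (κ * p + θ) / κ + (2 * α * p + β) * Real.cos (κ * p + θ) / κ ^ 2
        - 2 * α * Real.sin (κ * p + θ) / κ ^ 3) := by
  apply intervalIntegral.integral_eq_sub_of_hasDerivAt (f := fun t => (α * t ^ 2 + β * t + γ) * Real.sin (κ * t + θ) / κ
    + (2 * α * t + β) * Real.cos (κ * t + θ) / κ ^ 2 - 2 * α * Real.sin (κ * t + θ) / κ ^ 3)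
  · intro t _
    have h0 : HasDerivAt (fun t : ℝ => κ * t + θ) κ t := by
      simpa using ((hasDerivAt_id t).const_mul κ).add_const θ
    have h1 : HasDerivAt (fun t : ℝ => α * t ^ 2 + β * t + γ) (α * (2 * t) + β) t := by
      have a1 := (((hasDerivAt_pow 2 t).const_mul α).add ((hasDerivAt_id t).const_mul β)).add_const γ
      have a2 : α * (2 * t) + β = α * (((2 : ℕ) : ℝ) * t ^ (2 - 1)) + β * 1 := by norm_num
      rw [a2]
      exact a1
    have h2 : HasDerivAt (fun t : ℝ => 2 * α * t + β) (2 * α) t := by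
      simpa using ((hasDerivAt_id t).const_mul (2 * α)).add_const β
    have hs := h0.sin
    have hcs := h0.cos
    have h3 := (((h1.mul hs).div_const κ).add ((h2.mul hcs).div_const (κ ^ 2))).sub ((hs.const_mul (2 * α)).div_const (κ ^ 3))
    have e : (α * t ^ 2 + β * t + γ) * Real.cos (κ * t + θ) = ((α * (2 * t) + β) * Real.sin (κ * t + θ) + (α * t ^ 2 + β * t + γ) * (Real.cos (κ * t + θ) * κ)) / κ
        + (2 * α * Real.cos (κ * t + θ) + (2 * α * t + β) * (-Real.sin (κ * t + θ) * κ)) / κ ^ 2 - 2 * α * (Real.cos (κ * t + θ) * κ) / κ ^ 3 := by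
      field_simp
      ring
    rw [e]
    exact h3
  · apply Continuous.intervalIntegrable
    fun_prop

/-- The gain from the lower bound of the form factor. -/
lemma gain_GG {b : ℝ} (hb : b - 1 / 6 ≠ 0) :
    13 / 540 - 4 / 15 * (1 / (2 * |2 * π * (b - 1 / 6)|) + 2 / |2 * π * (b - 1 / 6)| ^ 2 + 20 / 3 / |2 * π * (b - 1 / 6)| ^ 3)
      ≤ 2 * ∫ x in (1 : ℝ)..(3 / 2), (3 / 2 - x) * (GG b x - CC x) := by
  set κ := 2 * π * (b - 1 / 6) with hκ
  have hκ0 : κ ≠ 0 := mul_ne_zero (by positivity) hb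
  have e1 : ∫ x in (1 : ℝ)..(3 / 2), (3 / 2 - x) * (GG b x - CC x)
      = ∫ x in (1 : ℝ)..(3 / 2), (2 / 15 * (5 / 3 * x ^ 2 - 31 / 6 * x + 4)
        - 2 / 15 * ((5 / 3 * x ^ 2 + (-(31 / 6)) * x + 4) * Real.cos (κ * x + π / 3))) := by
    apply intervalIntegral.integral_congr
    intro x hx
    rw [uIcc_of_le (by norm_num)] at hx
    obtain ⟨h1, h2⟩ := hx
    simp only
    unfold GG CC
    rw [tw_zero (t := x) (by rw [abs_of_pos (by linarith)]; linarith),
      tw_zero (t := x + 1) (by rw [abs_of_pos (by linarith)]; linarith),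
      tw_eq (t := x - 1) (by rw [abs_of_nonneg (by linarith)]; linarith), abs_of_nonneg (by linarith : 0 ≤ x - 1), ← hκ]
    ring
  rw [e1, intervalIntegral.integral_sub (by apply Continuous.intervalIntegrable; fun_prop)
    (by apply Continuous.intervalIntegrable; fun_prop), intervalIntegral.integral_const_mul,
    intervalIntegral.integral_const_mul, integral_quad_cos' _ _ _ _ _ _ _ hκ0]
  have e2 : ∫ x in (1 : ℝ)..(3 / 2), (5 / 3 * x ^ 2 - 31 / 6 * x + 4) = 13 / 144 := by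
    rw [intervalIntegral.integral_add (by apply Continuous.intervalIntegrable; fun_prop) (by apply Continuous.intervalIntegrable; fun_prop),
      intervalIntegral.integral_sub (by apply Continuous.intervalIntegrable; fun_prop) (by apply Continuous.intervalIntegrable; fun_prop),
      intervalIntegral.integral_const_mul, intervalIntegral.integral_const_mul, integral_pow, integral_id]
    norm_num
  rw [e2]
  have h1 := abs_trig_comb (5 / 3 * (3 / 2 : ℝ) ^ 2 + (-(31 / 6)) * (3 / 2) + 4) (2 * (5 / 3) * (3 / 2) + (-(31 / 6))) (2 * (5 / 3))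
    (Real.sin (κ * (3 / 2) + π / 3)) (Real.cos (κ * (3 / 2) + π / 3)) κ (Real.abs_sin_le_one _) (Real.abs_cos_le_one _)
  have h2 := abs_trig_comb (5 / 3 * (1 : ℝ) ^ 2 + (-(31 / 6)) * 1 + 4) (2 * (5 / 3) * 1 + (-(31 / 6))) (2 * (5 / 3))
    (Real.sin (κ * 1 + π / 3)) (Real.cos (κ * 1 + π / 3)) κ (Real.abs_sin_le_one _) (Real.abs_cos_le_one _)
  have a1 : |(5 / 3 * (3 / 2 : ℝ) ^ 2 + (-(31 / 6)) * (3 / 2) + 4)| = 0 := by norm_num
  have a2 : |(2 * (5 / 3) * (3 / 2) + (-(31 / 6)) : ℝ)| = 1 / 6 := by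
    rw [abs_of_neg (by norm_num)]; norm_num
  have a3 : |(2 * (5 / 3) : ℝ)| = 10 / 3 := by norm_num
  have a4 : |(5 / 3 * (1 : ℝ) ^ 2 + (-(31 / 6)) * 1 + 4)| = 1 / 2 := by norm_num
  have a5 : |(2 * (5 / 3) * 1 + (-(31 / 6)) : ℝ)| = 11 / 6 := by
    rw [abs_of_neg (by norm_num)]; norm_num
  rw [a1, a2, a3] at h1
  rw [a4, a5, a3] at h2
  have h1' := (abs_le.mp h1).2
  have h2' := (abs_le.mp h2).1
  have e3 : 1 / (2 * |κ|) = (1 / 2) / |κ| := by
    rw [div_div]
  rw [e3]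
  have e4 : 4 / 15 * ((1 / 2) / |κ| + 2 / |κ| ^ 2 + 20 / 3 / |κ| ^ 3)
      = 4 / 15 * ((0 / |κ| + 1 / 6 / |κ| ^ 2 + 10 / 3 / |κ| ^ 3) + (1 / 2 / |κ| + 11 / 6 / |κ| ^ 2 + 10 / 3 / |κ| ^ 3)) := by
    ring
  rw [e4]
  linarith

section
variable {b : ℝ}

/-- the error from the gain -/
noncomputable def E2 (c : ℝ) : ℝ := 4 / 15 * (1 / (2 * |2 * π * (c - 1 / 6)|) + 2 / |2 * π * (c - 1 / 6)| ^ 2
  + 20 / 3 / |2 * π * (c - 1 / 6)| ^ 3)

lemma gain_gmin (hb : 1 / 6 < b) : 13 / 540 - E2 b ≤ 2 * ∫ x in (1 : ℝ)..(3 / 2), (3 / 2 - x) * gmin b x := by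
  have hb0 : 0 < b := by linarith
  have h := gain_GG (b := b) (by linarith)
  have e : ∫ x in (1 : ℝ)..(3 / 2), (3 / 2 - x) * gmin b x = ∫ x in (1 : ℝ)..(3 / 2), (3 / 2 - x) * (GG b x - CC x) := by
    apply intervalIntegral.integral_congr
    intro x hx
    rw [uIcc_of_le (by norm_num)] at hx
    simp only
    unfold gmin
    rw [cosT_Mn_eq_zero hb0 (by rw [abs_of_pos (by linarith [hx.1])]; exact hx.1)]
    ring
  rw [e]
  exact h

lemma gain_gmaj (hb : 0 < b) : 13 / 540 - E2 (-b) ≤ 2 * ∫ x in (1 : ℝ)..(3 / 2), (3 / 2 - x) * -gmaj b x := by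
  have h := gain_GG (b := -b) (by linarith)
  have e : ∫ x in (1 : ℝ)..(3 / 2), (3 / 2 - x) * -gmaj b x = ∫ x in (1 : ℝ)..(3 / 2), (3 / 2 - x) * (GG (-b) x - CC x) := by
    apply intervalIntegral.integral_congr
    intro x hx
    rw [uIcc_of_le (by norm_num)] at hx
    simp only
    unfold gmaj
    rw [cosT_Mj_eq_zero hb (by rw [abs_of_pos (by linarith [hx.1])]; exact hx.1)]
    ring
  rw [e]
  exact h

lemma E2_bound {c : ℝ} (hb : 39 / 10 ≤ b) (hc : b - 1 / 6 ≤ |c - 1 / 6|) :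
    E2 c ≤ 4 / 15 * (1 / (2 * (6 * b)) + 2 / (6 * b) ^ 2 + 20 / 3 / (6 * b) ^ 3) := by
  have hb0 : 0 < b := by linarith
  have h1 : 6 * b ≤ |2 * π * (c - 1 / 6)| := by
    rw [abs_mul, abs_of_pos (by positivity : 0 < 2 * π)]
    have hpi := Real.pi_gt_d4
    calc 6 * b ≤ 6.283 * (b - 1 / 6) := by linarith
      _ ≤ 2 * π * (b - 1 / 6) := by nlinarith
      _ ≤ 2 * π * |c - 1 / 6| := by gcongr
  unfold E2
  gcongr

/-- the error allowed at an endpoint -/
noncomputable def kap2 (b : ℝ) : ℝ := 118 / 125 + 13 / (100 * b)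

lemma total_bound2 (hb : 39 / 10 ≤ b) : 121 / 125 - 13 / 540 + 1 / (10 * b)
    + 4 / 15 * (1 / (2 * (6 * b)) + 2 / (6 * b) ^ 2 + 20 / 3 / (6 * b) ^ 3) ≤ kap2 b := by
  have hb0 : 0 < b := by linarith
  unfold kap2
  have e : 4 / 15 * (1 / (2 * (6 * b)) + 2 / (6 * b) ^ 2 + 20 / 3 / (6 * b) ^ 3)
      = (1 / 45 + (2 / 135) / b + (2 / 243) / b ^ 2) / b := by
    field_simp
    ring
  rw [e, show 13 / (100 * b) = (13 / 100) / b by field_simp, show 1 / (10 * b) = (1 / 10) / b by field_simp]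
  have h1 : (2 / 135 : ℝ) / b ≤ (2 / 135) / (39 / 10) := by gcongr
  have h2 : (2 / 243 : ℝ) / b ^ 2 ≤ (2 / 243) / (39 / 10) ^ 2 := by gcongr
  have h3 : (1 / 45 + (2 / 135) / b + (2 / 243) / b ^ 2) / b ≤ (3 / 100) / b := by
    apply div_le_div_of_nonneg_right _ hb0.le
    have : (1 / 45 + (2 / 135) / (39 / 10) + (2 / 243) / (39 / 10 : ℝ) ^ 2) ≤ 3 / 100 := by norm_num
    linarith
  have h4 : (1 / 10 : ℝ) / b + (3 / 100) / b = (13 / 100) / b := by ring
  have h5 : (121 / 125 - 13 / 540 : ℝ) ≤ 118 / 125 := by norm_num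
  linarith

end

section
variable {ι : Type*} {γ w : ι → ℝ} {F : ℝ → Finset ι} {CR : ℝ}

theorem MM_lower2 [Countable ι] (I : Inputs γ w F CR) (hLB : LBH γ w F) {b : ℝ} (hb : 39 / 10 ≤ b) {ε : ℝ} (hε : 0 < ε) :
    ∀ᶠ T in atTop, G2 b - kap2 b - ε ≤ MM γ w F T b := by
  have hb0 : 0 < b := by linarith
  have h := liminf_SF2 I hLB (continuous_gmin hb0) (gmin_neg b) (A := 2) (fun x hx => gmin_zero hb0 hx)
    (fun x hx => gmin_nonneg hb0 hx) hε
  filter_upwards [h, eventually_gt_atTop 1] with T hT hT1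
  have h1 : SF γ w F T (cosT (gmin b)) ≤ MM γ w F T b := by
    rw [MM_eq_SF]
    exact SF_mono I.ord.w_nonneg hT1 (fun x => cosT_gmin_le hb0 x)
  have h2 := value_gmin (b := b) (by linarith)
  have h3 := sl_neg_bound hb
  have h4 := EE_bound (c := b) hb (le_abs_self _)
  have h5 := total_bound hb
  have h6 := gain_gmin (b := b) (by linarith)
  have h7 := E2_bound (c := b) hb (le_abs_self _)
  have h8 := total_bound2 hb
  linarith

theorem MM_upper2 [Countable ι] (I : Inputs γ w F CR) (hLB : LBH γ w F) {b : ℝ} (hb : 39 / 10 ≤ b) {ε : ℝ} (hε : 0 < ε) :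
    ∀ᶠ T in atTop, MM γ w F T b ≤ G2 b + kap2 b + ε := by
  have hb0 : 0 < b := by linarith
  have h := liminf_SF2 I hLB (g := fun t => -gmaj b t) (continuous_gmaj hb0).neg (fun x => by rw [gmaj_neg]) (A := 2)
    (fun x hx => by rw [gmaj_zero hb0 hx, neg_zero])
    (fun x hx => by linarith [gmaj_nonpos hb0 hx]) hε
  filter_upwards [h, eventually_gt_atTop 1] with T hT hT1
  have e1 : SF γ w F T (cosT (fun t => -gmaj b t)) = - SF γ w F T (cosT (gmaj b)) := by
    have : cosT (fun t => -gmaj b t) = fun x => - cosT (gmaj b) x := by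
      ext x
      unfold cosT
      rw [← integral_neg]
      congr 1
      ext t
      ring
    rw [this]
    unfold SF
    rw [← mul_neg, ← Finset.sum_neg_distrib]
    congr 1
    apply Finset.sum_congr rfl
    intro i _
    rw [← Finset.sum_neg_distrib]
    apply Finset.sum_congr rfl
    intro j _
    ring
  have e2 : ∫ t in (-1 : ℝ)..1, |t| * -gmaj b t = - ∫ t in (-1 : ℝ)..1, |t| * gmaj b t := by
    rw [← intervalIntegral.integral_neg]
    congr 1
    ext t
    ring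
  have h1 : MM γ w F T b ≤ SF γ w F T (cosT (gmaj b)) := by
    rw [MM_eq_SF]
    exact SF_mono I.ord.w_nonneg hT1 (fun x => le_cosT_gmaj hb0 x)
  have h2 := value_gmaj hb0
  have h3 := sl_pos_bound hb
  have h4 := EE_bound (c := -b) hb (by rw [abs_of_neg (by linarith)]; linarith)
  have h5 := total_bound hb
  have h6 := gain_gmaj hb0
  have h7 := E2_bound (c := -b) hb (by rw [abs_of_neg (by linarith)]; linarith)
  have h8 := total_bound2 hb
  rw [e1, e2] at hT
  linarith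

lemma MM_two_sided2 [Countable ι] (I : Inputs γ w F CR) (hLB : LBH γ w F) {b : ℝ} (hb : 39 / 10 ≤ b) {ε : ℝ} (hε : 0 < ε) :
    ∀ᶠ T in atTop, |MM γ w F T b - G2 b| ≤ kap2 b + ε := by
  filter_upwards [MM_lower2 I hLB hb hε, MM_upper2 I hLB hb hε] with T h1 h2
  rw [abs_le]
  constructor <;> linarith

lemma PW_pos2 [Countable ι] (I : Inputs γ w F CR) (hLB : LBH γ w F) {α β : ℝ} (hα : 4 ≤ α) (hαβ : α < β) {ε : ℝ} (hε : 0 < ε) :
    ∀ᶠ T in atTop, |PW γ w F T α β - PC.gue α β| ≤ (kap2 α + kap2 β) / 2 + ε := by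
  have hw := I.ord.w_nonneg
  -- a point slightly below `α`
  obtain ⟨α', h1, h2, h3⟩ : ∃ α', 39 / 10 ≤ α' ∧ α' < α ∧ (G2 α - G2 α') / 2 + (kap2 α' - kap2 α) / 2 ≤ ε / 2 := by
    have hc : ContinuousAt (fun x => (G2 α - G2 x) / 2 + (kap2 x - kap2 α) / 2) α := by
      have a1 := continuous_G2.continuousAt (x := α)
      have a2 : ContinuousAt kap2 α := by
        unfold kap2
        apply ContinuousAt.add continuousAt_const
        apply ContinuousAt.div continuousAt_const (by fun_prop)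
        positivity
      exact ((continuousAt_const.sub a1).div_const 2).add ((a2.sub continuousAt_const).div_const 2)
    have h0 : (G2 α - G2 α) / 2 + (kap2 α - kap2 α) / 2 < ε / 2 := by
      rw [sub_self, sub_self]; linarith
    have h4 := hc.eventually (gt_mem_nhds h0)
    obtain ⟨δ, hδ, h5⟩ := Metric.eventually_nhds_iff.mp h4
    refine ⟨max (39 / 10) (α - δ / 2), le_max_left _ _, max_lt (by linarith) (by linarith), ?_⟩
    apply le_of_lt
    apply h5
    rw [Real.dist_eq, abs_lt]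
    constructor
    · have := le_max_right (39 / 10) (α - δ / 2)
      linarith
    · have : max (39 / 10) (α - δ / 2) < α := max_lt (by linarith) (by linarith)
      linarith
  filter_upwards [MM_two_sided2 I hLB (show 39 / 10 ≤ α by linarith) (half_pos hε), MM_two_sided2 I hLB (show 39 / 10 ≤ β by linarith) (half_pos hε),
    MM_two_sided2 I hLB h1 (half_pos hε), eventually_gt_atTop 1] with T hA hB hA' hT
  have e1 := MM_eq_HW (γ := γ) (w := w) (F := F) T (show (0 : ℝ) ≤ α by linarith)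
  have e2 := MM_eq_HW (γ := γ) (w := w) (F := F) T (show (0 : ℝ) ≤ β by linarith)
  have e3 := MM_eq_HW (γ := γ) (w := w) (F := F) T (show (0 : ℝ) ≤ α' by linarith)
  have e4 := HW_le_PW_sub (γ := γ) (w := w) (F := F) hw hT α β
  have e5 := PW_le_HW_sub (γ := γ) (w := w) (F := F) hw hT (show 0 ≤ α' by linarith) h2 hαβ.le
  have e6 : PC.gue α β = (G2 β - G2 α) / 2 := by
    rw [gue_eq, if_neg (fun h' => by linarith [h'.1]), G2_eq_gg, G2_eq_gg]
    ring
  rw [abs_le] at hA hB hA' ⊢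
  rw [e6]
  constructor <;> linarith [hA.1, hA.2, hB.1, hB.2, hA'.1, hA'.2]

theorem PW_bound2 [Countable ι] (I : Inputs γ w F CR) (hLB : LBH γ w F) {α β : ℝ} (hαβ : α < β) (hα : 4 ≤ |α|) (hβ : 4 ≤ |β|) {ε : ℝ} (hε : 0 < ε) :
    ∀ᶠ T in atTop, |PW γ w F T α β - PC.gue α β| ≤ 118 / 125 + 13 / 200 * (1 / |α| + 1 / |β|) + ε := by
  have hkap : ∀ a b : ℝ, a ≠ 0 → b ≠ 0 → (kap2 a + kap2 b) / 2 = 118 / 125 + 13 / 200 * (1 / a + 1 / b) := by
    intro a b ha hb
    unfold kap2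
    field_simp
    ring
  rcases lt_or_ge 0 α with h1 | h1
  · rw [abs_of_pos h1] at hα ⊢
    have hβ0 : 0 < β := by linarith
    rw [abs_of_pos hβ0]
    rw [← hkap α β h1.ne' hβ0.ne']
    exact PW_pos2 I hLB hα hαβ hε
  · rcases lt_or_ge β 0 with h2 | h2
    · have hα0 : α < 0 := by linarith
      rw [abs_of_neg h2] at hβ
      rw [abs_of_neg hα0, abs_of_neg h2, add_comm (1 / -α), ← hkap (-β) (-α) (by linarith) (by linarith)]
      have h3 := PW_pos2 I hLB hβ (show -β < -α by linarith) hε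
      simp_rw [PW_symm] at h3
      have e : PC.gue (-β) (-α) = PC.gue α β := by
        rw [gue_eq, gue_eq, if_neg (fun h' => by linarith [h'.1]), if_neg (fun h' => by linarith [h'.2]), gg_neg, gg_neg]
        ring
      rw [e] at h3
      exact h3
    · have hα0 : α < 0 := by
        rcases eq_or_lt_of_le h1 with h | h
        · rw [h, abs_zero] at hα; linarith
        · exact h
      have hβ0 : 0 < β := by
        rcases eq_or_lt_of_le h2 with h | h
        · rw [← h, abs_zero] at hβ; linarith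
        · exact h
      rw [abs_of_neg hα0] at hα ⊢
      rw [abs_of_pos hβ0] at hβ ⊢
      rw [← hkap (-α) β (by linarith) hβ0.ne']
      filter_upwards [MM_two_sided2 I hLB (show 39 / 10 ≤ -α by linarith) hε, MM_two_sided2 I hLB (show 39 / 10 ≤ β by linarith) hε] with T hA hB
      rw [PW_straddle T h1 h2, gue_eq, if_pos ⟨h1, h2⟩]
      have e1 := MM_eq_HW (γ := γ) (w := w) (F := F) T (show (0 : ℝ) ≤ -α by linarith)
      have e2 := MM_eq_HW (γ := γ) (w := w) (F := F) T h2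
      rw [G2_eq_gg, gg_neg] at hA
      rw [G2_eq_gg] at hB
      rw [abs_le] at hA hB ⊢
      constructor <;> linarith [hA.1, hA.2, hB.1, hB.2]

end

end Pool.Agent.H5
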