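import Mathlib
import Pool.Agent.H5.Disc2
import Pool.Agent.H27.Cor.NStar
import Pool.Agent.H27.Cor.Small
import Pool.Agent.H27.Cor.Lbh

open MeasureTheory Set Filter Topology
open scoped Real Interval

/-!
# Bounds for the pair counts of windows under the Riemann Hypothesis
-/

namespace Pool.Agent.H5

open Pool.Agent Pool.Agent.H6 Pool.Agent.H27.Cor

/-- Far windows. -/
theorem farWindows (RH : RiemannHypothesis) (hLB : LBH gZ wZ FZ) {α β : ℝ} (hαβ : α < β)
    (hα : 4 ≤ |α|) (hβ : 4 ≤ |β|) {ε : ℝ} (hε : 0 < ε) :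
    ∀ᶠ T in atTop, |PC.pairCount T α β - PC.gue α β * PC.norm T|
      ≤ (118 / 125 + 13 / 200 * (1 / |α| + 1 / |β|) + ε) * PC.norm T := by
  obtain ⟨CR, I⟩ := exists_inputs RH
  filter_upwards [PW_bound2 I hLB hαβ hα hβ hε, eventually_gt_atTop 1] with T hT hT1
  have hn := norm_pos hT1
  rw [PW_eq RH hT1] at hT
  have e : PC.pairCount T α β - PC.gue α β * PC.norm T = (PC.pairCount T α β / PC.norm T - PC.gue α β) * PC.norm T := by
    field_simp
  rw [e, abs_mul, abs_of_pos hn]
  exact mul_le_mul_of_nonneg_right hT hn.le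

end Pool.Agent.H5
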